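import Pool.Agent.Helper87.TE.BsDefs

/-!
TE-BsC. Block sums with disjoint spectra. `p` is a polynomial with `p(A1) = 0`, `p(A2) = 1`,
`A1 = mats c1 i0`, `A2 = mats c2 i0`. The model is `addL_Cset`, `addW_inf_orb` in
Helper61/HilbAdd.lean; `Cset c` = the matrices commute and every subspace containing `vect c`
and invariant under all `mats c i` is everything. PROOFS.
`bs_Cset`: commuting: `bsM_mul`. Cyclic: let `W` contain `vect (bs c1 c2) = (v1, v2)` and be
invariant. `p` of the matrix `bsM A1 A2` is `bsM 0 1` (`aeval` and `bsM`: induction on `p` or an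
algebra homomorphism); `W` is invariant under it (submodule invariant under `A` is invariant under
`aeval A p`), so `(0, v2) ∈ W`, `(v1, 0) ∈ W`, and more generally `(x, y) ∈ W` implies
`(x, 0), (0, y) ∈ W`. The subspace `{x : (x, 0) ∈ W}` contains `v1` and is invariant, so it is
everything, similarly the other one.
`bs_inf_orb`: let `bs w1 w2 = orb (bs c1 c2) Y`, `w1 ∈ W1`, `w2 ∈ W2`, `Y` with blocks
`Y11, Y12, Y21, Y22`. The off-diagonal blocks of `Y * bsM A1 A2 - bsM A1 A2 * Y = bsM (..) (..)`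
are `Y12 A2 = A1 Y12`, `Y21 A1 = A2 Y21`; so `Y12 = Y12 p(A2) = p(A1) Y12 = 0` and
`Y21 = p(A2) Y21 = Y21 p(A1) = 0`. Then `w1 = orb c1 Y11` (matrices and vector), so `w1 = 0` by
`hW1`, and `w2 = orb c2 Y22 = 0`.
-/

open MvPolynomial Module Matrix

namespace Pool.Agent.Helper87.TE

open Pool.Agent.Hilb61 Pool.Agent.Helper87.HQ

universe u

variable {k : Type u} [Field k] {n d1 d2 : ℕ}

namespace BsC

/-- General block matrices. -/
def b4 (A : Matrix (Fin d1) (Fin d1) k) (B : Matrix (Fin d1) (Fin d2) k)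
    (C : Matrix (Fin d2) (Fin d1) k) (D : Matrix (Fin d2) (Fin d2) k) :
    Matrix (Fin (d1 + d2)) (Fin (d1 + d2)) k :=
  (Matrix.fromBlocks A B C D).reindex finSumFinEquiv finSumFinEquiv

lemma bsM_eq (M : Matrix (Fin d1) (Fin d1) k) (N : Matrix (Fin d2) (Fin d2) k) :
    bsM M N = b4 M 0 0 N := rfl

lemma b4_mul (A A' : Matrix (Fin d1) (Fin d1) k) (B B' : Matrix (Fin d1) (Fin d2) k)
    (C C' : Matrix (Fin d2) (Fin d1) k) (D D' : Matrix (Fin d2) (Fin d2) k) :
    b4 A B C D * b4 A' B' C' D' =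
      b4 (A * A' + B * C') (A * B' + B * D') (C * A' + D * C') (C * B' + D * D') := by
  simp only [b4, Matrix.reindex_apply]
  rw [Matrix.submatrix_mul_equiv, Matrix.fromBlocks_multiply]

lemma b4_add (A A' : Matrix (Fin d1) (Fin d1) k) (B B' : Matrix (Fin d1) (Fin d2) k)
    (C C' : Matrix (Fin d2) (Fin d1) k) (D D' : Matrix (Fin d2) (Fin d2) k) :
    b4 A B C D + b4 A' B' C' D' = b4 (A + A') (B + B') (C + C') (D + D') := by
  ext r s
  refine Fin.addCases (fun a => ?_) (fun a => ?_) r <;>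
    refine Fin.addCases (fun b => ?_) (fun b => ?_) s <;> simp [b4]

lemma b4_smul (t : k) (A : Matrix (Fin d1) (Fin d1) k) (B : Matrix (Fin d1) (Fin d2) k)
    (C : Matrix (Fin d2) (Fin d1) k) (D : Matrix (Fin d2) (Fin d2) k) :
    t • b4 A B C D = b4 (t • A) (t • B) (t • C) (t • D) := by
  ext r s
  refine Fin.addCases (fun a => ?_) (fun a => ?_) r <;>
    refine Fin.addCases (fun b => ?_) (fun b => ?_) s <;> simp [b4]

lemma aeval_succ {R : Type*} [Semiring R] [Algebra k R] (x : R) (a : k) (m : ℕ) :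
    Polynomial.aeval x (Polynomial.C a * Polynomial.X ^ (m + 1)) =
      Polynomial.aeval x (Polynomial.C a * Polynomial.X ^ m) * x := by
  rw [pow_succ, ← mul_assoc, map_mul (Polynomial.aeval x), Polynomial.aeval_X]

omit [Field k] in
lemma b4_inj {A A' : Matrix (Fin d1) (Fin d1) k} {B B' : Matrix (Fin d1) (Fin d2) k}
    {C C' : Matrix (Fin d2) (Fin d1) k} {D D' : Matrix (Fin d2) (Fin d2) k}
    (h : b4 A B C D = b4 A' B' C' D') : A = A' ∧ B = B' ∧ C = C' ∧ D = D' :=
  Matrix.fromBlocks_inj.1 ((Matrix.reindex finSumFinEquiv finSumFinEquiv).injective h)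

omit [Field k] in
lemma exists_b4 (Y : Matrix (Fin (d1 + d2)) (Fin (d1 + d2)) k) :
    ∃ A B C D, Y = b4 (d1 := d1) (d2 := d2) A B C D := by
  refine ⟨((Matrix.reindex finSumFinEquiv finSumFinEquiv).symm Y).toBlocks₁₁,
    ((Matrix.reindex finSumFinEquiv finSumFinEquiv).symm Y).toBlocks₁₂,
    ((Matrix.reindex finSumFinEquiv finSumFinEquiv).symm Y).toBlocks₂₁,
    ((Matrix.reindex finSumFinEquiv finSumFinEquiv).symm Y).toBlocks₂₂, ?_⟩
  rw [b4, Matrix.fromBlocks_toBlocks, Equiv.apply_symm_apply]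

lemma b4_mulVec (A : Matrix (Fin d1) (Fin d1) k) (B : Matrix (Fin d1) (Fin d2) k)
    (C : Matrix (Fin d2) (Fin d1) k) (D : Matrix (Fin d2) (Fin d2) k)
    (x : Fin d1 → k) (y : Fin d2 → k) :
    b4 A B C D *ᵥ (Fin.append x y) = Fin.append (A *ᵥ x + B *ᵥ y) (C *ᵥ x + D *ᵥ y) := by
  funext r
  rw [mulVec, dotProduct, Fin.sum_univ_add]
  refine Fin.addCases (fun a => ?_) (fun a => ?_) r
  · simp [b4, mulVec, dotProduct]
  · simp [b4, mulVec, dotProduct]

lemma vect_bs (c1 : Coord n d1 → k) (c2 : Coord n d2 → k) :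
    vect (bs c1 c2) = Fin.append (vect c1) (vect c2) := by
  funext r
  refine Fin.addCases (fun a => ?_) (fun a => ?_) r
  · rw [vect_bs_l, Fin.append_left]
  · rw [vect_bs_r, Fin.append_right]

lemma aeval_b4 (A : Matrix (Fin d1) (Fin d1) k) (D : Matrix (Fin d2) (Fin d2) k)
    (p : Polynomial k) : Polynomial.aeval (b4 A 0 0 D) p =
      b4 (Polynomial.aeval A p) 0 0 (Polynomial.aeval D p) := by
  induction p using Polynomial.induction_on with
  | C a =>
    rw [Polynomial.aeval_C, Polynomial.aeval_C, Polynomial.aeval_C, Algebra.algebraMap_eq_smul_one,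
      Algebra.algebraMap_eq_smul_one, Algebra.algebraMap_eq_smul_one, ← bsM_one (d1 := d1), bsM_eq,
      b4_smul, smul_zero, smul_zero]
  | add p q hp hq =>
    rw [map_add, map_add, map_add, hp, hq, b4_add]
    simp
  | monomial m a h =>
    rw [aeval_succ, aeval_succ, aeval_succ, h, b4_mul]
    simp

lemma invariant {κ : Type*} [Fintype κ] [DecidableEq κ] (A : Matrix κ κ k)
    (W : Submodule k (κ → k)) (hW : ∀ x ∈ W, A *ᵥ x ∈ W) (p : Polynomial k) :
    ∀ x ∈ W, Polynomial.aeval A p *ᵥ x ∈ W := by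
  induction p using Polynomial.induction_on with
  | C a =>
    intro x hx
    rw [Polynomial.aeval_C, Algebra.algebraMap_eq_smul_one, smul_mulVec, one_mulVec]
    exact W.smul_mem _ hx
  | add p q hp hq =>
    intro x hx
    rw [map_add, add_mulVec]
    exact W.add_mem (hp x hx) (hq x hx)
  | monomial m a h =>
    intro x hx
    rw [aeval_succ, ← mulVec_mulVec]
    exact h _ (hW x hx)

lemma intertwine {κ ι : Type*} [Fintype κ] [DecidableEq κ] [Fintype ι] [DecidableEq ι]
    (A : Matrix κ κ k) (D : Matrix ι ι k) (B : Matrix κ ι k) (h : B * D = A * B)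
    (p : Polynomial k) : B * Polynomial.aeval D p = Polynomial.aeval A p * B := by
  induction p using Polynomial.induction_on with
  | C a =>
    rw [Polynomial.aeval_C, Polynomial.aeval_C, Algebra.algebraMap_eq_smul_one,
      Algebra.algebraMap_eq_smul_one, Matrix.mul_smul, Matrix.smul_mul, Matrix.mul_one,
      Matrix.one_mul]
  | add p q hp hq =>
    rw [map_add, map_add, Matrix.mul_add, Matrix.add_mul, hp, hq]
  | monomial m a h' =>
    rw [aeval_succ, aeval_succ, ← Matrix.mul_assoc, h', Matrix.mul_assoc, h, ← Matrix.mul_assoc]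

end BsC

open BsC

theorem bs_Cset {c1 : Coord n d1 → k} (h1 : c1 ∈ Cset k n d1) {c2 : Coord n d2 → k}
    (h2 : c2 ∈ Cset k n d2) (i0 : Fin n) (p : Polynomial k)
    (hp1 : Polynomial.aeval (mats c1 i0) p = 0) (hp2 : Polynomial.aeval (mats c2 i0) p = 1) :
    bs c1 c2 ∈ Cset k n (d1 + d2) := by
  refine ⟨fun i j => ?_, fun W h0 hW => ?_⟩
  · rw [mats_bs, mats_bs, bsM_mul, bsM_mul, h1.1 i j, h2.1 i j]
  · have hW' : ∀ i (x : Fin d1 → k) (y : Fin d2 → k), Fin.append x y ∈ W →
        Fin.append (mats c1 i *ᵥ x) (mats c2 i *ᵥ y) ∈ W := by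
      intro i x y hx
      have := hW i _ hx
      rw [mats_bs, bsM_eq, b4_mulVec] at this
      simpa using this
    have hP : ∀ (x : Fin d1 → k) (y : Fin d2 → k), Fin.append x y ∈ W →
        Fin.append (0 : Fin d1 → k) y ∈ W := by
      intro x y hx
      have := invariant (mats (bs c1 c2) i0) W (hW i0) p _ hx
      rw [mats_bs, bsM_eq, aeval_b4, hp1, hp2, b4_mulVec] at this
      simpa using this
    have hsub : ∀ (x : Fin d1 → k) (y : Fin d2 → k),
        Fin.append x y - Fin.append (0 : Fin d1 → k) y = Fin.append x (0 : Fin d2 → k) := by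
      intro x y
      funext r
      refine Fin.addCases (fun a => ?_) (fun a => ?_) r <;> simp
    have hQ : ∀ (x : Fin d1 → k) (y : Fin d2 → k), Fin.append x y ∈ W →
        Fin.append x (0 : Fin d2 → k) ∈ W := by
      intro x y hx
      rw [← hsub x y]
      exact W.sub_mem hx (hP x y hx)
    let ι1 : (Fin d1 → k) →ₗ[k] (Fin (d1 + d2) → k) :=
      { toFun := fun x => Fin.append x (0 : Fin d2 → k)
        map_add' := by
          intro x y
          funext r
          refine Fin.addCases (fun a => ?_) (fun a => ?_) r <;> simp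
        map_smul' := by
          intro t x
          funext r
          refine Fin.addCases (fun a => ?_) (fun a => ?_) r <;> simp }
    let ι2 : (Fin d2 → k) →ₗ[k] (Fin (d1 + d2) → k) :=
      { toFun := fun x => Fin.append (0 : Fin d1 → k) x
        map_add' := by
          intro x y
          funext r
          refine Fin.addCases (fun a => ?_) (fun a => ?_) r <;> simp
        map_smul' := by
          intro t x
          funext r
          refine Fin.addCases (fun a => ?_) (fun a => ?_) r <;> simp }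
    rw [vect_bs] at h0
    have e1 : W.comap ι1 = ⊤ := by
      refine h1.2 _ (hQ _ _ h0) fun i x hx => ?_
      have hx' : Fin.append x (0 : Fin d2 → k) ∈ W := hx
      have := hW' i _ _ hx'
      rw [mulVec_zero] at this
      exact this
    have e2 : W.comap ι2 = ⊤ := by
      refine h2.2 _ (hP _ _ h0) fun i x hx => ?_
      have hx' : Fin.append (0 : Fin d1 → k) x ∈ W := hx
      have := hW' i _ _ hx'
      rw [mulVec_zero] at this
      exact this
    rw [eq_top_iff]
    intro z _
    have hz : z = ι1 (fun a => z (Fin.castAdd d2 a)) + ι2 (fun a => z (Fin.natAdd d1 a)) := by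
      funext r
      show z r = Fin.append (fun a => z (Fin.castAdd d2 a)) (0 : Fin d2 → k) r +
        Fin.append (0 : Fin d1 → k) (fun a => z (Fin.natAdd d1 a)) r
      refine Fin.addCases (fun a => ?_) (fun a => ?_) r <;> simp
    rw [hz]
    refine W.add_mem ?_ ?_
    · have : (fun a => z (Fin.castAdd d2 a)) ∈ W.comap ι1 := by rw [e1]; trivial
      exact this
    · have : (fun a => z (Fin.natAdd d1 a)) ∈ W.comap ι2 := by rw [e2]; trivial
      exact this

theorem bs_inf_orb (c1 : Coord n d1 → k) (c2 : Coord n d2 → k) (i0 : Fin n) (p : Polynomial k)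
    (hp1 : Polynomial.aeval (mats c1 i0) p = 0) (hp2 : Polynomial.aeval (mats c2 i0) p = 1)
    {W1 : Submodule k (Coord n d1 → k)} (hW1 : W1 ⊓ LinearMap.range (orb c1) = ⊥)
    {W2 : Submodule k (Coord n d2 → k)} (hW2 : W2 ⊓ LinearMap.range (orb c2) = ⊥) :
    (W1.prod W2).map (bsP k n d1 d2) ⊓ LinearMap.range (orb (bs c1 c2)) = ⊥ := by
  rw [eq_bot_iff]
  rintro _ ⟨⟨⟨w1, w2⟩, hw, rfl⟩, Y, hY⟩
  have hw1 : w1 ∈ W1 := (Submodule.mem_prod.1 hw).1
  have hw2 : w2 ∈ W2 := (Submodule.mem_prod.1 hw).2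
  obtain ⟨A, B, C, D, rfl⟩ := exists_b4 Y
  have hm : ∀ i, b4 A B C D * bsM (mats c1 i) (mats c2 i) -
      bsM (mats c1 i) (mats c2 i) * b4 A B C D = bsM (mats w1 i) (mats w2 i) := by
    intro i
    exact congrArg (fun x => mats x i) hY
  have hv : b4 A B C D *ᵥ vect (bs c1 c2) = vect (bs w1 w2) := congrArg vect hY
  have hb : ∀ i, A * mats c1 i = mats w1 i + mats c1 i * A ∧ B * mats c2 i = mats c1 i * B ∧
      C * mats c1 i = mats c2 i * C ∧ D * mats c2 i = mats w2 i + mats c2 i * D := by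
    intro i
    have h := hm i
    rw [sub_eq_iff_eq_add, bsM_eq, bsM_eq, b4_mul, b4_mul, b4_add] at h
    have h' := b4_inj h
    simpa using h'
  have hB : B = 0 := by
    have h := intertwine (mats c1 i0) (mats c2 i0) B (hb i0).2.1 p
    rw [hp1, hp2, Matrix.mul_one, Matrix.zero_mul] at h
    exact h
  have hC : C = 0 := by
    have h := intertwine (mats c2 i0) (mats c1 i0) C (hb i0).2.2.1 p
    rw [hp1, hp2, Matrix.one_mul, Matrix.mul_zero] at h
    exact h.symm
  subst hB
  subst hC
  rw [vect_bs, vect_bs, b4_mulVec] at hv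
  have hv1 : A *ᵥ vect c1 = vect w1 := by
    funext a
    have := congrFun hv (Fin.castAdd d2 a)
    simpa using this
  have hv2 : D *ᵥ vect c2 = vect w2 := by
    funext a
    have := congrFun hv (Fin.natAdd d1 a)
    simpa using this
  have e1 : orb c1 A = w1 := by
    funext x
    rcases x with ⟨i, r, s⟩ | r
    · show (A * mats c1 i - mats c1 i * A) r s = mats w1 i r s
      rw [(hb i).1, add_sub_cancel_right]
    · exact congrFun hv1 r
  have e2 : orb c2 D = w2 := by
    funext x
    rcases x with ⟨i, r, s⟩ | r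
    · show (D * mats c2 i - mats c2 i * D) r s = mats w2 i r s
      rw [(hb i).2.2.2, add_sub_cancel_right]
    · exact congrFun hv2 r
  have z1 : w1 = 0 := by
    have : w1 ∈ W1 ⊓ LinearMap.range (orb c1) := ⟨hw1, A, e1⟩
    rw [hW1] at this
    exact (Submodule.mem_bot k).1 this
  have z2 : w2 = 0 := by
    have : w2 ∈ W2 ⊓ LinearMap.range (orb c2) := ⟨hw2, D, e2⟩
    rw [hW2] at this
    exact (Submodule.mem_bot k).1 this
  rw [z1, z2, Submodule.mem_bot]
  exact map_zero _

end Pool.Agent.Helper87.TE
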