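import Pool.Agent.Helper87.TE.BsDefs

/-!
TE-Shf. Translations. PROOFS. `shf_Zset`, `shf_tanR`: `affine_push` (Helper61/HilbFr.lean) with
`L = id`, `b = shf k n d i0 q`: for `c ∈ Rset` with points `p` and `U`, `c + shf ∈ Rset` with the
points `p a + q e_{i0}` and the same `U`. `shf_Cset`: commuting: scalars; cyclic: a subspace is
invariant under `A + q` and contains .. iff invariant under `A`; `vect` unchanged. `shf_orb`:
scalars commute. `exists_shift`: let `χ1` be the charpoly of `A1`, `χ2` that of `A2`; choose `q`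
such that no root of `χ1` is of the form `q + μ`, `μ` a root of `χ2` (finitely many `q`
excluded, `k` is infinite); the charpoly `χ2'` of `A2 + q` has only roots `μ + q`
(`Matrix.eval_charpoly` or `charpoly` of a sum with a scalar matrix); so `χ1, χ2'` are coprime
(`Polynomial.isCoprime_iff_aeval_ne_zero_of_isAlgClosed` or similar): `a χ1 + b χ2' = 1`; take
`p = a χ1` and Cayley-Hamilton (`Matrix.aeval_self_charpoly`).
-/

open MvPolynomial Module Matrix

namespace Pool.Agent.Helper87.TE

open Pool.Agent.Hilb61 Pool.Agent.Helper87.HQ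

universe u

variable {k : Type u} [Field k] {n d d1 d2 : ℕ}

private lemma mats_add_shf_all (c : Coord n d → k) (i0 : Fin n) (q : k) (i : Fin n) :
    mats (c + shf k n d i0 q) i = mats c i + (if i = i0 then q else 0) • 1 := by
  have h1 : mats (c + shf k n d i0 q) i =
      mats c i + (if i = i0 then q • (1 : Matrix (Fin d) (Fin d) k) else 0) := rfl
  rw [h1]
  split_ifs with h
  · rfl
  · rw [zero_smul]

private lemma vect_add_shf (c : Coord n d → k) (i0 : Fin n) (q : k) :
    vect (c + shf k n d i0 q) = vect c := by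
  funext r
  show c (Sum.inr r) + 0 = c (Sum.inr r)
  rw [add_zero]

theorem mats_add_shf (c : Coord n d → k) (i0 : Fin n) (q : k) :
    mats (c + shf k n d i0 q) i0 = mats c i0 + q • 1 := by
  rw [mats_add_shf_all, if_pos rfl]

private lemma shf_Rset {c : Coord n d → k} (h : c ∈ Rset k n d) (i0 : Fin n) (q : k) :
    c + shf k n d i0 q ∈ Rset k n d := by
  obtain ⟨p, hp, U, U', hU, h1, h2⟩ := h
  refine ⟨fun a i => p a i + (if i = i0 then q else 0), fun a b hab => hp ?_, U, U', hU, ?_, ?_⟩
  · funext i
    exact add_right_cancel (congrFun hab i)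
  · intro a i s
    rw [mats_add_shf_all, Matrix.mul_add, Matrix.add_apply, ← h1 a i s, Matrix.mul_smul,
      Matrix.mul_one, Matrix.smul_apply, smul_eq_mul, add_mul]
  · intro a
    rw [vect_add_shf]
    exact h2 a

private lemma shf_push (i0 : Fin n) (q : k) :
    (∀ c ∈ Zset k n d, (LinearMap.id : (Coord n d → k) →ₗ[k] (Coord n d → k)) c +
      shf k n d i0 q ∈ Zset k n d) ∧
      ∀ c w : Coord n d → k, w ∈ tanR c →
        (LinearMap.id : (Coord n d → k) →ₗ[k] (Coord n d → k)) w ∈
          tanR ((LinearMap.id : (Coord n d → k) →ₗ[k] (Coord n d → k)) c + shf k n d i0 q) :=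
  affine_push LinearMap.id (shf k n d i0 q) (fun _ hc => Rset_subset_Zset (shf_Rset hc i0 q))

theorem shf_Zset {c : Coord n d → k} (h : c ∈ Zset k n d) (i0 : Fin n) (q : k) :
    c + shf k n d i0 q ∈ Zset k n d :=
  (shf_push i0 q).1 c h

theorem shf_tanR {c w : Coord n d → k} (h : w ∈ tanR c) (i0 : Fin n) (q : k) :
    w ∈ tanR (c + shf k n d i0 q) :=
  (shf_push i0 q).2 c w h

theorem shf_Cset {c : Coord n d → k} (h : c ∈ Cset k n d) (i0 : Fin n) (q : k) :
    c + shf k n d i0 q ∈ Cset k n d := by
  refine ⟨fun i j => ?_, fun W h1 hW => ?_⟩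
  · rw [mats_add_shf_all, mats_add_shf_all]
    have h3 := h.1 i j
    simp only [add_mul, mul_add, smul_mul_assoc, mul_smul_comm, one_mul, mul_one, h3, smul_add,
      smul_smul, mul_comm (if j = i0 then q else 0) (if i = i0 then q else 0)]
    abel
  · rw [vect_add_shf] at h1
    refine h.2 W h1 (fun i w hw => ?_)
    have h4 := hW i w hw
    rw [mats_add_shf_all, Matrix.add_mulVec, Matrix.smul_mulVec, Matrix.one_mulVec] at h4
    have h5 := W.sub_mem h4 (W.smul_mem (if i = i0 then q else 0) hw)
    rwa [add_sub_cancel_right] at h5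

theorem shf_orb (c : Coord n d → k) (i0 : Fin n) (q : k) :
    orb (c + shf k n d i0 q) = orb c := by
  apply LinearMap.ext
  intro Y
  funext x
  rcases x with ⟨i, r, s⟩ | r
  · show (Y * mats (c + shf k n d i0 q) i - mats (c + shf k n d i0 q) i * Y) r s =
      (Y * mats c i - mats c i * Y) r s
    rw [mats_add_shf_all, mul_add, add_mul, mul_smul_comm, smul_mul_assoc, one_mul, mul_one,
      add_sub_add_right_eq_sub]
  · show (Y *ᵥ vect (c + shf k n d i0 q)) r = (Y *ᵥ vect c) r
    rw [vect_add_shf]

theorem exists_shift [IsAlgClosed k] (A1 : Matrix (Fin d1) (Fin d1) k)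
    (A2 : Matrix (Fin d2) (Fin d2) k) : ∃ (q : k) (p : Polynomial k),
      Polynomial.aeval A1 p = 0 ∧ Polynomial.aeval (A2 + q • 1) p = 1 := by
  classical
  have : Infinite k := IsAlgClosed.instInfinite
  obtain ⟨q, hq⟩ := Infinite.exists_notMem_finset
    (Finset.image₂ (fun x y => x - y) A1.charpoly.roots.toFinset A2.charpoly.roots.toFinset)
  have hev : ∀ μ : k, (A2 + q • 1).charpoly.eval μ = A2.charpoly.eval (μ - q) := by
    intro μ
    rw [Matrix.eval_charpoly, Matrix.eval_charpoly]
    congr 1
    rw [Matrix.scalar_apply, Matrix.scalar_apply, ← Matrix.smul_one_eq_diagonal,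
      ← Matrix.smul_one_eq_diagonal, sub_smul]
    abel
  have hco : IsCoprime A1.charpoly (A2 + q • 1).charpoly := by
    rw [Polynomial.isCoprime_iff_aeval_ne_zero_of_isAlgClosed k k]
    intro a
    by_contra hcon
    push Not at hcon
    obtain ⟨h1, h2⟩ := hcon
    rw [Polynomial.coe_aeval_eq_eval] at h1 h2
    rw [hev] at h2
    apply hq
    rw [Finset.mem_image₂]
    refine ⟨a, ?_, a - q, ?_, by ring⟩
    · rw [Multiset.mem_toFinset, Polynomial.mem_roots (Matrix.charpoly_monic A1).ne_zero]
      exact h1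
    · rw [Multiset.mem_toFinset, Polynomial.mem_roots (Matrix.charpoly_monic A2).ne_zero]
      exact h2
  obtain ⟨a, b, hab⟩ := hco
  refine ⟨q, a * A1.charpoly, ?_, ?_⟩
  · rw [map_mul, Matrix.aeval_self_charpoly, mul_zero]
  · have h1 := congrArg (Polynomial.aeval (A2 + q • (1 : Matrix (Fin d2) (Fin d2) k))) hab
    rw [map_add, map_mul _ b, Matrix.aeval_self_charpoly, mul_zero, add_zero, map_one] at h1
    exact h1

end Pool.Agent.Helper87.TE
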