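import Pool.Agent.Helper87.TE.BsZ
import Pool.Agent.Helper87.TE.BsC
import Pool.Agent.Helper87.TE.Shf

/-!
TE-Add. Superadditivity. PROOF. As `exists_add_point` (Helper61/HilbAdd.lean): charts `lam1, c1`,
`lam2, c2` of `x1, x2`; `c1, c2 ∈ Zset` (`Zset_of_smoothable`), `∈ Cset` (`IsCoord.mem_Cset`).
`exists_shift (mats c1 i0) (mats c2 i0)` gives `q, p`; `c2' = c2 + shf i0 q`;
`c = bs c1 c2' ∈ Zset, Cset`. `W1 = tangent lam1 c1`, `W2 = tangent lam2 c2`, both meet the
`orb` ranges trivially (`tangent_inf_orb`, `shf_orb`), `tangent_le_tanR`, `shf_tanR`, `bs_tanR`.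
`exists_chart ⟨c, _⟩` gives a chart `lam'`; `finrank_le_tangent_of_tanR` with
`W = (W1.prod W2).map bsP`; `bsP` is injective (look at the blocks), so
`finrank W = finrank W1 + finrank W2` (`Submodule.prodEquivOfIsCompl`-free:
`LinearEquiv.finrank_eq` with `Submodule.equivMapOfInjective` and `Submodule.prodEquiv..`, or
via a linear map from `W1 × W2` as `addW`); `smoothable_of_Zset`.
-/

open MvPolynomial Module Matrix

namespace Pool.Agent.Helper87.TE

open Pool.Agent.Hilb61 Pool.Agent.Helper87.HQ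

universe u

variable {k : Type u} [Field k] {n d1 d2 : ℕ}

private lemma bsP_injective : Function.Injective (bsP k n d1 d2) := by
  rintro ⟨w1, w2⟩ ⟨w1', w2'⟩ h
  have hm : ∀ i, bsM (mats w1 i) (mats w2 i) = bsM (mats w1' i) (mats w2' i) := fun i =>
    congrArg (fun x => mats x i) h
  have hv : ∀ r, vect (bs w1 w2) r = vect (bs w1' w2') r := fun r =>
    congrFun (congrArg vect h) r
  have h1 : w1 = w1' := by
    funext x
    rcases x with ⟨i, r, s⟩ | r
    · have e := congrFun (congrFun (hm i) (Fin.castAdd d2 r)) (Fin.castAdd d2 s)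
      rw [bsM_ll, bsM_ll] at e
      exact e
    · have e := hv (Fin.castAdd d2 r)
      rw [vect_bs_l, vect_bs_l] at e
      exact e
  have h2 : w2 = w2' := by
    funext x
    rcases x with ⟨i, r, s⟩ | r
    · have e := congrFun (congrFun (hm i) (Fin.natAdd d1 r)) (Fin.natAdd d1 s)
      rw [bsM_rr, bsM_rr] at e
      exact e
    · have e := hv (Fin.natAdd d1 r)
      rw [vect_bs_r, vect_bs_r] at e
      exact e
  rw [h1, h2]

private lemma finrank_map_bsP (W1 : Submodule k (Coord n d1 → k))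
    (W2 : Submodule k (Coord n d2 → k)) :
    finrank k ((W1.prod W2).map (bsP k n d1 d2)) = finrank k W1 + finrank k W2 := by
  have h1 : (W1.prod W2).map (bsP k n d1 d2) =
      LinearMap.range ((bsP k n d1 d2).comp (W1.subtype.prodMap W2.subtype)) := by
    rw [LinearMap.range_comp, LinearMap.range_prodMap, Submodule.range_subtype,
      Submodule.range_subtype]
  have h2 : Function.Injective ((bsP k n d1 d2).comp (W1.subtype.prodMap W2.subtype)) := by
    rw [LinearMap.coe_comp]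
    refine bsP_injective.comp ?_
    rw [LinearMap.coe_prodMap]
    exact W1.injective_subtype.prodMap W2.injective_subtype
  rw [h1, LinearMap.finrank_range_of_inj h2, Module.finrank_prod]

theorem exists_add_scheme [IsAlgClosed k] (i0 : Fin n) {x1 : Hilb k n d1}
    (h1 : x1 ∈ smoothable k n d1) {N1 : ℕ} (hN1 : HasTangentDim x1 N1) {x2 : Hilb k n d2}
    (h2 : x2 ∈ smoothable k n d2) {N2 : ℕ} (hN2 : HasTangentDim x2 N2) :
    ∃ x' ∈ smoothable k n (d1 + d2), ∃ N', HasTangentDim x' N' ∧ N1 + N2 ≤ N' := by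
  have : Infinite k := inferInstance
  obtain ⟨lam1, c1, e1, rfl⟩ := hN1
  obtain ⟨lam2, c2, e2, rfl⟩ := hN2
  have hZ1 : c1 ∈ Zset k n d1 := Zset_of_smoothable h1 e1
  have hZ2 : c2 ∈ Zset k n d2 := Zset_of_smoothable h2 e2
  obtain ⟨q, p, hp1, hp2⟩ := exists_shift (mats c1 i0) (mats c2 i0)
  have hZ2' := shf_Zset hZ2 i0 q
  have hp2' : Polynomial.aeval (mats (c2 + shf k n d2 i0 q) i0) p = 1 := by
    rw [mats_add_shf]
    exact hp2
  have hZ : bs c1 (c2 + shf k n d2 i0 q) ∈ Zset k n (d1 + d2) := bs_Zset i0 hZ1 hZ2'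
  have hC : bs c1 (c2 + shf k n d2 i0 q) ∈ Cset k n (d1 + d2) :=
    bs_Cset e1.mem_Cset (shf_Cset e2.mem_Cset i0 q) i0 p hp1 hp2'
  obtain ⟨lam', h'⟩ := exists_chart ⟨_, hC⟩
  refine ⟨toHilb ⟨_, hC⟩, smoothable_of_Zset hZ hC, _, ⟨lam', _, h', rfl⟩, ?_⟩
  have h3 := finrank_le_tangent_of_tanR h' hZ
    (W := ((tangent lam1 c1).prod (tangent lam2 c2)).map (bsP k n d1 d2)) (by
      rintro _ ⟨⟨w1, w2⟩, ⟨hw1, hw2⟩, rfl⟩
      exact bs_tanR i0 hZ1 hZ2' (tangent_le_tanR lam1 c1 hw1)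
        (shf_tanR (tangent_le_tanR lam2 c2 hw2) i0 q))
    (bs_inf_orb c1 _ i0 p hp1 hp2' (tangent_inf_orb e1) (by
      rw [shf_orb]
      exact tangent_inf_orb e2))
  rw [finrank_map_bsP] at h3
  exact h3

end Pool.Agent.Helper87.TE
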