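import Pool.Agent.Helper87.HQ.Defs

/-!
Project TE: block sums as linear maps, translations. Definitions.
-/

open MvPolynomial Module Matrix

namespace Pool.Agent.Helper87.TE

open Pool.Agent.Hilb61 Pool.Agent.Helper87.HQ

variable {k : Type*} [Field k] {n d d1 d2 : ℕ}

lemma bsM_ll (M : Matrix (Fin d1) (Fin d1) k) (N : Matrix (Fin d2) (Fin d2) k)
    (a b : Fin d1) : bsM M N (Fin.castAdd d2 a) (Fin.castAdd d2 b) = M a b := by
  simp [bsM]

lemma bsM_lr (M : Matrix (Fin d1) (Fin d1) k) (N : Matrix (Fin d2) (Fin d2) k)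
    (a : Fin d1) (b : Fin d2) : bsM M N (Fin.castAdd d2 a) (Fin.natAdd d1 b) = 0 := by
  simp [bsM]

lemma bsM_rl (M : Matrix (Fin d1) (Fin d1) k) (N : Matrix (Fin d2) (Fin d2) k)
    (a : Fin d2) (b : Fin d1) : bsM M N (Fin.natAdd d1 a) (Fin.castAdd d2 b) = 0 := by
  simp [bsM]

lemma bsM_rr (M : Matrix (Fin d1) (Fin d1) k) (N : Matrix (Fin d2) (Fin d2) k)
    (a b : Fin d2) : bsM M N (Fin.natAdd d1 a) (Fin.natAdd d1 b) = N a b := by
  simp [bsM]

lemma bsM_mul (M M' : Matrix (Fin d1) (Fin d1) k) (N N' : Matrix (Fin d2) (Fin d2) k) :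
    bsM M N * bsM M' N' = bsM (M * M') (N * N') := by
  simp only [bsM, Matrix.reindex_apply]
  rw [Matrix.submatrix_mul_equiv, Matrix.fromBlocks_multiply]
  simp

lemma bsM_one : bsM (1 : Matrix (Fin d1) (Fin d1) k) (1 : Matrix (Fin d2) (Fin d2) k) =
    1 := by
  simp only [bsM, Matrix.reindex_apply]
  rw [Matrix.fromBlocks_one, Matrix.submatrix_one_equiv]

lemma mats_bs (c1 : Coord n d1 → k) (c2 : Coord n d2 → k) (i : Fin n) :
    mats (bs c1 c2) i = bsM (mats c1 i) (mats c2 i) := rfl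

lemma vect_bs_l (c1 : Coord n d1 → k) (c2 : Coord n d2 → k) (a : Fin d1) :
    vect (bs c1 c2) (Fin.castAdd d2 a) = vect c1 a := by
  show Sum.elim (vect c1) (vect c2) (finSumFinEquiv.symm (Fin.castAdd d2 a)) = _
  rw [finSumFinEquiv_symm_apply_castAdd, Sum.elim_inl]

lemma vect_bs_r (c1 : Coord n d1 → k) (c2 : Coord n d2 → k) (a : Fin d2) :
    vect (bs c1 c2) (Fin.natAdd d1 a) = vect c2 a := by
  show Sum.elim (vect c1) (vect c2) (finSumFinEquiv.symm (Fin.natAdd d1 a)) = _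
  rw [finSumFinEquiv_symm_apply_natAdd, Sum.elim_inr]

/-- The block sum as a linear map on pairs. -/
def bsP (k : Type*) [Field k] (n d1 d2 : ℕ) :
    ((Coord n d1 → k) × (Coord n d2 → k)) →ₗ[k] (Coord n (d1 + d2) → k) where
  toFun p := bs p.1 p.2
  map_add' p q := by
    funext x
    rcases x with ⟨i, r, s⟩ | r
    · show bsM (mats (p.1 + q.1) i) (mats (p.2 + q.2) i) r s =
        bsM (mats p.1 i) (mats p.2 i) r s + bsM (mats q.1 i) (mats q.2 i) r s
      refine Fin.addCases (fun a => ?_) (fun a => ?_) r <;>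
        refine Fin.addCases (fun b => ?_) (fun b => ?_) s
      · rw [bsM_ll, bsM_ll, bsM_ll]; rfl
      · rw [bsM_lr, bsM_lr, bsM_lr, add_zero]
      · rw [bsM_rl, bsM_rl, bsM_rl, add_zero]
      · rw [bsM_rr, bsM_rr, bsM_rr]; rfl
    · show vect (bs (p.1 + q.1) (p.2 + q.2)) r = vect (bs p.1 p.2) r + vect (bs q.1 q.2) r
      refine Fin.addCases (fun a => ?_) (fun a => ?_) r
      · rw [vect_bs_l, vect_bs_l, vect_bs_l]; rfl
      · rw [vect_bs_r, vect_bs_r, vect_bs_r]; rfl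
  map_smul' t p := by
    funext x
    rcases x with ⟨i, r, s⟩ | r
    · show bsM (mats (t • p.1) i) (mats (t • p.2) i) r s =
        t * bsM (mats p.1 i) (mats p.2 i) r s
      refine Fin.addCases (fun a => ?_) (fun a => ?_) r <;>
        refine Fin.addCases (fun b => ?_) (fun b => ?_) s
      · rw [bsM_ll, bsM_ll]; rfl
      · rw [bsM_lr, bsM_lr, mul_zero]
      · rw [bsM_rl, bsM_rl, mul_zero]
      · rw [bsM_rr, bsM_rr]; rfl
    · show vect (bs (t • p.1) (t • p.2)) r = t * vect (bs p.1 p.2) r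
      refine Fin.addCases (fun a => ?_) (fun a => ?_) r
      · rw [vect_bs_l, vect_bs_l]; rfl
      · rw [vect_bs_r, vect_bs_r]; rfl

lemma bsP_apply (c1 : Coord n d1 → k) (c2 : Coord n d2 → k) :
    bsP k n d1 d2 (c1, c2) = bs c1 c2 := rfl

/-- Translation of the coordinate `i0` by `q`. -/
def shf (k : Type*) [Field k] (n d : ℕ) (i0 : Fin n) (q : k) : Coord n d → k :=
  mk (fun i => if i = i0 then q • (1 : Matrix (Fin d) (Fin d) k) else 0) 0

end Pool.Agent.Helper87.TE
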