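import Pool.Agent.Helper87.TE.BsDefs

/-!
TE-BsZ. Block sums of smoothable framed tuples are smoothable. PROOF. `Rset`, `Zset`, `tanR`,
`affine_push`: Helper61/HilbFr.lean; the model is `addL_Rset`, `addL_curve`,
`addL_Zset_of_Rset`, `addL_push` in Helper61/HilbAdd.lean. (1) `c1 ∈ Rset` with points `p1`,
matrix `U1`, `c2 ∈ Rset` with `p2`, `U2`, and `p1 a ≠ p2 b` for all `a, b`: `bs c1 c2 ∈ Rset`
with the points `Fin.append p1 p2` and the matrix `bsM U1 U2` (`bsM_mul`, `bsM_one`).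
(2) `c1, c2 ∈ Rset`: the curve `t ↦ bs (c1 + t shf i0 1) c2` (affine in `t`) is in `Rset` for all
but finitely many `t` (points `p1 a + t e_{i0}`; `c1 + shf i0 t ∈ Rset` with the same `U1`), so
`bs c1 c2 ∈ Zset` by `Zset_of_curve`. (3) `affine_push` for `c1 ↦ bs c1 0 + bs 0 c2`
(`bsP` is linear) with `c2 ∈ Rset` fixed, then for `c2 ↦ bs 0 c2 + bs c1 0` with `c1 ∈ Zset`
fixed: membership for all `c1, c2 ∈ Zset`. (4) tangent vectors: for `c2 ∈ Zset` fixed,
`affine_push` in the first variable gives `bs w1 0 ∈ tanR (bs c1 c2)`, symmetrically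
`bs 0 w2 ∈ tanR (bs c1 c2)`; add.
-/

open MvPolynomial Module Matrix

namespace Pool.Agent.Helper87.TE

open Pool.Agent.Hilb61 Pool.Agent.Helper87.HQ

universe u

variable {k : Type u} [Field k] {n d1 d2 : ℕ}

private lemma bsM_mulVec_l (M : Matrix (Fin d1) (Fin d1) k) (N : Matrix (Fin d2) (Fin d2) k)
    (c1 : Coord n d1 → k) (c2 : Coord n d2 → k) (a : Fin d1) :
    (bsM M N *ᵥ vect (bs c1 c2)) (Fin.castAdd d2 a) = (M *ᵥ vect c1) a := by
  rw [mulVec, dotProduct, Fin.sum_univ_add]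
  simp only [bsM_ll, bsM_lr, vect_bs_l, zero_mul, Finset.sum_const_zero, add_zero]
  rfl

private lemma bsM_mulVec_r (M : Matrix (Fin d1) (Fin d1) k) (N : Matrix (Fin d2) (Fin d2) k)
    (c1 : Coord n d1 → k) (c2 : Coord n d2 → k) (a : Fin d2) :
    (bsM M N *ᵥ vect (bs c1 c2)) (Fin.natAdd d1 a) = (N *ᵥ vect c2) a := by
  rw [mulVec, dotProduct, Fin.sum_univ_add]
  simp only [bsM_rl, bsM_rr, vect_bs_r, zero_mul, Finset.sum_const_zero, zero_add]
  rfl

private lemma bs_Rset {c1 : Coord n d1 → k} {p1 : Fin d1 → Fin n → k}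
    (hp1 : Function.Injective p1) {U1 U1' : Matrix (Fin d1) (Fin d1) k} (hU1 : U1 * U1' = 1)
    (h11 : ∀ a i s, p1 a i * U1 a s = (U1 * mats c1 i) a s) (h12 : ∀ a, (U1 *ᵥ vect c1) a = 1)
    {c2 : Coord n d2 → k} {p2 : Fin d2 → Fin n → k} (hp2 : Function.Injective p2)
    {U2 U2' : Matrix (Fin d2) (Fin d2) k} (hU2 : U2 * U2' = 1)
    (h21 : ∀ a i s, p2 a i * U2 a s = (U2 * mats c2 i) a s) (h22 : ∀ a, (U2 *ᵥ vect c2) a = 1)
    (hne : ∀ a b, p1 a ≠ p2 b) : bs c1 c2 ∈ Rset k n (d1 + d2) := by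
  refine ⟨Fin.append p1 p2, ?_, bsM U1 U2, bsM U1' U2', ?_, ?_, ?_⟩
  · intro a b
    refine Fin.addCases (fun a' => ?_) (fun a' => ?_) a <;>
      refine Fin.addCases (fun b' => ?_) (fun b' => ?_) b
    · intro h
      rw [Fin.append_left, Fin.append_left] at h
      rw [hp1 h]
    · intro h
      rw [Fin.append_left, Fin.append_right] at h
      exact absurd h (hne a' b')
    · intro h
      rw [Fin.append_left, Fin.append_right] at h
      exact absurd h.symm (hne b' a')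
    · intro h
      rw [Fin.append_right, Fin.append_right] at h
      rw [hp2 h]
  · rw [bsM_mul, hU1, hU2, bsM_one]
  · intro a i s
    rw [mats_bs, bsM_mul]
    refine Fin.addCases (fun a' => ?_) (fun a' => ?_) a <;>
      refine Fin.addCases (fun s' => ?_) (fun s' => ?_) s
    · rw [bsM_ll, bsM_ll, Fin.append_left]
      exact h11 a' i s'
    · rw [bsM_lr, bsM_lr, mul_zero]
    · rw [bsM_rl, bsM_rl, mul_zero]
    · rw [bsM_rr, bsM_rr, Fin.append_right]
      exact h21 a' i s'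
  · intro a
    refine Fin.addCases (fun a' => ?_) (fun a' => ?_) a
    · rw [bsM_mulVec_l]
      exact h12 a'
    · rw [bsM_mulVec_r]
      exact h22 a'

private lemma bs_curve (c1 s1 : Coord n d1 → k) (c2 : Coord n d2 → k) (t : k) :
    (fun x => (Polynomial.C (bs c1 c2 x) +
      Polynomial.X * Polynomial.C (bs s1 (0 : Coord n d2 → k) x)).eval t) =
      bs (c1 + t • s1) c2 := by
  have h1 : bs (c1 + t • s1) c2 = bs c1 c2 + t • bs s1 (0 : Coord n d2 → k) := by
    rw [← bsP_apply, ← bsP_apply, ← bsP_apply, ← map_smul, ← map_add]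
    congr 1
    simp
  rw [h1]
  funext x
  simp only [Polynomial.eval_add, Polynomial.eval_C, Polynomial.eval_mul, Polynomial.eval_X,
    Pi.add_apply, Pi.smul_apply, smul_eq_mul]

private lemma mats_shift (c : Coord n d1 → k) (i0 i : Fin n) (t : k) :
    mats (c + t • shf k n d1 i0 1) i =
      mats c i + (if i = i0 then t else 0) • (1 : Matrix (Fin d1) (Fin d1) k) := by
  have h : mats (c + t • shf k n d1 i0 1) i = mats c i + t • mats (shf k n d1 i0 1) i := rfl
  rw [h, shf, mats_mk]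
  split_ifs <;> simp

private lemma vect_shift (c : Coord n d1 → k) (i0 : Fin n) (t : k) :
    vect (c + t • shf k n d1 i0 1) = vect c := by
  have h : vect (c + t • shf k n d1 i0 1) = vect c + t • vect (shf k n d1 i0 1) := rfl
  rw [h, shf, vect_mk]
  simp

private lemma bs_Zset_of_Rset [Infinite k] (i0 : Fin n) {c1 : Coord n d1 → k}
    (h1 : c1 ∈ Rset k n d1) {c2 : Coord n d2 → k} (h2 : c2 ∈ Rset k n d2) :
    bs c1 c2 ∈ Zset k n (d1 + d2) := by
  obtain ⟨p1, hp1, U1, U1', hU1, h11, h12⟩ := h1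
  obtain ⟨p2, hp2, U2, U2', hU2, h21, h22⟩ := h2
  have h := Zset_of_curve (fun x => Polynomial.C (bs c1 c2 x) +
      Polynomial.X * Polynomial.C (bs (shf k n d1 i0 1) (0 : Coord n d2 → k) x)) (by
    have h3 : ∀ᶠ t : k in Filter.cofinite, ∀ a : Fin d1, ∀ b : Fin d2,
        t ≠ p2 b i0 - p1 a i0 :=
      Filter.eventually_all.mpr fun a => Filter.eventually_all.mpr fun b =>
        Filter.eventually_cofinite_ne _
    filter_upwards [h3] with t ht
    rw [bs_curve]
    apply Rset_subset_Zset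
    refine bs_Rset (p1 := fun a => p1 a + t • Pi.single i0 1) ?_ hU1 ?_ ?_ hp2 hU2 h21 h22 ?_
    · intro a b hab
      exact hp1 (add_right_cancel hab)
    · intro a i s
      rw [mats_shift, Matrix.mul_add, Matrix.mul_smul, Matrix.mul_one, Matrix.add_apply,
        Matrix.smul_apply, ← h11, smul_eq_mul, ← add_mul]
      congr 1
      rw [Pi.add_apply, Pi.smul_apply, Pi.single_apply, smul_eq_mul, mul_ite, mul_one, mul_zero]
    · intro a
      rw [vect_shift]
      exact h12 a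
    · intro a b hab
      apply ht a b
      have h4 := congrFun hab i0
      rw [← h4]
      simp) 0
  rw [bs_curve] at h
  simpa using h

private lemma push1 [Infinite k] (c2 : Coord n d2 → k)
    (h : ∀ c ∈ Rset k n d1, bs c c2 ∈ Zset k n (d1 + d2)) :
    (∀ c ∈ Zset k n d1, bs c c2 ∈ Zset k n (d1 + d2)) ∧
      ∀ c w : Coord n d1 → k, w ∈ tanR c → bs w (0 : Coord n d2 → k) ∈ tanR (bs c c2) := by
  have hL : ∀ c : Coord n d1 → k, ((bsP k n d1 d2).comp (LinearMap.inl k _ _)) c +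
      bs 0 c2 = bs c c2 := by
    intro c
    rw [LinearMap.comp_apply, LinearMap.inl_apply, ← bsP_apply, ← map_add]
    rw [← bsP_apply]
    congr 1
    simp
  have h' := affine_push ((bsP k n d1 d2).comp (LinearMap.inl k _ _)) (bs 0 c2)
    (fun c hc => by rw [hL]; exact h c hc)
  refine ⟨fun c hc => ?_, fun c w hw => ?_⟩
  · have := h'.1 c hc
    rwa [hL] at this
  · have := h'.2 c w hw
    rwa [hL] at this

private lemma push2 [Infinite k] (c1 : Coord n d1 → k)
    (h : ∀ c ∈ Rset k n d2, bs c1 c ∈ Zset k n (d1 + d2)) :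
    (∀ c ∈ Zset k n d2, bs c1 c ∈ Zset k n (d1 + d2)) ∧
      ∀ c w : Coord n d2 → k, w ∈ tanR c → bs (0 : Coord n d1 → k) w ∈ tanR (bs c1 c) := by
  have hL : ∀ c : Coord n d2 → k, ((bsP k n d1 d2).comp (LinearMap.inr k _ _)) c +
      bs c1 0 = bs c1 c := by
    intro c
    rw [LinearMap.comp_apply, LinearMap.inr_apply, ← bsP_apply, ← map_add]
    rw [← bsP_apply]
    congr 1
    simp
  have h' := affine_push ((bsP k n d1 d2).comp (LinearMap.inr k _ _)) (bs c1 0)
    (fun c hc => by rw [hL]; exact h c hc)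
  refine ⟨fun c hc => ?_, fun c w hw => ?_⟩
  · have := h'.1 c hc
    rwa [hL] at this
  · have := h'.2 c w hw
    rwa [hL] at this

theorem bs_Zset [Infinite k] (i0 : Fin n) {c1 : Coord n d1 → k} (h1 : c1 ∈ Zset k n d1)
    {c2 : Coord n d2 → k} (h2 : c2 ∈ Zset k n d2) : bs c1 c2 ∈ Zset k n (d1 + d2) :=
  (push2 c1 (fun _ hc => (push1 _ (fun _ hc' => bs_Zset_of_Rset i0 hc' hc)).1 c1 h1)).1 c2 h2

theorem bs_tanR [Infinite k] (i0 : Fin n) {c1 : Coord n d1 → k} (h1 : c1 ∈ Zset k n d1)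
    {c2 : Coord n d2 → k} (h2 : c2 ∈ Zset k n d2) {w1 : Coord n d1 → k} (hw1 : w1 ∈ tanR c1)
    {w2 : Coord n d2 → k} (hw2 : w2 ∈ tanR c2) : bs w1 w2 ∈ tanR (bs c1 c2) := by
  have e : bs w1 w2 = bs w1 (0 : Coord n d2 → k) + bs (0 : Coord n d1 → k) w2 := by
    rw [← bsP_apply, ← bsP_apply, ← bsP_apply, ← map_add]
    congr 1
    simp
  rw [e]
  exact Submodule.add_mem _
    ((push1 c2 (fun c hc => bs_Zset i0 (Rset_subset_Zset hc) h2)).2 c1 w1 hw1)
    ((push2 c1 (fun c hc => bs_Zset i0 h1 (Rset_subset_Zset hc))).2 c2 w2 hw2)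

end Pool.Agent.Helper87.TE
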