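import Pool.Agent.Helper87.TE.PsiZC
import Pool.Agent.Helper87.HQ.Rem

/-!
TE-Count. The dimension bound. PROOF. `D = tr z r Δ` is a lower set with `e` elements (`tr_low`,
`card_tr`, `NY_of_card`); `mon'` from `exists_mon` (Helper87/HQ/Rem.lean, import it; cast along
`D.card = e`). Linear map `Ψ : Hm k Δ → (Dset n r × Dset n (r-1) → k) × ZC0 mon' k`,
`f ↦ ((α, β) ↦ f (α + len α e_z) (β + (len β - 1) e_z), toZC z r f mon')` (`toZC` is linear in
`f`; `toZC_mem`). The target has dimension `multichoose r * multichoose (r-1) + finrank ZC0`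
(`card_Dset`). `Ψ` is injective; let `Ψ f = 0`. FACTS. `Δ` is a lower set; `α + t e_z ∈ Δ ↔
t < len z Δ α` (`mem_ray`). Put `g = α + len α e_z ∉ Δ` for `α ∈ Dset n r`.
(1) `psi z r f α' β' = 0` for all `β' ∈ D`, all `α' ∉ D` of the form `α' = σ + t e_z` with
`σ z = 0`, `yd z σ ≤ r`, `t` least with `α' ∉ D`: induction on `yd z σ`. If `t ≥ 1`:
`α' - e_z ∈ D`, `α' = mon' s + e_z` and `psi ..` is an entry of `toZC`. If `t = 0`: `σ ≠ 0`
(`0 ∈ D` as `1 ≤ e`), `σ = σ' + e_i`, `i ≠ z`; if `σ' ∈ D`, entry of `toZC`; if `σ' ∉ D`, it has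
the same form with `t = 0`, `yd z σ' + 1 ≤ r`, so `psi_step`, `psi_zero` and induction.
(2) `f g β = 0` for `α ∈ Dset n r`, all `β ∈ Δ`: if `β.degree + 2 ≤ r`, `deep`. If
`β + e_z ∉ Δ`: `yd z β < r`, `β = β0 + (len β0 - 1) e_z` for the `β0 ∈ Dset n (r-1)` with the same
coordinates off `z` (`β0 ∈ Δ` by `hf`), coordinate of `Ψ f`. Otherwise `β + e_z ∈ Δ` and
`β.degree ≥ r - 1`: `β = β' + (r - 1 - yd z β) e_z` with `β' ∈ D` and `g = Tα'`,
`α' = σ + t e_z` as in (1) (`σ` = part of `α` off `z`, `α = σ + (r - yd z σ) e_z`).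
(3) `f α β = 0` for all `α ∉ Δ`: induction on `yd z α` and `α z`: if `yd z α > r`, take `i ≠ z`
with `α i ≥ 1`, `α - e_i ∉ Δ` (`hy`) and use conditions 3, 4 of `Hm`. If `yd z α ≤ r`:
`α = g + t e_z` for the `g` of (2) with the same part off `z`; conditions 3, 4 of `Hm` for `e_z`.
-/

open Module Finset

namespace Pool.Agent.Helper87.TE

open Pool.Agent.Hilb61 Pool.Agent.Helper87.HQ

variable {k : Type*} [Field k] {n r e : ℕ} {Δ : Finset (Fin n →₀ ℕ)} {z : Fin n}

private theorem degree_yd_h67 (z : Fin n) (α : Fin n →₀ ℕ) : α.degree = yd z α + α z := by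
  rw [yd, Finsupp.degree_eq_sum, Finset.sum_erase_add _ _ (Finset.mem_univ z)]

private theorem yd_addz_h67 (z : Fin n) (α : Fin n →₀ ℕ) (t : ℕ) :
    yd z (α + Finsupp.single z t) = yd z α := by
  unfold yd
  refine Finset.sum_congr rfl fun i hi => ?_
  rw [Finsupp.add_apply, Finsupp.single_eq_of_ne (Finset.ne_of_mem_erase hi), add_zero]

private theorem yd_add1_h67 {z i : Fin n} (hi : i ≠ z) (α : Fin n →₀ ℕ) :
    yd z (α + Finsupp.single i 1) = yd z α + 1 := by
  have h1 := degree_yd_h67 z (α + Finsupp.single i 1)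
  have h2 := degree_yd_h67 z α
  rw [Finsupp.add_apply, Finsupp.single_eq_of_ne (Ne.symm hi), add_zero, map_add,
    Finsupp.degree_single] at h1
  omega

private theorem yd_erase_h67 (z : Fin n) (α : Fin n →₀ ℕ) : yd z (Finsupp.erase z α) = yd z α := by
  unfold yd
  exact Finset.sum_congr rfl fun i hi => Finsupp.erase_ne (Finset.ne_of_mem_erase hi)

private theorem exists_pos_h67 {z : Fin n} {α : Fin n →₀ ℕ} (h : 0 < yd z α) :
    ∃ i, i ≠ z ∧ 1 ≤ α i := by
  by_contra hcon
  push Not at hcon
  have h1 : yd z α = 0 := by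
    unfold yd
    refine Finset.sum_eq_zero fun i hi => ?_
    have := hcon i (Finset.ne_of_mem_erase hi)
    omega
  omega

private theorem exists_sub_h67 {α : Fin n →₀ ℕ} {i : Fin n} (h : 1 ≤ α i) :
    ∃ α', α = α' + Finsupp.single i 1 := by
  refine ⟨α - Finsupp.single i 1, ?_⟩
  ext j
  rw [Finsupp.add_apply, Finsupp.tsub_apply]
  by_cases hj : j = i
  · subst hj; rw [Finsupp.single_eq_same]; omega
  · rw [Finsupp.single_eq_of_ne hj]; omega

theorem mem_ray (hΔ : Low Δ) (α : Fin n →₀ ℕ) (t : ℕ) :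
    α + Finsupp.single z t ∈ Δ ↔ t < len z Δ α := by
  classical
  have hinj : Function.Injective (fun s : ℕ => α + Finsupp.single z s) := by
    intro a b h
    have := DFunLike.congr_fun h z
    simpa using this
  have hlen : len z Δ α = (Δ.filter (fun δ => ∃ t : ℕ, δ = α + Finsupp.single z t)).card := by
    rw [len]
  rw [hlen]
  constructor
  · intro h
    have h1 : (Finset.range (t+1)).image (fun s : ℕ => α + Finsupp.single z s) ⊆
        Δ.filter (fun δ => ∃ t : ℕ, δ = α + Finsupp.single z t) := by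
      intro δ hδ
      rw [Finset.mem_image] at hδ
      obtain ⟨s, hs, rfl⟩ := hδ
      rw [Finset.mem_range] at hs
      rw [Finset.mem_filter]
      refine ⟨hΔ.le ?_ h, s, rfl⟩
      refine add_le_add le_rfl ?_
      rw [Finsupp.single_le_single]
      omega
    have h2 := Finset.card_le_card h1
    rw [Finset.card_image_of_injective _ hinj, Finset.card_range] at h2
    omega
  · intro h
    by_contra hn
    have h1 : Δ.filter (fun δ => ∃ t : ℕ, δ = α + Finsupp.single z t) ⊆
        (Finset.range t).image (fun s : ℕ => α + Finsupp.single z s) := by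
      intro δ hδ
      rw [Finset.mem_filter] at hδ
      obtain ⟨h2, s, rfl⟩ := hδ
      rw [Finset.mem_image]
      refine ⟨s, ?_, rfl⟩
      rw [Finset.mem_range]
      by_contra hs
      apply hn
      refine hΔ.le ?_ h2
      refine add_le_add le_rfl ?_
      rw [Finsupp.single_le_single]
      omega
    have h2 := Finset.card_le_card h1
    rw [Finset.card_image_of_injective _ hinj, Finset.card_range] at h2
    omega

/-- Step (1). -/
private theorem step1_h67 (hn : 3 ≤ n) (hΔ : Stable Δ) (hz : ∀ i, i ≤ z) (hf : Full r Δ)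
    (hy : NY z r Δ) {f : (Fin n →₀ ℕ) → (Fin n →₀ ℕ) → k} (h : f ∈ Hm k Δ)
    {mon' : Fin e → (Fin n →₀ ℕ)} (hD : Dlt mon' = tr z r Δ) (he : 1 ≤ e)
    (h0 : toZC z r f mon' = 0) :
    ∀ m : ℕ, ∀ (σ : Fin n →₀ ℕ) (t : ℕ), yd z σ = m → σ z = 0 → m ≤ r →
      σ + Finsupp.single z t ∉ tr z r Δ → (∀ s < t, σ + Finsupp.single z s ∈ tr z r Δ) →
      ∀ β ∈ tr z r Δ, psi z r f (σ + Finsupp.single z t) β = 0 := by
  have hlow := tr_low hΔ hz hy
  have hent : ∀ (γ : Fin n →₀ ℕ) (i : Fin n), γ ∈ tr z r Δ → γ + Finsupp.single i 1 ∉ tr z r Δ →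
      ∀ β ∈ tr z r Δ, psi z r f (γ + Finsupp.single i 1) β = 0 := by
    intro γ i hγ hγi β hβ
    rw [← hD, mem_Dlt] at hγ hβ
    obtain ⟨s, rfl⟩ := hγ
    obtain ⟨u, rfl⟩ := hβ
    have h1 : toZC z r f mon' i u s = 0 := by rw [h0]; rfl
    rw [toZC, Matrix.of_apply, if_neg] at h1
    · exact h1
    · rintro ⟨t, ht⟩
      apply hγi
      rw [← hD, mem_Dlt]
      exact ⟨t, ht⟩
  have hzero : (0 : Fin n →₀ ℕ) ∈ tr z r Δ := by
    have h1 : mon' ⟨0, he⟩ ∈ tr z r Δ := by rw [← hD, mem_Dlt]; exact ⟨_, rfl⟩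
    exact hlow.le zero_le h1
  intro m
  induction m with
  | zero =>
    intro σ t hσ hσz _ ht1 ht2 β hβ
    have hσ0 : σ = 0 := by
      have h1 := degree_yd_h67 z σ
      rw [hσ, hσz] at h1
      exact (Finsupp.degree_eq_zero_iff σ).1 h1
    subst hσ0
    cases t with
    | zero => exact absurd (by simpa using hzero) ht1
    | succ t =>
      have h1 := ht2 t (Nat.lt_succ_self t)
      rw [Finsupp.single_add, ← add_assoc] at ht1 ⊢
      exact hent _ z h1 ht1 β hβ
  | succ m ih =>
    intro σ t hσ hσz hm ht1 ht2 β hβ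
    cases t with
    | succ t =>
      have h1 := ht2 t (Nat.lt_succ_self t)
      rw [Finsupp.single_add, ← add_assoc] at ht1 ⊢
      exact hent _ z h1 ht1 β hβ
    | zero =>
      rw [Finsupp.single_zero, add_zero] at ht1 ⊢
      obtain ⟨i, hi, hi1⟩ := exists_pos_h67 (z := z) (α := σ) (by omega)
      obtain ⟨σ', rfl⟩ := exists_sub_h67 hi1
      rw [yd_add1_h67 hi] at hσ
      by_cases hσ' : σ' ∈ tr z r Δ
      · exact hent _ i hσ' ht1 β hβ
      · have hσz' : σ' z = 0 := by
          rw [Finsupp.add_apply] at hσz; omega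
        have ih' : ∀ β ∈ tr z r Δ, psi z r f σ' β = 0 := by
          intro β hβ
          have h1 := ih σ' 0 (by omega) hσz' (by omega) (by
            rw [Finsupp.single_zero, add_zero]; exact hσ')
            (fun s hs => absurd hs (Nat.not_lt_zero s)) β hβ
          rwa [Finsupp.single_zero, add_zero] at h1
        by_cases hβi : β i = 0
        · exact psi_zero hn hΔ hz hf hy h σ' β i hσ' (by omega) hβ hβi
        · obtain ⟨β', rfl⟩ := exists_sub_h67 (i := i) (α := β) (by omega)
          rw [psi_step hΔ hz hy h σ' β' i hσ' (by omega) hβ]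
          exact ih' β' (hlow _ _ hβ)

/-- Steps (2) and (3). -/
private theorem inj_h67 (hn : 3 ≤ n) (hΔ : Stable Δ) (hz : ∀ i, i ≤ z) (hr : 1 ≤ r)
    (hf : Full r Δ) (hy : NY z r Δ) {f : (Fin n →₀ ℕ) → (Fin n →₀ ℕ) → k} (h : f ∈ Hm k Δ)
    {mon' : Fin e → (Fin n →₀ ℕ)} (hD : Dlt mon' = tr z r Δ) (he : 1 ≤ e)
    (h0 : toZC z r f mon' = 0)
    (hA : ∀ α ∈ Dset n r, ∀ β ∈ Dset n (r-1), f (α + Finsupp.single z (len z Δ α))
      (β + Finsupp.single z (len z Δ β - 1)) = 0) : f = 0 := by
  have hL : Low Δ := fun b i hb => (hΔ b i hb).1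
  obtain ⟨c1, c2, c3, c4⟩ := h
  have hm : f ∈ Hm k Δ := ⟨c1, c2, c3, c4⟩
  -- step (2)
  have h2 : ∀ α ∈ Dset n r, ∀ β, f (α + Finsupp.single z (len z Δ α)) β = 0 := by
    intro α hα β
    rw [mem_Dset] at hα
    have hg : α + Finsupp.single z (len z Δ α) ∉ Δ := by
      rw [mem_ray hL]; exact lt_irrefl _
    have hαd := degree_yd_h67 z α
    by_cases hβ : β ∈ Δ
    swap
    · exact c2 _ _ hβ
    by_cases hd : β.degree + 2 ≤ r
    · exact deep hn hΔ hz hf hy hm _ β hg (by rw [yd_addz_h67]; omega) hd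
    have hβd := degree_yd_h67 z β
    have hβy := hy β hβ
    obtain ⟨s, hs⟩ : ∃ s, β z = s + (r - 1 - yd z β) := ⟨β z - (r - 1 - yd z β), by omega⟩
    have hβe : Finsupp.erase z β + Finsupp.single z (β z) = β := Finsupp.erase_add_single z β
    by_cases hβ2 : β + Finsupp.single z 1 ∈ Δ
    · -- in the transform
      obtain ⟨β', hβ'⟩ : ∃ β', β' = Finsupp.erase z β + Finsupp.single z s := ⟨_, rfl⟩
      have hydβ' : yd z β' = yd z β := by rw [hβ', yd_addz_h67, yd_erase_h67]
      have e1 : β' + Finsupp.single z (r - 1 - yd z β') = β := by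
        rw [hydβ', hβ', add_assoc, ← Finsupp.single_add, ← hs, hβe]
      have e2 : β' + Finsupp.single z (r - yd z β') = β + Finsupp.single z 1 := by
        conv_rhs => rw [← e1]
        rw [add_assoc, ← Finsupp.single_add]
        congr 2
        omega
      have hβ'D : β' ∈ tr z r Δ := by
        rw [mem_tr, e2]
        refine ⟨hL.le ?_ hβ2, hβ2⟩
        rw [← e2]
        exact le_self_add
      have hαe : Finsupp.erase z α + Finsupp.single z (α z) = α := Finsupp.erase_add_single z α
      have hσy : yd z (Finsupp.erase z α) = yd z α := yd_erase_h67 z α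
      have e3 : ∀ t, Finsupp.erase z α + Finsupp.single z t + Finsupp.single z (r - yd z α) =
          α + Finsupp.single z t := by
        intro t
        conv_rhs => rw [← hαe]
        rw [add_assoc, add_assoc, ← Finsupp.single_add, ← Finsupp.single_add]
        congr 2
        omega
      have hkey : ∀ t, Finsupp.erase z α + Finsupp.single z t ∈ tr z r Δ ↔ t < len z Δ α := by
        intro t
        rw [mem_tr, yd_addz_h67, hσy, e3]
        constructor
        · intro h3
          exact (mem_ray hL α t).1 h3.2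
        · intro h3
          have h4 := (mem_ray hL α t).2 h3
          refine ⟨?_, h4⟩
          rw [← e3] at h4
          exact hL.le le_self_add h4
      have h3 := step1_h67 hn hΔ hz hf hy hm hD he h0 (yd z (Finsupp.erase z α))
        (Finsupp.erase z α) (len z Δ α) rfl Finsupp.erase_same (by omega)
        (by rw [hkey]; exact lt_irrefl _) (fun s hs => (hkey s).2 hs) β' hβ'D
      rw [psi, e1, yd_addz_h67, hσy] at h3
      have e4 := e3 (len z Δ α)
      rw [e4] at h3
      exact h3
    · -- top of a ray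
      obtain ⟨β0, hβ0⟩ : ∃ β0, β0 = Finsupp.erase z β + Finsupp.single z (r - 1 - yd z β) :=
        ⟨_, rfl⟩
      have hydβ0 : yd z β0 = yd z β := by rw [hβ0, yd_addz_h67, yd_erase_h67]
      have hdeg : β0.degree = r - 1 := by
        rw [degree_yd_h67 z β0, hydβ0, hβ0, Finsupp.add_apply, Finsupp.erase_same,
          Finsupp.single_eq_same]
        omega
      have e1 : ∀ t, β0 + Finsupp.single z (s + t) = β + Finsupp.single z t := by
        intro t
        conv_rhs => rw [← hβe]
        rw [hβ0, add_assoc, add_assoc, ← Finsupp.single_add, ← Finsupp.single_add]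
        congr 2
        omega
      have h3 : s < len z Δ β0 := by
        rw [← mem_ray hL]
        have := e1 0
        rw [add_zero, Finsupp.single_zero, add_zero] at this
        rw [this]; exact hβ
      have h4 : ¬ (s + 1 < len z Δ β0) := by
        rw [← mem_ray hL, e1 1]
        exact hβ2
      have h5 := hA α (mem_Dset.2 hα) β0 (mem_Dset.2 hdeg)
      have e2 : len z Δ β0 - 1 = s := by omega
      have e3 := e1 0
      rw [add_zero, Finsupp.single_zero, add_zero] at e3
      rw [e2, e3] at h5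
      exact h5
  -- step (3)
  have h3 : ∀ t : ℕ, ∀ α ∈ Dset n r, ∀ β,
      f (α + Finsupp.single z (len z Δ α) + Finsupp.single z t) β = 0 := by
    intro t
    induction t with
    | zero =>
      intro α hα β
      rw [Finsupp.single_zero, add_zero]
      exact h2 α hα β
    | succ t ih =>
      intro α hα β
      have hg : α + Finsupp.single z (len z Δ α) + Finsupp.single z t ∉ Δ := by
        rw [add_assoc, ← Finsupp.single_add, mem_ray hL]
        omega
      rw [Finsupp.single_add, ← add_assoc]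
      by_cases hβz : β z = 0
      · exact c4 _ β z hg hβz
      · obtain ⟨β', rfl⟩ := exists_sub_h67 (i := z) (α := β) (by omega)
        by_cases hβ : β' + Finsupp.single z 1 ∈ Δ
        · rw [c3 _ β' z hg hβ]
          exact ih α hα β'
        · exact c2 _ _ hβ
  have h4 : ∀ m : ℕ, ∀ α, α ∉ Δ → yd z α = m + r → ∀ β, f α β = 0 := by
    intro m
    induction m with
    | zero =>
      intro α hα hyα β
      rw [zero_add] at hyα
      -- the exponent without the z part
      have hαe : Finsupp.erase z α + Finsupp.single z (α z) = α := Finsupp.erase_add_single z α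
      have hdeg : (Finsupp.erase z α).degree = r := by
        rw [degree_yd_h67 z, yd_erase_h67, Finsupp.erase_same]; omega
      have h5 : ¬ α z < len z Δ (Finsupp.erase z α) := by
        rw [← mem_ray hL, hαe]; exact hα
      have h6 := h3 (α z - len z Δ (Finsupp.erase z α)) (Finsupp.erase z α) (mem_Dset.2 hdeg) β
      rw [add_assoc, ← Finsupp.single_add, Nat.add_sub_cancel' (by omega), hαe] at h6
      exact h6
    | succ m ih =>
      intro α hα hyα β
      obtain ⟨i, hi, hi1⟩ := exists_pos_h67 (z := z) (α := α) (by omega)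
      obtain ⟨α', rfl⟩ := exists_sub_h67 hi1
      rw [yd_add1_h67 hi] at hyα
      have hα' : α' ∉ Δ := by
        intro hcon
        have := hy α' hcon
        omega
      by_cases hβi : β i = 0
      · exact c4 _ β i hα' hβi
      · obtain ⟨β', rfl⟩ := exists_sub_h67 (i := i) (α := β) (by omega)
        by_cases hβ : β' + Finsupp.single i 1 ∈ Δ
        · rw [c3 _ β' i hα' hβ]
          exact ih α' hα' (by omega) β'
        · exact c2 _ _ hβ
  funext α β
  by_cases hα : α ∈ Δ
  · exact c1 α β hα
  by_cases hyα : r ≤ yd z α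
  · exact h4 (yd z α - r) α hα (by omega) β
  · -- yd z α < r
    have hαe : Finsupp.erase z α + Finsupp.single z (α z) = α := Finsupp.erase_add_single z α
    have hd := degree_yd_h67 z α
    have hge : r ≤ α.degree := by
      by_contra hcon
      exact hα (hf α (by omega))
    obtain ⟨α0, hα0⟩ : ∃ α0, α0 = Finsupp.erase z α + Finsupp.single z (r - yd z α) := ⟨_, rfl⟩
    have hdeg : α0.degree = r := by
      rw [degree_yd_h67 z, hα0, yd_addz_h67, yd_erase_h67, Finsupp.add_apply, Finsupp.erase_same,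
        Finsupp.single_eq_same]
      omega
    have e1 : α0 + Finsupp.single z (α z - (r - yd z α)) = α := by
      conv_rhs => rw [← hαe]
      rw [hα0, add_assoc, ← Finsupp.single_add]
      congr 2
      omega
    have h5 : ¬ (α z - (r - yd z α)) < len z Δ α0 := by
      rw [← mem_ray hL, e1]; exact hα
    have h6 := h3 (α z - (r - yd z α) - len z Δ α0) α0 (mem_Dset.2 hdeg) β
    rw [add_assoc, ← Finsupp.single_add, Nat.add_sub_cancel' (by omega), e1] at h6
    exact h6

theorem finrank_Hm_le (k : Type*) [Field k] (hn : 3 ≤ n) (hΔ : Stable Δ) (hr : 1 ≤ r)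
    (hf : Full r Δ) (hc : Δ.card = Dn n r + e) (he : 1 ≤ e) (her : e ≤ r) :
    ∃ mon' : Fin e → (Fin n →₀ ℕ), IsOrd mon' ∧
      finrank k (Hm k Δ) ≤ n.multichoose r * n.multichoose (r - 1) +
        finrank k (HChar.ZC0 mon' k) := by
  obtain ⟨z, hz⟩ : ∃ z : Fin n, ∀ i, i ≤ z := by
    refine ⟨⟨n - 1, by omega⟩, fun i => ?_⟩
    rw [Fin.le_def]
    have := i.2
    simp only
    omega
  have hy : NY z r Δ := NY_of_card hΔ hz hr hf (by omega)
  have hlow := tr_low hΔ hz hy
  have hcard : (tr z r Δ).card = e := by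
    have := card_tr (z := z) hΔ hr hf hy
    omega
  obtain ⟨mon', h', hD⟩ : ∃ mon' : Fin e → (Fin n →₀ ℕ), IsOrd mon' ∧ Dlt mon' = tr z r Δ := by
    obtain ⟨mon, h1, h2⟩ := exists_mon hlow
    subst hcard
    exact ⟨mon, h1, h2⟩
  refine ⟨mon', h', ?_⟩
  let A : Hm k Δ →ₗ[k] (Dset n r × Dset n (r-1) → k) :=
    { toFun := fun f p => f.1 (p.1.1 + Finsupp.single z (len z Δ p.1.1))
        (p.2.1 + Finsupp.single z (len z Δ p.2.1 - 1))
      map_add' := fun f g => rfl
      map_smul' := fun c f => rfl }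
  let B : Hm k Δ →ₗ[k] HChar.ZC0 mon' k :=
    { toFun := fun f => ⟨toZC z r f.1 mon', toZC_mem hn hΔ hz hf hy f.2 h' hD her⟩
      map_add' := by
        intro f g
        apply Subtype.ext
        funext j
        ext u s
        change toZC z r (f.1 + g.1) mon' j u s = toZC z r f.1 mon' j u s + toZC z r g.1 mon' j u s
        unfold toZC
        simp only [Matrix.of_apply]
        split_ifs
        · rw [add_zero]
        · rfl
      map_smul' := by
        intro c f
        apply Subtype.ext
        funext j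
        ext u s
        change toZC z r (c • f.1) mon' j u s = c • toZC z r f.1 mon' j u s
        unfold toZC
        simp only [Matrix.of_apply]
        split_ifs
        · rw [smul_zero]
        · rfl }
  have hinj : Function.Injective (A.prod B) := by
    rw [injective_iff_map_eq_zero]
    intro f hf0
    have hA0 : A f = 0 := congrArg Prod.fst hf0
    have hB0 : B f = 0 := congrArg Prod.snd hf0
    apply Subtype.ext
    refine inj_h67 hn hΔ hz hr hf hy f.2 hD he ?_ ?_
    · exact congrArg Subtype.val hB0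
    · intro α hα β hβ
      exact congrFun hA0 (⟨α, hα⟩, ⟨β, hβ⟩)
  have h1 := LinearMap.finrank_le_finrank_of_injective hinj
  rw [Module.finrank_prod, Module.finrank_fintype_fun_eq_card, Fintype.card_prod,
    Fintype.card_coe, Fintype.card_coe, card_Dset, card_Dset] at h1
  exact h1

end Pool.Agent.Helper87.TE
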