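import Pool.Agent.Helper87.TE.Defs

/-!
TE-Deep. The coefficients of degree at most `r - 2` vanish. PROOF. `Δ` is a lower set (`hΔ`).
Write `P1 : f (α+e_i) (β+e_i) = f α β` if `α ∉ Δ`, `β + e_i ∈ Δ`, and `P2 : f (α+e_i) β = 0` if
`α ∉ Δ`, `β i = 0` (the conditions of `Hm`). Every exponent of degree `< r` is in `Δ` (`hf`).
(Z1) `α z = 0`, `α.degree = r`, `β.degree + 2 ≤ r` imply `f α β = 0`: there is `i ≠ z` with
`β i < α i` (otherwise `r = ∑_{i ≠ z} α i ≤ β.degree`). Induction on `β i` with `i` fixed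
(`β i < α i`): choose `l ≠ i, z` (`3 ≤ n`). `f α β = f (α+e_l) (β+e_l)` (P1; `α ∉ Δ` by `hy`,
since `yd z α = r`; `β + e_l ∈ Δ` by degree). `α' = α + e_l - e_i` has `α' z = 0`, degree `r`, so
`yd z α' = r` and `α' ∉ Δ`; `α + e_l = α' + e_i`. If `β i = 0`: P2 with `(β+e_l) i = 0`. If
`β i ≥ 1`: P1 gives `f (α'+e_i) (β+e_l) = f α' (β+e_l-e_i)`, same degree of `β`,
`(β + e_l - e_i) i = β i - 1 < α' i = α i - 1`.
(Z2) general `α ∉ Δ`, `yd z α ≤ r`: induction on `r - yd z α`. If `yd z α = r`: induction on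
`α z`: `α z = 0` is (Z1) (`α.degree = yd z α + α z`); otherwise `α = α' + e_z`, `α' ∉ Δ` by `hy`;
P2 if `β z = 0`, P1 and induction if `β z ≥ 1`. If `yd z α < r`: `α z ≥ 1` (otherwise
`α.degree < r`, `α ∈ Δ`); take `l ≠ z`; `f α β = f (α+e_l) (β+e_l)`; `α + e_l = α' + e_z` with
`α' ∉ Δ` (if `α' = (α - e_z) + e_l ∈ Δ` then `hΔ (α - e_z) l _` with `l < z` gives
`(α - e_z) + e_z = α ∈ Δ`); P2 if `β z = 0`, otherwise P1: `f α' (β + e_l - e_z)`, and
`yd z α' = yd z α + 1`, degree of `β` unchanged.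
-/

open Module Finset

namespace Pool.Agent.Helper87.TE

open Pool.Agent.Hilb61 Pool.Agent.Helper87.HQ

variable {k : Type*} [Field k] {n r : ℕ} {Δ : Finset (Fin n →₀ ℕ)} {z : Fin n}

lemma dpA_deg_add (α : Fin n →₀ ℕ) (i : Fin n) :
    (α + Finsupp.single i 1).degree = α.degree + 1 := by
  rw [map_add, Finsupp.degree_single]

lemma dpA_deg_eq (z : Fin n) (α : Fin n →₀ ℕ) : α.degree = yd z α + α z := by
  rw [Finsupp.degree_eq_sum, yd, Finset.sum_erase_add _ _ (Finset.mem_univ z)]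

lemma dpA_add_ap_ne {i j : Fin n} (h : j ≠ i) (α : Fin n →₀ ℕ) :
    (α + Finsupp.single i 1 : Fin n →₀ ℕ) j = α j := by
  rw [Finsupp.add_apply, Finsupp.single_eq_of_ne h, add_zero]

lemma dpA_add_ap_self (i : Fin n) (α : Fin n →₀ ℕ) :
    (α + Finsupp.single i 1 : Fin n →₀ ℕ) i = α i + 1 := by
  rw [Finsupp.add_apply, Finsupp.single_eq_same]

lemma dpA_yd_add_self (z : Fin n) (α : Fin n →₀ ℕ) : yd z (α + Finsupp.single z 1) = yd z α := by
  have h1 := dpA_deg_eq z (α + Finsupp.single z 1)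
  have h2 := dpA_deg_eq z α
  rw [dpA_deg_add, dpA_add_ap_self] at h1
  omega

lemma dpA_yd_add_ne {z l : Fin n} (h : l ≠ z) (α : Fin n →₀ ℕ) :
    yd z (α + Finsupp.single l 1) = yd z α + 1 := by
  have h1 := dpA_deg_eq z (α + Finsupp.single l 1)
  have h2 := dpA_deg_eq z α
  rw [dpA_deg_add, dpA_add_ap_ne h.symm] at h1
  omega

lemma dpA_exists_pred {α : Fin n →₀ ℕ} {i : Fin n} (h : 1 ≤ α i) :
    ∃ a : Fin n →₀ ℕ, α = a + Finsupp.single i 1 :=
  ⟨α - Finsupp.single i 1, (sub_add_single h).symm⟩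

lemma dpA_exists_third (hn : 3 ≤ n) (i z : Fin n) : ∃ l : Fin n, l ≠ i ∧ l ≠ z := by
  classical
  have h : (({i, z} : Finset (Fin n))ᶜ).Nonempty := by
    rw [← Finset.card_pos, Finset.card_compl, Fintype.card_fin]
    have h2 : ({i, z} : Finset (Fin n)).card ≤ 2 := Finset.card_le_two
    omega
  obtain ⟨l, hl⟩ := h
  rw [Finset.mem_compl, Finset.mem_insert, Finset.mem_singleton, not_or] at hl
  exact ⟨l, hl⟩

lemma deep_z1 (hn : 3 ≤ n) (hf : Full r Δ) (hy : NY z r Δ)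
    {f : (Fin n →₀ ℕ) → (Fin n →₀ ℕ) → k} (h : f ∈ Hm k Δ) (i : Fin n) (hiz : i ≠ z) :
    ∀ (b : ℕ) (α β : Fin n →₀ ℕ), α z = 0 → α.degree = r → β.degree + 2 ≤ r → β i = b →
      b < α i → f α β = 0 := by
  obtain ⟨h1, h2, h3, h4⟩ := h
  obtain ⟨l, hli, hlz⟩ := dpA_exists_third hn i z
  have hnot : ∀ α : Fin n →₀ ℕ, α z = 0 → α.degree = r → α ∉ Δ := by
    intro α hz0 hd hmem
    have h5 := hy α hmem
    have h6 := dpA_deg_eq z α
    omega
  intro b
  induction b with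
  | zero =>
    intro α β hz0 hd hβ hb hlt
    obtain ⟨a, rfl⟩ := dpA_exists_pred (α := α) (i := i) (by omega)
    have hmem : β + Finsupp.single l 1 ∈ Δ := hf _ (by rw [dpA_deg_add]; omega)
    rw [← h3 _ β l (hnot _ hz0 hd) hmem, add_right_comm]
    refine h4 _ _ i (hnot _ ?_ ?_) ?_
    · rw [dpA_add_ap_ne hlz.symm]
      rw [dpA_add_ap_ne hiz.symm] at hz0
      exact hz0
    · rw [dpA_deg_add] at hd ⊢
      exact hd
    · rw [dpA_add_ap_ne hli.symm]
      exact hb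
  | succ b ih =>
    intro α β hz0 hd hβ hb hlt
    obtain ⟨a, rfl⟩ := dpA_exists_pred (α := α) (i := i) (by omega)
    obtain ⟨c, rfl⟩ := dpA_exists_pred (α := β) (i := i) (by omega)
    have hmem : c + Finsupp.single i 1 + Finsupp.single l 1 ∈ Δ :=
      hf _ (by rw [dpA_deg_add]; omega)
    have ha0 : (a + Finsupp.single l 1 : Fin n →₀ ℕ) z = 0 := by
      rw [dpA_add_ap_ne hlz.symm]
      rw [dpA_add_ap_ne hiz.symm] at hz0
      exact hz0
    have had : (a + Finsupp.single l 1).degree = r := by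
      rw [dpA_deg_add] at hd ⊢
      exact hd
    rw [← h3 _ _ l (hnot _ hz0 hd) hmem, add_right_comm a, add_right_comm c]
    rw [h3 _ _ i (hnot _ ha0 had) (by rw [add_right_comm]; exact hmem)]
    refine ih _ _ ha0 had ?_ ?_ ?_
    · rw [dpA_deg_add] at hβ ⊢
      exact hβ
    · rw [dpA_add_ap_ne hli.symm]
      rw [dpA_add_ap_self] at hb
      omega
    · rw [dpA_add_ap_ne hli.symm]
      rw [dpA_add_ap_self] at hlt
      omega

lemma deep_top (hn : 3 ≤ n) (hf : Full r Δ) (hy : NY z r Δ)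
    {f : (Fin n →₀ ℕ) → (Fin n →₀ ℕ) → k} (h : f ∈ Hm k Δ) :
    ∀ (m : ℕ) (α β : Fin n →₀ ℕ), α z = m → yd z α = r → β.degree + 2 ≤ r → f α β = 0 := by
  have hH := h
  obtain ⟨h1, h2, h3, h4⟩ := h
  have hnot : ∀ α : Fin n →₀ ℕ, yd z α = r → α ∉ Δ := by
    intro α hd hmem
    have h5 := hy α hmem
    omega
  intro m
  induction m with
  | zero =>
    intro α β hz0 hd hβ
    have hd' : α.degree = r := by rw [dpA_deg_eq z α, hz0, hd, add_zero]
    have hex : ∃ i, i ≠ z ∧ β i < α i := by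
      by_contra hcon
      push Not at hcon
      have h5 : yd z α ≤ yd z β := by
        rw [yd, yd]
        apply Finset.sum_le_sum
        intro i hi
        exact hcon i (Finset.ne_of_mem_erase hi)
      have h6 := dpA_deg_eq z β
      omega
    obtain ⟨i, hiz, hlt⟩ := hex
    exact deep_z1 hn hf hy hH i hiz (β i) α β hz0 hd' hβ rfl hlt
  | succ m ih =>
    intro α β hzm hd hβ
    obtain ⟨a, rfl⟩ := dpA_exists_pred (α := α) (i := z) (by omega)
    rw [dpA_yd_add_self] at hd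
    rw [dpA_add_ap_self] at hzm
    by_cases hb : β z = 0
    · exact h4 _ _ z (hnot _ hd) hb
    · obtain ⟨c, rfl⟩ := dpA_exists_pred (α := β) (i := z) (by omega)
      have hmem : c + Finsupp.single z 1 ∈ Δ := hf _ (by omega)
      rw [h3 _ _ z (hnot _ hd) hmem]
      refine ih _ _ (by omega) hd ?_
      rw [dpA_deg_add] at hβ
      omega

theorem deep (hn : 3 ≤ n) (hΔ : Stable Δ) (hz : ∀ i, i ≤ z) (hf : Full r Δ) (hy : NY z r Δ)
    {f : (Fin n →₀ ℕ) → (Fin n →₀ ℕ) → k} (h : f ∈ Hm k Δ) (α β : Fin n →₀ ℕ) (hα : α ∉ Δ)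
    (hyα : yd z α ≤ r) (hβ : β.degree + 2 ≤ r) : f α β = 0 := by
  have hH := h
  obtain ⟨h1, h2, h3, h4⟩ := h
  obtain ⟨l, hlz, -⟩ := dpA_exists_third hn z z
  have hlt : l < z := lt_of_le_of_ne (hz l) hlz
  have key : ∀ (m : ℕ) (α β : Fin n →₀ ℕ), yd z α + m = r → α ∉ Δ → β.degree + 2 ≤ r →
      f α β = 0 := by
    intro m
    induction m with
    | zero =>
      intro α β hd _ hβ
      exact deep_top hn hf hy hH (α z) α β rfl (by omega) hβ
    | succ m ih =>
      intro α β hd hα hβ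
      have hz1 : 1 ≤ α z := by
        by_contra hcon
        apply hα
        apply hf
        have h5 := dpA_deg_eq z α
        omega
      obtain ⟨a, rfl⟩ := dpA_exists_pred hz1
      rw [dpA_yd_add_self] at hd
      have hna : a + Finsupp.single l 1 ∉ Δ := fun hmem => hα ((hΔ _ l hmem).2 z hlt)
      have hmem : β + Finsupp.single l 1 ∈ Δ := hf _ (by rw [dpA_deg_add]; omega)
      rw [← h3 _ β l hα hmem, add_right_comm]
      by_cases hb : β z = 0
      · refine h4 _ _ z hna ?_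
        rw [dpA_add_ap_ne hlz.symm]
        exact hb
      · obtain ⟨c, rfl⟩ := dpA_exists_pred (α := β) (i := z) (by omega)
        rw [add_right_comm c] at hmem ⊢
        rw [h3 _ _ z hna hmem]
        refine ih _ _ ?_ hna ?_
        · rw [dpA_yd_add_ne hlz]
          omega
        · rw [dpA_deg_add] at hβ ⊢
          exact hβ
  obtain ⟨m, hm⟩ := Nat.exists_eq_add_of_le hyα
  exact key m α β hm.symm hα hβ

end Pool.Agent.Helper87.TE
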