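import Pool.Agent.Helper61.HilbBI
import Pool.Agent.Helper61.HilbPow
import Pool.Agent.Helper87.HQ.Defs

/-!
# Project TE (`MP_9d305a_ag`): `t(d,n)` just above the simplex numbers. Definitions.

`Hm k Δ`: the homomorphisms from the monomial ideal of the complement of `Δ` to the quotient,
given by their coefficients `f α β` (the coefficient of `x^β` in the image of `x^α`).
`yd z α`: the degree of `α` in the variables other than `z`.
`tr z r Δ`: the part of degree `≥ r` of `Δ` in the chart `a_i = x_i / z`, `c = z`.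
-/

open Module Finset

namespace Pool.Agent.Helper87.TE

open Pool.Agent.Hilb61 Pool.Agent.Helper87.HQ

variable {n d : ℕ}

/-- Homomorphisms from the monomial ideal spanned by the exponents outside `Δ` to the quotient. -/
def Hm (k : Type*) [Field k] (Δ : Finset (Fin n →₀ ℕ)) :
    Submodule k ((Fin n →₀ ℕ) → (Fin n →₀ ℕ) → k) where
  carrier := {f | (∀ α β, α ∈ Δ → f α β = 0) ∧ (∀ α β, β ∉ Δ → f α β = 0) ∧
    (∀ α β i, α ∉ Δ → β + Finsupp.single i 1 ∈ Δ →
      f (α + Finsupp.single i 1) (β + Finsupp.single i 1) = f α β) ∧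
    (∀ α β i, α ∉ Δ → β i = 0 → f (α + Finsupp.single i 1) β = 0)}
  add_mem' := by
    rintro f g ⟨h1, h2, h3, h4⟩ ⟨h5, h6, h7, h8⟩
    refine ⟨fun α β h => ?_, fun α β h => ?_, fun α β i h h' => ?_, fun α β i h h' => ?_⟩
    · rw [Pi.add_apply, Pi.add_apply, h1 α β h, h5 α β h, add_zero]
    · rw [Pi.add_apply, Pi.add_apply, h2 α β h, h6 α β h, add_zero]
    · rw [Pi.add_apply, Pi.add_apply, Pi.add_apply, Pi.add_apply, h3 α β i h h', h7 α β i h h']
    · rw [Pi.add_apply, Pi.add_apply, h4 α β i h h', h8 α β i h h', add_zero]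
  zero_mem' := ⟨fun _ _ _ => rfl, fun _ _ _ => rfl, fun _ _ _ _ _ => rfl, fun _ _ _ _ _ => rfl⟩
  smul_mem' := by
    rintro c f ⟨h1, h2, h3, h4⟩
    refine ⟨fun α β h => ?_, fun α β h => ?_, fun α β i h h' => ?_, fun α β i h h' => ?_⟩
    · rw [Pi.smul_apply, Pi.smul_apply, h1 α β h, smul_zero]
    · rw [Pi.smul_apply, Pi.smul_apply, h2 α β h, smul_zero]
    · rw [Pi.smul_apply, Pi.smul_apply, Pi.smul_apply, Pi.smul_apply, h3 α β i h h']
    · rw [Pi.smul_apply, Pi.smul_apply, h4 α β i h h', smul_zero]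

/-- The degree in the variables other than `z`. -/
def yd (z : Fin n) (α : Fin n →₀ ℕ) : ℕ := ∑ i ∈ univ.erase z, α i

/-- The elements of degree at least `r` of `Δ` in the chart `a_i = x_i / z`, `c = z`. -/
noncomputable def tr (z : Fin n) (r : ℕ) (Δ : Finset (Fin n →₀ ℕ)) : Finset (Fin n →₀ ℕ) := by
  classical exact Δ.filter (fun α => α + Finsupp.single z (r - yd z α) ∈ Δ)

/-- All exponents of degree less than `r`. -/
def Full (r : ℕ) (Δ : Finset (Fin n →₀ ℕ)) : Prop := ∀ α : Fin n →₀ ℕ, α.degree < r → α ∈ Δ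

/-- No element of `Δ` has degree `r` or more in the variables other than `z`. -/
def NY (z : Fin n) (r : ℕ) (Δ : Finset (Fin n →₀ ℕ)) : Prop := ∀ α ∈ Δ, yd z α < r

/-- The coefficients in the chart. -/
noncomputable def psi {k : Type*} (z : Fin n) (r : ℕ) (f : (Fin n →₀ ℕ) → (Fin n →₀ ℕ) → k)
    (α β : Fin n →₀ ℕ) : k :=
  f (α + Finsupp.single z (r - yd z α)) (β + Finsupp.single z (r - 1 - yd z β))

lemma mem_tr {z : Fin n} {r : ℕ} {Δ : Finset (Fin n →₀ ℕ)} {α : Fin n →₀ ℕ} :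
    α ∈ tr z r Δ ↔ α ∈ Δ ∧ α + Finsupp.single z (r - yd z α) ∈ Δ := by
  classical
  rw [tr, mem_filter]

/-- The number of elements of `Δ` on the ray from `α` in the direction of `z`. -/
noncomputable def len (z : Fin n) (Δ : Finset (Fin n →₀ ℕ)) (α : Fin n →₀ ℕ) : ℕ := by
  classical exact (Δ.filter (fun δ => ∃ t : ℕ, δ = α + Finsupp.single z t)).card

end Pool.Agent.Helper87.TE
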