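import Pool.Agent.Helper87.TE.Defs

/-!
TE-HmZC. The normalised first-order deformations `ZC0 mon` (Helper61/HilbChar.lean) are the
homomorphisms `Hm (Dlt mon)`. PROOF. Write `Δ = Dlt mon`. `ρ : Hm k Δ → ZC0 mon k`,
`(ρ f) j u s = f (mon s + e_j) (mon u)` (for the proof that it lands in `ZC0` use `ZC0_iff`, or
`ZC_iff` directly; `vanish`: `f α β = 0` for `α ∈ Δ`; `both`: both sides are
`f (mon s + e_i + e_j) (mon u)`; `one`: `mon s + e_j ∉ Δ`, use the third and fourth condition of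
`Hm` for `α = mon s + e_j` and `e_i`; `neither`: both sides are `f (mon s + e_i + e_j) (mon u)`;
note that `α ∉ Δ` implies `α + e_i ∉ Δ` because `Δ` is a lower set, `h.low`).
`ρ` is injective: `f α β = 0` for all `α` by induction on `α.degree`: `α ∈ Δ` is the first
condition; otherwise `α ≠ 0` (`0 ∈ Δ` because `1 ≤ d`, `HChar.exists_zero`), so `α = α' + e_i`; if
`α' ∉ Δ`, conditions 2, 3, 4; if `α' ∈ Δ`, `α' = mon s` and `f α β` is an entry of `ρ f`
(or zero if `β ∉ Δ`). `ρ` is surjective: for `B ∈ ZC0 mon k` put (`z` the index of `0`)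
`γ α = HChar.pw (mon := mon) B α (Pi.single z 1, 0)`; `HChar.pw_add` gives
`γ (α + e_i) = HChar.T mon B i (γ α)` and `HChar.T_apply` the formula for `T`. One shows
`(γ (mon s)) = (Pi.single s 1, 0)` (as in `HChar.exists_gauge`, using that
`B j u s = 0` when `mon s + e_j ∈ Δ`), `(γ α).1 = 0` for `α ∉ Δ` (`A_i` of a basis vector `mon s`
with `mon s + e_i ∉ Δ` is zero), and defines `f α β = 0` if `α ∈ Δ` or `β ∉ Δ`, otherwise
`(γ α).2 t`, `mon t = β`.
-/

open Module Finset

namespace Pool.Agent.Helper87.TE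

open Pool.Agent.Hilb61 Pool.Agent.Helper87.HQ

variable {k : Type*} [Field k] {n d : ℕ} {mon : Fin d → (Fin n →₀ ℕ)}

namespace HmZC

open scoped Matrix

lemma low (h : IsOrd mon) {α : Fin n →₀ ℕ} {i : Fin n}
    (hα : α + Finsupp.single i 1 ∈ Dlt mon) : α ∈ Dlt mon := by
  obtain ⟨s, hs⟩ := mem_Dlt.1 hα
  obtain ⟨r, hr⟩ := h.low s i α hs.symm
  exact mem_Dlt.2 ⟨r, hr⟩

lemma sub_add (α : Fin n →₀ ℕ) (i : Fin n) (hi : α i ≠ 0) :
    (α - Finsupp.single i 1) + Finsupp.single i 1 = α := by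
  apply tsub_add_cancel_of_le
  rw [Finsupp.single_le_iff]
  omega

/-- the values at the pairs `(mon s + e_j, mon u)` -/
noncomputable def rho (mon : Fin d → (Fin n →₀ ℕ)) (f : (Fin n →₀ ℕ) → (Fin n →₀ ℕ) → k) :
    Fin n → Matrix (Fin d) (Fin d) k :=
  fun j => Matrix.of fun u s => f (mon s + Finsupp.single j 1) (mon u)

omit [Field k] in
lemma rho_apply (f : (Fin n →₀ ℕ) → (Fin n →₀ ℕ) → k) (j : Fin n) (u s : Fin d) :
    rho mon f j u s = f (mon s + Finsupp.single j 1) (mon u) := rfl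

lemma ent_L1 (h : IsOrd mon) {f : (Fin n →₀ ℕ) → (Fin n →₀ ℕ) → k} (hf : f ∈ Hm k (Dlt mon))
    (i j : Fin n) (u s : Fin d) (hj : ¬ HChar.In mon s j) :
    HChar.ent (rho mon f) (HChar.L1 mon i j u s) =
      f (mon s + Finsupp.single j 1 + Finsupp.single i 1) (mon u) := by
  obtain ⟨h1, h2, h3, h4⟩ := hf
  have hα : mon s + Finsupp.single j 1 ∉ Dlt mon := fun hm => hj (mem_Dlt.1 hm)
  unfold HChar.L1
  split_ifs with hx
  · have hc := hx.choose_spec
    have h5 := h3 _ (mon hx.choose) i hα (by rw [← hc]; exact mem_Dlt.2 ⟨u, rfl⟩)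
    rw [← hc] at h5
    exact h5.symm
  · have h6 : mon u i = 0 := by
      by_contra hne
      obtain ⟨r, hr⟩ := h.low u i _ (sub_add (mon u) i hne)
      exact hx ⟨r, by rw [hr, sub_add _ _ hne]⟩
    exact (h4 _ (mon u) i hα h6).symm

lemma ent_R1 {f : (Fin n →₀ ℕ) → (Fin n →₀ ℕ) → k}
    (i j : Fin n) (u s : Fin d) (hj : HChar.In mon s j) :
    HChar.ent (rho mon f) (HChar.R1 mon i j u s) =
      f (mon s + Finsupp.single j 1 + Finsupp.single i 1) (mon u) := by
  unfold HChar.R1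
  rw [dif_pos hj]
  exact congrArg (fun a => f (a + Finsupp.single i 1) (mon u)) hj.choose_spec

lemma rho_mem (h : IsOrd mon) {f : (Fin n →₀ ℕ) → (Fin n →₀ ℕ) → k} (hf : f ∈ Hm k (Dlt mon)) :
    rho mon f ∈ HChar.ZC0 mon k := by
  rw [HChar.ZC0_iff h]
  intro a b hab
  cases hab with
  | vanish j u s hs =>
    have h1 := hf.1 (mon s + Finsupp.single j 1) (mon u) (mem_Dlt.2 hs)
    exact h1
  | both i j u s hi hj =>
    rw [ent_R1 i j u s hj, ent_R1 j i u s hi, add_right_comm]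
  | one i j u s hi hj =>
    rw [ent_L1 h hf i j u s hj, ent_R1 j i u s hi, add_right_comm]
  | neither i j u s hi hj =>
    rw [ent_L1 h hf i j u s hj, ent_L1 h hf j i u s hi, add_right_comm]

lemma eq_zero (h : IsOrd mon) (hd : 1 ≤ d) {f : (Fin n →₀ ℕ) → (Fin n →₀ ℕ) → k}
    (hf : f ∈ Hm k (Dlt mon)) (h0 : rho mon f = 0) : f = 0 := by
  obtain ⟨h1, h2, h3, h4⟩ := hf
  obtain ⟨z, hz⟩ := HChar.exists_zero h ⟨0, hd⟩
  suffices H : ∀ (N : ℕ) (α β : Fin n →₀ ℕ), Finsupp.degree α = N → f α β = 0 by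
    funext α β
    exact H _ α β rfl
  intro N
  induction N with
  | zero =>
    intro α β hN
    apply h1
    rw [(Finsupp.degree_eq_zero_iff _).1 hN]
    exact mem_Dlt.2 ⟨z, hz⟩
  | succ N ih =>
    intro α β hN
    by_cases hα : α ∈ Dlt mon
    · exact h1 α β hα
    by_cases hβ : β ∈ Dlt mon
    swap
    · exact h2 α β hβ
    have hne : α ≠ 0 := by
      intro h5
      rw [h5, map_zero] at hN
      omega
    obtain ⟨i, hi⟩ : ∃ i, α i ≠ 0 := by
      by_contra hcon
      push Not at hcon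
      exact hne (Finsupp.ext hcon)
    have hs := sub_add α i hi
    set α' := α - Finsupp.single i 1 with hα'
    have hdeg : Finsupp.degree α' = N := by
      rw [← hs, map_add, Finsupp.degree_single] at hN
      omega
    by_cases hm : α' ∈ Dlt mon
    · obtain ⟨s, hsm⟩ := mem_Dlt.1 hm
      obtain ⟨u, hu⟩ := mem_Dlt.1 hβ
      have h5 : rho mon f i u s = 0 := by rw [h0]; rfl
      rw [rho_apply, hsm, hs, hu] at h5
      exact h5
    · by_cases hb : β i = 0
      · have h5 := h4 α' β i hm hb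
        rwa [hs] at h5
      · have hb' := sub_add β i hb
        have h5 := h3 α' (β - Finsupp.single i 1) i hm (by rw [hb']; exact hβ)
        rw [hs, hb'] at h5
        rw [h5]
        exact ih _ _ hdeg

section Surj

variable (z : Fin d) (B : Fin n → Matrix (Fin d) (Fin d) k)

/-- the images of the monomials -/
noncomputable def gm (mon : Fin d → (Fin n →₀ ℕ)) (z : Fin d)
    (B : Fin n → Matrix (Fin d) (Fin d) k) (α : Fin n →₀ ℕ) : (Fin d → k) × (Fin d → k) :=
  HChar.pw (mon := mon) B α (Pi.single z 1, 0)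

variable {z B}

lemma gm_step (h : IsOrd mon) (hB : B ∈ HChar.ZC0 mon k) (α : Fin n →₀ ℕ) (i : Fin n) :
    gm mon z B (α + Finsupp.single i 1) = (Amon k mon i *ᵥ (gm mon z B α).1,
      Amon k mon i *ᵥ (gm mon z B α).2 + B i *ᵥ (gm mon z B α).1) := by
  unfold gm
  rw [HChar.pw_add h hB.1]
  rfl

lemma gm_mon (h : IsOrd mon) (hz : mon z = 0) (hB : B ∈ HChar.ZC0 mon k) (s : Fin d) :
    gm mon z B (mon s) = (Pi.single s 1, 0) := by
  refine HChar.ord_induct h (P := fun s => gm mon z B (mon s) = (Pi.single s 1, 0))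
    (fun z' hz' => ?_) (fun s t i ht hs => ?_) s
  · have : z' = z := h.inj (hz'.trans hz.symm)
    unfold gm
    rw [hz', HChar.pw_zero, this]
    rfl
  · rw [ht, gm_step h hB, hs]
    refine Prod.ext ?_ ?_
    · exact HChar.Amon_mulVec h ht
    · dsimp only
      rw [Matrix.mulVec_zero, zero_add, Matrix.mulVec_single_one]
      ext u
      exact hB.2 i u s ⟨t, ht⟩

lemma gm_fst (h : IsOrd mon) (hz : mon z = 0) (hB : B ∈ HChar.ZC0 mon k) (α : Fin n →₀ ℕ)
    (hα : α ∉ Dlt mon) : (gm mon z B α).1 = 0 := by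
  classical
  suffices H : ∀ (N : ℕ) (α : Fin n →₀ ℕ), α ∉ Dlt mon → Finsupp.degree α = N →
      (gm mon z B α).1 = 0 from H _ α hα rfl
  intro N
  induction N with
  | zero =>
    intro α hα hN
    exfalso
    apply hα
    rw [(Finsupp.degree_eq_zero_iff _).1 hN]
    exact mem_Dlt.2 ⟨z, hz⟩
  | succ N ih =>
    intro α hα hN
    have hne : α ≠ 0 := by
      intro h5
      rw [h5, map_zero] at hN
      omega
    obtain ⟨i, hi⟩ : ∃ i, α i ≠ 0 := by
      by_contra hcon
      push Not at hcon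
      exact hne (Finsupp.ext hcon)
    have hs := sub_add α i hi
    set α' := α - Finsupp.single i 1 with hα'
    have hdeg : Finsupp.degree α' = N := by
      rw [← hs, map_add, Finsupp.degree_single] at hN
      omega
    rw [← hs, gm_step h hB]
    dsimp only
    by_cases hm : α' ∈ Dlt mon
    · obtain ⟨s, hsm⟩ := mem_Dlt.1 hm
      rw [← hsm, gm_mon h hz hB, Matrix.mulVec_single_one]
      ext u
      rw [Matrix.col_apply, Amon_apply, if_neg]
      · rfl
      · intro hu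
        apply hα
        rw [hsm, hs] at hu
        exact mem_Dlt.2 ⟨u, hu⟩
    · rw [ih α' hm hdeg, Matrix.mulVec_zero]

open Classical in
/-- the homomorphism of a normalised deformation -/
noncomputable def hom (mon : Fin d → (Fin n →₀ ℕ)) (z : Fin d)
    (B : Fin n → Matrix (Fin d) (Fin d) k) (α β : Fin n →₀ ℕ) : k :=
  if h : α ∉ Dlt mon ∧ ∃ u, mon u = β then (gm mon z B α).2 h.2.choose else 0

lemma hom_mon (h : IsOrd mon) {α : Fin n →₀ ℕ} (hα : α ∉ Dlt mon) (u : Fin d) :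
    hom mon z B α (mon u) = (gm mon z B α).2 u := by
  have hx : α ∉ Dlt mon ∧ ∃ u', mon u' = mon u := ⟨hα, u, rfl⟩
  unfold hom
  rw [dif_pos hx, h.inj hx.2.choose_spec]

lemma mulVec_step (h : IsOrd mon) (w : Fin d → k) (i : Fin n) (u t : Fin d)
    (ht : mon u = mon t + Finsupp.single i 1) : (Amon k mon i *ᵥ w) u = w t := by
  have h1 := Amon_mul h (Matrix.of fun a (_ : Fin d) => w a) i u u t ht
  exact h1

lemma mulVec_step_zero (w : Fin d → k) (i : Fin n) (u : Fin d)
    (ht : ∀ t, mon u ≠ mon t + Finsupp.single i 1) : (Amon k mon i *ᵥ w) u = 0 := by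
  have h1 := Amon_mul_zero (Matrix.of fun a (_ : Fin d) => w a) i u u ht
  exact h1

lemma hom_mem (h : IsOrd mon) (hz : mon z = 0) (hB : B ∈ HChar.ZC0 mon k) :
    hom mon z B ∈ Hm k (Dlt mon) := by
  refine ⟨fun α β hα => ?_, fun α β hβ => ?_, fun α β i hα hβ => ?_, fun α β i hα hβ => ?_⟩
  · unfold hom
    rw [dif_neg]
    exact fun hx => hx.1 hα
  · unfold hom
    rw [dif_neg]
    exact fun hx => hβ (mem_Dlt.2 hx.2)
  · have hα' : α + Finsupp.single i 1 ∉ Dlt mon := fun hm => hα (low h hm)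
    obtain ⟨u, hu⟩ := mem_Dlt.1 hβ
    obtain ⟨t, ht⟩ := mem_Dlt.1 (low h hβ)
    rw [← hu, hom_mon h hα', gm_step h hB, ← ht, hom_mon h hα]
    dsimp only
    rw [gm_fst h hz hB α hα, Matrix.mulVec_zero, add_zero,
      mulVec_step h _ i u t (by rw [hu, ht])]
  · by_cases hb : ∃ u, mon u = β
    · obtain ⟨u, hu⟩ := hb
      have hα' : α + Finsupp.single i 1 ∉ Dlt mon := fun hm => hα (low h hm)
      rw [← hu, hom_mon h hα', gm_step h hB]
      dsimp only
      rw [gm_fst h hz hB α hα, Matrix.mulVec_zero, add_zero, mulVec_step_zero]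
      intro t ht
      rw [← hu, ht, Finsupp.add_apply, Finsupp.single_eq_same] at hβ
      omega
    · unfold hom
      rw [dif_neg]
      exact fun hx => hb hx.2

lemma rho_hom (h : IsOrd mon) (hz : mon z = 0) (hB : B ∈ HChar.ZC0 mon k) :
    rho mon (hom mon z B) = B := by
  funext j
  ext u s
  rw [rho_apply]
  by_cases hs : HChar.In mon s j
  · rw [hB.2 j u s hs]
    exact (hom_mem h hz hB).1 _ _ (mem_Dlt.2 hs)
  · have hα : mon s + Finsupp.single j 1 ∉ Dlt mon := fun hm => hs (mem_Dlt.1 hm)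
    rw [hom_mon h hα, gm_step h hB, gm_mon h hz hB]
    dsimp only
    rw [Matrix.mulVec_zero, zero_add, Matrix.mulVec_single_one]
    rfl

end Surj

end HmZC

theorem finrank_ZC0_eq (h : IsOrd mon) (hd : 1 ≤ d) :
    finrank k (HChar.ZC0 mon k) = finrank k (Hm k (Dlt mon)) := by
  obtain ⟨z, hz⟩ := HChar.exists_zero h ⟨0, hd⟩
  let Φ : Hm k (Dlt mon) →ₗ[k] HChar.ZC0 mon k :=
    { toFun := fun f => ⟨HmZC.rho mon f.1, HmZC.rho_mem h f.2⟩
      map_add' := fun f g => rfl
      map_smul' := fun c f => rfl }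
  have hΦ : Function.Bijective Φ := by
    constructor
    · rw [← LinearMap.ker_eq_bot, LinearMap.ker_eq_bot']
      intro f hf
      exact Subtype.ext (HmZC.eq_zero h hd f.2 (congrArg Subtype.val hf))
    · intro B
      exact ⟨⟨HmZC.hom mon z B.1, HmZC.hom_mem h hz B.2⟩,
        Subtype.ext (HmZC.rho_hom h hz B.2)⟩
  exact (LinearEquiv.ofBijective Φ hΦ).finrank_eq.symm

end Pool.Agent.Helper87.TE
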