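import Pool.Agent.Helper61.HilbBI
import Pool.Agent.Helper61.HilbChar

/-!
TE-Small. First-order deformations of monomial algebras of dimension `e`, all `n`. PROOF.
`e ≥ 3`: `e = m + 1`, `finrank_ZC_le` (Helper61/HilbUpper.lean) for `A = Amon k mon`
(`Amon_comm`, `HChar.cyclic_Amon`, `HChar.exists_zero`; over an infinite field):
`finrank ZC + m (m+1) ≤ m + m^2 + m C(m+1,2) + n (m+1)`, which is the claim with equality
(`e (e-1)(e-3)` is even; `2 C(m+1,2) = m (m+1)`). `e = 1`: all commutators vanish, `ZC = ⊤` has
dimension `n` (matrices of size one). `e = 2`: `Dlt mon = {0, e_l}` for some `l` (lower set with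
two elements). By `HChar.finrank_ZC_add` it is enough that `finrank ZC0 ≤ 2 n`: the map
`B ↦ (j ↦ if j = l then column 1 of B l else column 0 of B j)` (`0` the index of the exponent
`0`, `1` that of `e_l`), to `Fin n → Fin 2 → k`, is injective on `ZC0`: `B l` has column `0` zero
(normalisation), and for `j ≠ l` the relation `one` (`i = l`) at `s = 0` gives column `1` of
`B j` from column `0` of `B j`.
-/

open Module Finset

namespace Pool.Agent.Helper87.TE

open Pool.Agent.Hilb61

variable {n e : ℕ} {mon : Fin e → (Fin n →₀ ℕ)}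

private theorem small_ge3 (k : Type*) [Field k] [Infinite k] {m : ℕ} (hm : 2 ≤ m)
    {mon : Fin (m + 1) → (Fin n →₀ ℕ)} (h : IsOrd mon) :
    finrank k (ZC (Amon k mon)) + (m + 1) ≤
      n * (m + 1) + (m + 1) * (m + 1 - 1) * (m + 1 - 3) / 2 + (m + 1) ^ 2 := by
  obtain ⟨z, hz⟩ := HChar.exists_zero h 0
  have h1 := finrank_ZC_le (k := k) hm (fun i j => Amon_comm h i j) (HChar.cyclic_Amon h hz)
  rw [Fintype.card_fin] at h1
  obtain ⟨q, rfl⟩ : ∃ q, m = q + 2 := ⟨m - 2, by omega⟩
  have e1 : q + 2 + 1 - 1 = q + 2 := by omega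
  have e2 : q + 2 + 1 - 3 = q := by omega
  rw [e1, e2]
  have hC : 2 * (q + 2 + 1).choose 2 = (q + 2 + 1) * (q + 2) := by
    rw [Nat.choose_two_right, e1]
    refine Nat.mul_div_cancel' ?_
    have := (Nat.even_mul_succ_self (q + 2)).two_dvd
    rw [mul_comm]
    exact this
  have hE : 2 * ((q + 2 + 1) * (q + 2) * q / 2) = (q + 2 + 1) * (q + 2) * q := by
    refine Nat.mul_div_cancel' ?_
    have := (Nat.even_mul_succ_self (q + 2)).two_dvd
    exact Dvd.dvd.mul_right (by rw [mul_comm]; exact this) q
  generalize (q + 2 + 1).choose 2 = c at *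
  generalize (q + 2 + 1) * (q + 2) * q / 2 = f at *
  have h2 : (q + 2) * (2 * c) = (q + 2) * ((q + 2 + 1) * (q + 2)) := by rw [hC]
  nlinarith [h1, h2, hE]

private theorem small_one (k : Type*) [Field k] {mon : Fin 1 → (Fin n →₀ ℕ)} :
    finrank k (ZC (Amon k mon)) ≤ n := by
  have h1 := Submodule.finrank_le (ZC (Amon k mon))
  refine h1.trans ?_
  rw [Module.finrank_pi_fintype]
  simp [Module.finrank_matrix]

private theorem small_two (k : Type*) [Field k] {mon : Fin 2 → (Fin n →₀ ℕ)} (h : IsOrd mon) :
    finrank k (HChar.ZC0 mon k) ≤ n * 2 := by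
  classical
  obtain ⟨z, hz⟩ := HChar.exists_zero h 0
  obtain ⟨w, hw⟩ : ∃ w : Fin 2, w ≠ z := exists_ne z
  have hall : ∀ t : Fin 2, t = z ∨ t = w := by
    intro t
    fin_cases t <;> fin_cases z <;> fin_cases w <;> simp_all
  have hwne : mon w ≠ 0 := by
    intro h0
    exact hw (h.inj (h0.trans hz.symm))
  obtain ⟨l, hl⟩ : ∃ i, mon w i ≠ 0 := by
    by_contra hcon
    push Not at hcon
    exact hwne (Finsupp.ext hcon)
  have hsub : (mon w - Finsupp.single l 1) + Finsupp.single l 1 = mon w := by
    apply tsub_add_cancel_of_le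
    rw [Finsupp.single_le_iff]
    omega
  obtain ⟨r, hr⟩ := h.low w l _ hsub
  have hmw : mon w = Finsupp.single l 1 := by
    rcases hall r with rfl | rfl
    · rw [← hsub, ← hr, hz, zero_add]
    · exfalso
      rw [← hr] at hsub
      have := congrArg (fun f : Fin n →₀ ℕ => f l) hsub
      simp at this
  have hIn : HChar.In mon z l := ⟨w, by rw [hz, zero_add, hmw]⟩
  have hnIn : ∀ j, j ≠ l → ¬ HChar.In mon z j := by
    rintro j hj ⟨t, ht⟩
    rw [hz, zero_add] at ht
    rcases hall t with rfl | rfl
    · rw [hz] at ht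
      have := congrArg (fun f : Fin n →₀ ℕ => f j) ht
      simp at this
    · rw [hmw] at ht
      have := congrArg (fun f : Fin n →₀ ℕ => f j) ht
      simp [Ne.symm hj] at this
  let Ψ : HChar.ZC0 mon k →ₗ[k] (Fin n → Fin 2 → k) :=
    { toFun := fun B j u => if j = l then B.1 j u w else B.1 j u z
      map_add' := by
        intro B C
        funext j u
        simp only [Pi.add_apply]
        split_ifs
        · rfl
        · rfl
      map_smul' := by
        intro c B
        funext j u
        simp only [Pi.smul_apply, RingHom.id_apply]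
        split_ifs
        · rfl
        · rfl }
  have hinj : Function.Injective Ψ := by
    rw [← LinearMap.ker_eq_bot, LinearMap.ker_eq_bot']
    intro B hB
    have hB' : ∀ j u, (if j = l then B.1 j u w else B.1 j u z) = 0 := fun j u =>
      congrFun (congrFun hB j) u
    apply Subtype.ext
    funext j
    ext u s
    change B.1 j u s = 0
    by_cases hj : j = l
    · subst hj
      rcases hall s with rfl | rfl
      · exact B.2.2 j u s hIn
      · have := hB' j u
        rwa [if_pos rfl] at this
    · have hz0 : ∀ u, B.1 j u z = 0 := fun u => by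
        have := hB' j u
        rwa [if_neg hj] at this
      rcases hall s with rfl | rfl
      · exact hz0 u
      · have h1 := (HChar.ZC0_iff h B.1).1 B.2 _ _ (HChar.Eqn.one l j u z hIn (hnIn j hj))
        have h2 : HChar.ent B.1 (HChar.L1 mon l j u z) = 0 := by
          unfold HChar.L1
          split_ifs with hx
          · exact hz0 _
          · rfl
        have h3 : HChar.ent B.1 (HChar.R1 mon j l u z) = B.1 j u s := by
          unfold HChar.R1
          rw [dif_pos hIn]
          have h4 : hIn.choose = s := by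
            apply h.inj
            rw [hIn.choose_spec, hz, zero_add, hmw]
          change B.1 j u hIn.choose = _
          rw [h4]
        rw [← h3, ← h1, h2]
  have h5 := LinearMap.finrank_le_finrank_of_injective hinj
  refine h5.trans ?_
  rw [Module.finrank_pi_fintype]
  simp

theorem finrank_small (k : Type*) [Field k] [Infinite k] (he : 1 ≤ e) (h : IsOrd mon) :
    finrank k (ZC (Amon k mon)) + e ≤ n * e + e * (e - 1) * (e - 3) / 2 + e ^ 2 := by
  rcases Nat.lt_or_ge e 3 with hlt | hge
  · interval_cases e
    · have := small_one k (mon := mon)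
      simp only [mul_one, Nat.sub_self, mul_zero, zero_mul, Nat.zero_div, add_zero, one_pow]
      omega
    · have h1 := HChar.finrank_ZC_add (k := k) h (by norm_num)
      have h2 := small_two k h
      norm_num
      omega
  · obtain ⟨m, rfl⟩ : ∃ m, e = m + 1 := ⟨e - 1, by omega⟩
    exact small_ge3 k (by omega) h

end Pool.Agent.Helper87.TE
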