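import Pool.Agent.Helper87.TE.Upper
import Pool.Agent.Helper87.TE.Small
import Pool.Agent.Helper87.TE.Add
import Pool.Agent.Helper61.HilbComp
import Pool.Agent.Helper61.HilbPow3

/-!
TE-Main. The pieces of the final theorem.
-/

open MvPolynomial Module Matrix

namespace Pool.Agent.Helper87.TE

open Pool.Agent.Hilb61 Pool.Agent.Helper87.HQ

/-- Every monomial algebra of dimension `e` in `n` variables has a tangent space of dimension at
most `V`. -/
def Tt (n e V : ℕ) : Prop := ∀ mon' : Fin e → (Fin n →₀ ℕ), IsOrd mon' →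
  finrank ℚ (ZC (Amon ℚ mon')) + e ≤ V + e ^ 2

variable {n r e V : ℕ}

lemma Tt_zero : Tt n 0 V := by
  intro mon' _
  have h : finrank ℚ (ZC (Amon ℚ mon')) = 0 := by
    apply Module.finrank_zero_of_subsingleton
  rw [h]
  omega

lemma Tt_small (he : 1 ≤ e) : Tt n e (n * e + e * (e - 1) * (e - 3) / 2) :=
  fun _ h => finrank_small ℚ he h

lemma Tt_TB (hn : 3 ≤ n) (he : 1 ≤ e) : Tt n e (TB n e) := by
  intro mon' h
  obtain ⟨z, hz⟩ := HChar.exists_zero h ⟨0, he⟩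
  have h1 : finrank ℚ (ZC (Amon ℚ mon')) ≤
      e ^ 2 + Theta n (n - 3) e + ∑ l ∈ Finset.range (n - 2), Theta n l e :=
    finrank_ZC_le_Theta (k := ℚ) hn he (fun i j => Amon_comm h i j) (HChar.cyclic_Amon h hz)
  rw [TB]
  omega

lemma mc_eq (hn : 1 ≤ n) (r : ℕ) : (n + r - 1).choose (n - 1) = n.multichoose r := by
  rw [Nat.multichoose_eq, ← Nat.choose_symm_of_eq_add (show n + r - 1 = (n - 1) + r by omega)]

lemma TB_Dn' (hn : 3 ≤ n) (hr : 1 ≤ r) :
    TB n (Dn n r) = n.multichoose r * n.multichoose (r - 1) := by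
  rw [TB_Dn hn, mc_eq (by omega), show n + r - 2 = n + (r - 1) - 1 by omega, mc_eq (by omega)]

lemma Dn_pos (hn : 1 ≤ n) (hr : 1 ≤ r) : 1 ≤ Dn n r := le_trans hr (le_Dn hn r)

lemma Tt_Dn (hn : 3 ≤ n) (hr : 1 ≤ r) :
    Tt n (Dn n r) (n.multichoose r * n.multichoose (r - 1)) := by
  rw [← TB_Dn' hn hr]
  exact Tt_TB hn (Dn_pos (by omega) hr)

lemma Tt_step (hn : 3 ≤ n) (hr : 1 ≤ r) (he : 1 ≤ e)
    (hre : Near n r e) (h : Tt n e V) (hV : n * e ≤ V) :
    Tt n (Dn n r + e) (n.multichoose r * n.multichoose (r - 1) + V) := by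
  intro mon' h'
  obtain ⟨z, hz⟩ := HChar.exists_zero h' ⟨0, by omega⟩
  exact finrank_ZC_le_near (k := ℚ) hn hr he hre h hV (fun i j => Amon_comm h' i j)
    (HChar.cyclic_Amon h' hz)

lemma tangent_le_of_Tt {k : Type*} [Field k] [Infinite k] {d : ℕ} (hd : 1 ≤ d) (h : Tt n d V)
    {lam : Fin d → MvPolynomial (Fin n) k} {I : Ideal (MvPolynomial (Fin n) k)}
    {c : Coord n d → k} (hc : IsCoord lam I c) : finrank k (tangent lam c) ≤ V := by
  have h1 := finrank_tangent_add_le hc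
  obtain ⟨mon, h2, -, h3⟩ := exists_stable_of_cyclic hd (coords_comm hc) (coords_cyclic hc)
  have h4 := h mon h2
  omega

universe u

variable {k : Type u} [Field k]

lemma exists_pow_pt [Infinite k] (hn : 2 ≤ n) (hr : 1 ≤ r) :
    ∃ x ∈ smoothable k n (Dn n r),
      HasTangentDim x (n.multichoose r * n.multichoose (r - 1)) := by
  obtain ⟨mon, hm⟩ := exists_enum n r hr
  have e1 : (n + r - 1).choose n = Dn n r := by
    rw [Dn]
    congr 1
    omega
  rw [← e1]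
  refine ⟨_, xpow_smoothable (k := k) hm hr ⟨0, by omega⟩, lamD k mon, c00 k mon,
    isCoord_pow hm hr, ?_⟩
  exact le_antisymm (finrank_pow_le hm hr hn) (le_finrank_pow hm hr ⟨0, by omega⟩)

lemma small_val {m : ℕ} (hm : 2 ≤ m) (hn : m ≤ n) : m * (m + 1).choose 2 + (n - m) * (m + 1) =
    n * (m + 1) + (m + 1) * m * (m + 1 - 3) / 2 := by
  obtain ⟨q, rfl⟩ : ∃ q, n = m + q := ⟨n - m, by omega⟩
  obtain ⟨p, rfl⟩ : ∃ p, m = p + 2 := ⟨m - 2, by omega⟩
  rw [Nat.add_sub_cancel_left, show p + 2 + 1 - 3 = p by omega]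
  have h1 : (p + 2 + 1).choose 2 * 2 = (p + 3) * (p + 2) := by
    have := Nat.choose_two_right (p + 2 + 1)
    rw [this, show p + 2 + 1 - 1 = p + 2 by omega]
    exact Nat.div_mul_cancel (by
      rw [show p + 2 + 1 = (p + 2) + 1 by ring, mul_comm]
      exact (Nat.even_mul_succ_self (p + 2)).two_dvd)
  have h2 : (p + 2 + 1) * (p + 2) * p / 2 * 2 = (p + 2 + 1) * (p + 2) * p := by
    apply Nat.div_mul_cancel
    apply Dvd.dvd.mul_right
    rw [mul_comm]
    exact (Nat.even_mul_succ_self (p + 2)).two_dvd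
  have h3 : ((p + 2) * (p + 2 + 1).choose 2 + q * (p + 2 + 1)) * 2 =
      ((p + 2 + q) * (p + 2 + 1) + (p + 2 + 1) * (p + 2) * p / 2) * 2 := by
    linear_combination (p + 2) * h1 - h2
  exact Nat.eq_of_mul_eq_mul_right (by norm_num) h3

lemma exists_small_pt [Infinite k] (he : 3 ≤ e) (hn : e ≤ n + 1) :
    ∃ x ∈ smoothable k n e, HasTangentDim x (n * e + e * (e - 1) * (e - 3) / 2) := by
  obtain ⟨m, rfl⟩ : ∃ m, e = m + 1 := ⟨e - 1, by omega⟩
  have hm : 2 ≤ m := by omega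
  have hn' : m ≤ n := by omega
  rw [Nat.add_sub_cancel, ← small_val hm hn']
  refine ⟨x0 k hn', x0_mem_smoothable hn', lam0 k hn', a0 k n m, x0_isCoord hn',
    le_antisymm ?_ (le_finrank_tangent hn')⟩
  have h1 := finrank_tangent_bound hm (x0_isCoord (k := k) hn')
  obtain ⟨q, rfl⟩ : ∃ q, n = m + q := ⟨n - m, by omega⟩
  rw [Nat.add_sub_cancel_left]
  have h2 : (m + q) * (m + 1) = m * (m + 1) + q * (m + 1) := by ring
  rw [h2] at h1
  omega

end Pool.Agent.Helper87.TE
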