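import Pool.Agent.Helper87.TE.Plane

/-!
TE-NonFull. The flag bound in the case `¬ Full`. PROOF. As `finrank_ZC_le_Theta`
(Helper61/HilbBI.lean), with `plane_le` for the summand `l = 0` of the sum (`CentGe .. 1`), and
`G_le` for the others: `finrank ZC ≤ d ^ 2 + Theta n (n-3) d + ∑_{l < n-2} Theta n l d -
(n.multichoose (r-1) + 2 e)`, `TB n d = d + Theta n (n-3) d + ∑ ..`; `finrank_CentGe_le` is for
every field `k`.
-/

open Module Finset

namespace Pool.Agent.Helper87.TE

open Pool.Agent.Hilb61 Pool.Agent.Helper87.HQ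

variable {n r e d : ℕ} {mon : Fin d → (Fin n →₀ ℕ)}

theorem finrank_nonfull (k : Type*) [Field k] (hn : 3 ≤ n) (h : IsOrd mon)
    (hS : Stable (Dlt mon)) (hr : 2 ≤ r) (hd : d = Dn n r + e) (hnf : ¬ Full r (Dlt mon)) :
    finrank k (ZC (Amon k mon)) + d + n.multichoose (r - 1) + 2 * e ≤ TB n d + d ^ 2 := by
  have h4 := finrank_ZC_le_flag (by omega) (Amon k mon)
  have hcard : (Dlt mon).card = Dn n r + e := by rw [h.card_Dlt, hd]
  have h5 : ∀ l, 1 ≤ l → l < n → finrank k (CentGe (Amon k mon) l) ≤ Theta n (l - 1) d := by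
    intro l hl hln
    have h6 := finrank_CentGe_le (k := k) h ⟨l, hln⟩
    have h7 := G_le hS ⟨l, hln⟩ hl
    rw [h.card_Dlt] at h7
    exact h6.trans h7
  have h1 : finrank k (CentGe (Amon k mon) (0 + 1)) + n.multichoose (r - 1) + 2 * e ≤
      Theta n 0 d := by
    have h6 := finrank_CentGe_le (k := k) h ⟨1, by omega⟩
    have h7 := plane_le hn hS hr hcard hnf ⟨1, by omega⟩ rfl
    rw [h.card_Dlt] at h7
    have h8 : finrank k (CentGe (Amon k mon) (0 + 1)) ≤ ∑ u ∈ Dlt mon, ((Dlt mon).filter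
        (fun s => s ⟨1, by omega⟩ = u ⟨1, by omega⟩ ∧
          ∀ m, (⟨1, by omega⟩ : Fin n) < m → s m = 0)).card := h6
    omega
  have h7 := h5 (n - 2) (by omega) (by omega)
  rw [show n - 2 - 1 = n - 3 by omega] at h7
  rw [Fintype.card_fin] at h4
  obtain ⟨N, rfl⟩ : ∃ N, n = N + 3 := ⟨n - 3, by omega⟩
  have h6 : ∑ l ∈ Finset.range N, finrank k (CentGe (Amon k mon) (l + 1 + 1)) ≤
      ∑ l ∈ Finset.range N, Theta (N + 3) (l + 1) d := by
    apply Finset.sum_le_sum
    intro l hl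
    rw [Finset.mem_range] at hl
    exact h5 (l + 1 + 1) (by omega) (by omega)
  rw [TB]
  have e1 : N + 3 - 2 = N + 1 := by omega
  rw [e1, Finset.sum_range_succ'] at h4
  rw [e1, Finset.sum_range_succ']
  rw [e1] at h7
  omega

end Pool.Agent.Helper87.TE
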