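import Pool.Agent.Helper87.TE.Plane

/-!
TE-NonFull3. The flag bound in the case `¬ Full` for `n = 3`, where the plane count occurs twice.
-/

open Module Finset

namespace Pool.Agent.Helper87.TE

open Pool.Agent.Hilb61 Pool.Agent.Helper87.HQ

variable {r e d : ℕ} {mon : Fin d → (Fin 3 →₀ ℕ)}

theorem finrank_nonfull3 (k : Type*) [Field k] (h : IsOrd mon)
    (hS : Stable (Dlt mon)) (hr : 2 ≤ r) (hd : d = Dn 3 r + e) (hnf : ¬ Full r (Dlt mon)) :
    finrank k (ZC (Amon k mon)) + d + 2 * Nat.multichoose 3 (r - 1) + 4 * e ≤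
      TB 3 d + d ^ 2 := by
  have h4 : finrank k (ZC (Amon k mon)) ≤ Fintype.card (Fin d) ^ 2 +
      finrank k (CentGe (Amon k mon) (3 - 2)) +
      ∑ l ∈ Finset.range (3 - 2), finrank k (CentGe (Amon k mon) (l + 1)) :=
    finrank_ZC_le_flag (by omega) (Amon k mon)
  have h5 : finrank k (CentGe (Amon k mon) 1) + Nat.multichoose 3 (r - 1) + 2 * e ≤
      Theta 3 0 d := by
    have h6 := finrank_CentGe_le (k := k) h (1 : Fin 3)
    have h7 := plane_le (le_refl 3) hS hr (by rw [h.card_Dlt, hd]) hnf (1 : Fin 3) rfl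
    rw [h.card_Dlt] at h7
    have h8 : finrank k (CentGe (Amon k mon) 1) ≤ ∑ u ∈ Dlt mon,
        ((Dlt mon).filter (fun s => s 1 = u 1 ∧ ∀ m, 1 < m → s m = 0)).card := h6
    omega
  have h9 : TB 3 d = d + Theta 3 0 d + Theta 3 0 d := by
    rw [TB]
    simp
  have h10 : ∑ l ∈ Finset.range (3 - 2), finrank k (CentGe (Amon k mon) (l + 1)) =
      finrank k (CentGe (Amon k mon) 1) := by
    simp
  rw [h10, show 3 - 2 = 1 from rfl, Fintype.card_fin] at h4
  rw [h9]
  omega

end Pool.Agent.Helper87.TE
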