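import Mathlib

/-!
TE-Num. Two inequalities. PROOF of `num_ineq`. For `e = 0` trivial. `c = (n+r-2).choose (n-2)`.
`n.multichoose (r-1) = (n+r-2).choose (r-1) = (n+r-2).choose (n-1)` and
`(n - 1) * (n+r-2).choose (n-1) = r * c` (`Nat.choose_succ_right_eq`), and
`(r + 1) * (n+r-1).choose (n-2) = (n+r-1) * c` (`Nat.succ_mul_choose_eq` type identities:
`(N+1).choose m * (N+1-m) = (N+1) * N.choose m`). So `(n-1)(r+1) *` (right side) `= r (r+1) c` and
`(n-1)(r+1) *` (left side) `= (n-1) e (n + r - 1 + r + 1) c = (n-1)(2r+n) e c`.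
`num_lt`: `2 (2 r + 3) e ≤ r (r+1)`.
-/

namespace Pool.Agent.Helper87.TE

theorem num_ineq {n r e : ℕ} (hn : 3 ≤ n) (hr : 1 ≤ r)
    (h : (n - 1) * (2 * r + n) * e ≤ r * (r + 1)) :
    e * ((n + r - 1).choose (n - 2) + (n + r - 2).choose (n - 2)) ≤ n.multichoose (r - 1) := by
  obtain ⟨k, rfl⟩ : ∃ k, n = k + 2 := ⟨n - 2, by omega⟩
  obtain ⟨s, rfl⟩ : ∃ s, r = s + 1 := ⟨r - 1, by omega⟩
  have e1 : k + 2 + (s + 1) - 1 = (k + s + 1) + 1 := by omega
  have e2 : k + 2 + (s + 1) - 2 = k + s + 1 := by omega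
  have e3 : k + 2 - 2 = k := by omega
  have e4 : s + 1 - 1 = s := by omega
  have e5 : k + 2 - 1 = k + 1 := by omega
  rw [e1, e2, e3, e4]
  rw [e5] at h
  have hm : (k + 2).multichoose s = (k + s + 1).choose (k + 1) := by
    rw [Nat.multichoose_eq]
    have e6 : k + 2 + s - 1 = k + s + 1 := by omega
    rw [e6]
    apply Nat.choose_symm_of_eq_add
    omega
  rw [hm]
  have h1 := Nat.choose_succ_right_eq (k + s + 1) k
  have e7 : k + s + 1 - k = s + 1 := by omega
  rw [e7] at h1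
  have h2 := Nat.choose_mul_succ_eq (k + s + 1) k
  have e8 : k + s + 1 + 1 - k = s + 2 := by omega
  rw [e8] at h2
  set c := (k + s + 1).choose k with hc
  set b := (k + s + 1 + 1).choose k with hb
  set m := (k + s + 1).choose (k + 1) with hmm
  have hpos : 0 < (k + 1) * (s + 2) := by positivity
  refine Nat.le_of_mul_le_mul_left ?_ hpos
  have h3 : (k + 1) * (s + 2) * (e * (b + c)) = ((k + 1) * (2 * (s + 1) + (k + 2)) * e) * c := by
    have : (s + 2) * b = (k + s + 1 + 1) * c := by rw [mul_comm, ← h2, mul_comm]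
    calc (k + 1) * (s + 2) * (e * (b + c)) = (k + 1) * e * ((s + 2) * b + (s + 2) * c) := by ring
      _ = (k + 1) * e * ((k + s + 1 + 1) * c + (s + 2) * c) := by rw [this]
      _ = ((k + 1) * (2 * (s + 1) + (k + 2)) * e) * c := by ring
  have h4 : (k + 1) * (s + 2) * m = ((s + 1) * (s + 1 + 1)) * c := by
    calc (k + 1) * (s + 2) * m = (s + 2) * (m * (k + 1)) := by ring
      _ = (s + 2) * (c * (s + 1)) := by rw [h1]
      _ = ((s + 1) * (s + 1 + 1)) * c := by ring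
  rw [h3, h4]
  exact Nat.mul_le_mul_right c h

theorem num_lt {n r e : ℕ} (hn : 3 ≤ n) (hr : 1 ≤ r)
    (h : (n - 1) * (2 * r + n) * e ≤ r * (r + 1)) : e + 1 ≤ r := by
  by_contra hcon
  have he : r ≤ e := by omega
  obtain ⟨k, rfl⟩ : ∃ k, n = k + 3 := ⟨n - 3, by omega⟩
  have e5 : k + 3 - 1 = k + 2 := by omega
  rw [e5] at h
  have h1 : 2 * (2 * r + 3) * r ≤ (k + 2) * (2 * r + (k + 3)) * e := by
    apply Nat.mul_le_mul _ he
    apply Nat.mul_le_mul (by omega) (by omega)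
  nlinarith

end Pool.Agent.Helper87.TE
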