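import Pool.Agent.Helper87.TE.Defs

/-!
TE-Plane. The plane count drops if `Δ` does not contain all exponents of degree `< r`. PROOF.
Let `x` be the index `0` and `l` the index `1` of `Fin n`. `Δ` is a lower set. For `i : ℕ` put
`α i = #{s ∈ Δ : s l = i, s m = 0 for m > l}` = the number of `j` with `j e_x + i e_l ∈ Δ`, and
`j e_x + i e_l ∈ Δ ↔ j < α i`. The left sum is `∑_{u ∈ Δ} α (u l)`.
(a) `α 0 ≤ r - 1`: otherwise `(r-1) e_x ∈ Δ`; by `hΔ` (replace `e_x` by any other variable) all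
exponents of degree `r - 1` are in `Δ` and then all of degree `< r` (every exponent of degree
`< r` is below one of degree `r - 1`): `Full r Δ`. (b) `α` is antitone (lower set) and
`α i ≤ α (i+1) + 1` (`j e_x + i e_l ∈ Δ`, `j ≥ 1` implies `(j-1) e_x + (i+1) e_l ∈ Δ`);
`α (u l) ≥ 1` for `u ∈ Δ`. (c) for `1 ≤ q ≤ r - 2`: `#{u ∈ Δ : α (u l) ≤ q} ≥ Dn n q`: if
`α 0 ≤ q` the set is all of `Δ`, `Δ.card ≥ Dn n r ≥ Dn n q`. Otherwise let `i0` be the least `i`
with `α i ≤ q` (exists as `α i = 0` for large `i`); `i0 ≥ 1`, `α (i0 - 1) > q`, so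
`α i0 = q`, `(q-1) e_x + i0 e_l ∈ Δ`, hence `v + i0 e_l ∈ Δ` for all `v` of degree `≤ q - 1`
(`hΔ`), and `(v + i0 e_l) l ≥ i0`, so `α ≤ q` there. The number of `v` is `Dn n q`
(`card_biUnion` of Helper61/HilbPow.lean, `Dset`).
(d) `∑_{u ∈ Δ} (r - 1 - α (u l)) = ∑_{q=1}^{r-2} #{u : α (u l) ≤ q} ≥ ∑_{q=1}^{r-2} Dn n q`.
(e) `Theta n 0 d = ∑_{s<d} wt n 0 s`, and `wt n 0 s ≥ (r + 1) - #{q ∈ [1,r] : s < Dn n q}`
(`wt_eq`, `exists_level`: for `Dn n p ≤ s < Dn n (p+1)`, `wt n 0 s = p + 1`), so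
`Theta n 0 d ≥ (r + 1) d - ∑_{q=1}^{r} Dn n q` for `d ≥ Dn n r`. Together
`Theta - ∑ α ≥ 2 d - Dn n r - Dn n (r-1) = (Dn n r - Dn n (r-1)) + 2 e`, and
`Dn n r - Dn n (r-1) = (n - 1 + (r-1)).choose (n-1) = n.multichoose (r-1)` (`Dn_succ`,
`Nat.multichoose_eq`, `Nat.choose_symm`).
-/

open Module Finset

namespace Pool.Agent.Helper87.TE

open Pool.Agent.Hilb61 Pool.Agent.Helper87.HQ

variable {n r e : ℕ} {Δ : Finset (Fin n →₀ ℕ)}

private lemma sub_lem {v : Fin n →₀ ℕ} {i : Fin n} (h : 1 ≤ v i) :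
    v - Finsupp.single i 1 + Finsupp.single i 1 = v := sub_add_single h

private lemma exists_pos_of_degree {v : Fin n →₀ ℕ} {m : ℕ} (h : v.degree = m + 1) :
    ∃ i, 1 ≤ v i := by
  by_contra hc
  push Not at hc
  have : v = 0 := by
    ext i
    have := hc i
    simp
    omega
  rw [this] at h
  simp at h

private lemma degree_sub {v : Fin n →₀ ℕ} {i : Fin n} {m : ℕ} (h : v.degree = m + 1)
    (hi : 1 ≤ v i) : (v - Finsupp.single i 1).degree = m := by
  have h1 := congrArg Finsupp.degree (sub_lem hi)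
  rw [degree_add_single, h] at h1
  omega

private lemma low_aux (hΔ : Stable Δ) : ∀ m, ∀ w : Fin n →₀ ℕ, w.degree = m →
    ∀ v, v + w ∈ Δ → v ∈ Δ := by
  intro m
  induction m with
  | zero =>
    intro w hw v h
    rw [Finsupp.degree_eq_zero_iff] at hw
    rw [hw, add_zero] at h
    exact h
  | succ m ih =>
    intro w hw v h
    obtain ⟨i, hi⟩ := exists_pos_of_degree hw
    rw [← sub_lem hi, ← add_assoc] at h
    exact ih _ (degree_sub hw hi) v (hΔ _ i h).1

private lemma low_le (hΔ : Stable Δ) {u v : Fin n →₀ ℕ} (hu : u ∈ Δ) (h : v ≤ u) : v ∈ Δ := by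
  apply low_aux hΔ _ (u - v) rfl v
  rw [add_tsub_cancel_of_le h]
  exact hu

private lemma move_aux (hΔ : Stable Δ) (x : Fin n) (hx : (x : ℕ) = 0) :
    ∀ m, ∀ v : Fin n →₀ ℕ, v.degree = m → ∀ w, Finsupp.single x m + w ∈ Δ → v + w ∈ Δ := by
  intro m
  induction m with
  | zero =>
    intro v hv w h
    rw [Finsupp.degree_eq_zero_iff] at hv
    rw [Finsupp.single_zero] at h
    rw [hv]
    exact h
  | succ m ih =>
    intro v hv w h
    obtain ⟨i, hi⟩ := exists_pos_of_degree hv
    rw [Finsupp.single_add, add_assoc, add_comm (Finsupp.single x 1) w, ← add_assoc] at h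
    have h1 : Finsupp.single x m + w + Finsupp.single i 1 ∈ Δ := by
      by_cases hix : i = x
      · rw [hix]; exact h
      · refine (hΔ _ x h).2 i ?_
        rw [Fin.lt_def, hx]
        have : (i : ℕ) ≠ (x : ℕ) := fun h => hix (Fin.ext h)
        omega
    rw [add_assoc] at h1
    have h2 := ih _ (degree_sub hv hi) _ h1
    rw [add_comm w, ← add_assoc, sub_lem hi] at h2
    exact h2

private lemma move_le (hΔ : Stable Δ) (x : Fin n) (hx : (x : ℕ) = 0) {m : ℕ}
    {v : Fin n →₀ ℕ} (hv : v.degree ≤ m) {w : Fin n →₀ ℕ} (h : Finsupp.single x m + w ∈ Δ) :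
    v + w ∈ Δ := by
  apply move_aux hΔ x hx _ v rfl
  apply low_le hΔ h
  apply add_le_add _ le_rfl
  rw [Finsupp.single_le_single]
  exact hv

/-- The number of elements of `Δ` in the plane of `x` and `l` with given exponent of `l`. -/
private noncomputable def al (Δ : Finset (Fin n →₀ ℕ)) (l : Fin n) (i : ℕ) : ℕ :=
  (Δ.filter (fun s => s l = i ∧ ∀ m, l < m → s m = 0)).card

private lemma eq_plane {l x : Fin n} (hl : (l : ℕ) = 1) (hx : (x : ℕ) = 0) {s : Fin n →₀ ℕ}
    {i : ℕ} (h1 : s l = i) (h2 : ∀ m, l < m → s m = 0) :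
    s = Finsupp.single x (s x) + Finsupp.single l i := by
  have hxl : x ≠ l := by
    intro h
    rw [h] at hx
    omega
  ext m
  rw [Finsupp.add_apply]
  by_cases hm : m = x
  · subst hm
    rw [Finsupp.single_eq_same, Finsupp.single_eq_of_ne hxl, add_zero]
  · by_cases hm' : m = l
    · subst hm'
      rw [Finsupp.single_eq_of_ne hm, Finsupp.single_eq_same, zero_add, h1]
    · have h3 : (m : ℕ) ≠ (x : ℕ) := fun h => hm (Fin.ext h)
      have h4 : (m : ℕ) ≠ (l : ℕ) := fun h => hm' (Fin.ext h)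
      have h5 : s m = 0 := h2 m (by rw [Fin.lt_def, hl]; omega)
      rw [Finsupp.single_eq_of_ne hm, Finsupp.single_eq_of_ne hm', h5, add_zero]

private lemma mem_iff (hΔ : Stable Δ) {l x : Fin n} (hl : (l : ℕ) = 1) (hx : (x : ℕ) = 0)
    (i j : ℕ) : Finsupp.single x j + Finsupp.single l i ∈ Δ ↔ j < al Δ l i := by
  classical
  have hxl : x ≠ l := by
    intro h
    rw [h] at hx
    omega
  have hev : ∀ j, (Finsupp.single x j + Finsupp.single l i : Fin n →₀ ℕ) x = j := by
    intro j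
    rw [Finsupp.add_apply, Finsupp.single_eq_same, Finsupp.single_eq_of_ne hxl, add_zero]
  have hmem : ∀ j, (Finsupp.single x j + Finsupp.single l i ∈ Δ ↔
      Finsupp.single x j + Finsupp.single l i ∈
        Δ.filter (fun s => s l = i ∧ ∀ m, l < m → s m = 0)) := by
    intro j
    rw [mem_filter]
    refine ⟨fun h => ⟨h, ?_, fun m hm => ?_⟩, fun h => h.1⟩
    · rw [Finsupp.add_apply, Finsupp.single_eq_same, Finsupp.single_eq_of_ne hxl.symm, zero_add]
    · rw [Fin.lt_def, hl] at hm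
      have h3 : m ≠ x := by
        intro h
        rw [h] at hm
        omega
      have h4 : m ≠ l := by
        intro h
        rw [h] at hm
        omega
      rw [Finsupp.add_apply, Finsupp.single_eq_of_ne h3, Finsupp.single_eq_of_ne h4, add_zero]
  have hcard : al Δ l i = ((Δ.filter (fun s => s l = i ∧ ∀ m, l < m → s m = 0)).image
      (fun s => s x)).card := by
    rw [al, card_image_of_injOn]
    intro s hs s' hs' hss
    rw [mem_coe, mem_filter] at hs hs'
    have h3 : s x = s' x := hss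
    rw [eq_plane hl hx hs.2.1 hs.2.2, eq_plane hl hx hs'.2.1 hs'.2.2, h3]
  have himg : ∀ j, (j ∈ (Δ.filter (fun s => s l = i ∧ ∀ m, l < m → s m = 0)).image
      (fun s => s x) ↔ Finsupp.single x j + Finsupp.single l i ∈ Δ) := by
    intro j
    rw [mem_image]
    constructor
    · rintro ⟨s, hs, rfl⟩
      rw [mem_filter] at hs
      have := eq_plane hl hx hs.2.1 hs.2.2
      rw [← this]
      exact hs.1
    · intro h
      exact ⟨_, (hmem j).1 h, hev j⟩
  constructor
  · intro h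
    have h1 : range (j + 1) ⊆ (Δ.filter (fun s => s l = i ∧ ∀ m, l < m → s m = 0)).image
        (fun s => s x) := by
      intro j' hj'
      rw [mem_range] at hj'
      rw [himg]
      apply low_le hΔ h
      apply add_le_add _ le_rfl
      rw [Finsupp.single_le_single]
      omega
    have h2 := card_le_card h1
    rw [card_range, ← hcard] at h2
    omega
  · intro h
    by_contra hc
    have h1 : (Δ.filter (fun s => s l = i ∧ ∀ m, l < m → s m = 0)).image
        (fun s => s x) ⊆ range j := by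
      intro j' hj'
      rw [himg] at hj'
      rw [mem_range]
      by_contra hjj
      apply hc
      apply low_le hΔ hj'
      apply add_le_add _ le_rfl
      rw [Finsupp.single_le_single]
      omega
    have h2 := card_le_card h1
    rw [card_range, ← hcard] at h2
    omega

private lemma al_anti (hΔ : Stable Δ) {l x : Fin n} (hl : (l : ℕ) = 1) (hx : (x : ℕ) = 0)
    {i i' : ℕ} (h : i ≤ i') : al Δ l i' ≤ al Δ l i := by
  by_contra hc
  push Not at hc
  have h1 := (mem_iff hΔ hl hx i' (al Δ l i)).2 hc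
  have h2 : Finsupp.single x (al Δ l i) + Finsupp.single l i ∈ Δ := by
    apply low_le hΔ h1
    apply add_le_add le_rfl
    rw [Finsupp.single_le_single]
    exact h
  rw [mem_iff hΔ hl hx] at h2
  omega

private lemma al_succ (hΔ : Stable Δ) {l x : Fin n} (hl : (l : ℕ) = 1) (hx : (x : ℕ) = 0)
    (i : ℕ) : al Δ l i ≤ al Δ l (i + 1) + 1 := by
  by_contra hc
  push Not at hc
  have h1 := (mem_iff hΔ hl hx i (al Δ l (i + 1) + 1)).2 hc
  have h2 : Finsupp.single x (al Δ l (i + 1)) + Finsupp.single l (i + 1) ∈ Δ := by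
    rw [Finsupp.single_add, add_assoc, add_comm (Finsupp.single x 1), ← add_assoc] at h1
    rw [Finsupp.single_add, ← add_assoc]
    refine (hΔ _ x h1).2 l ?_
    rw [Fin.lt_def, hx, hl]
    omega
  rw [mem_iff hΔ hl hx] at h2
  omega

private lemma al_pos (hΔ : Stable Δ) {l x : Fin n} (hl : (l : ℕ) = 1) (hx : (x : ℕ) = 0)
    {u : Fin n →₀ ℕ} (hu : u ∈ Δ) : 1 ≤ al Δ l (u l) := by
  have h1 : Finsupp.single x 0 + Finsupp.single l (u l) ∈ Δ := by
    apply low_le hΔ hu
    rw [Finsupp.single_zero, zero_add]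
    intro m
    by_cases hm : m = l
    · rw [hm, Finsupp.single_eq_same]
    · rw [Finsupp.single_eq_of_ne hm]
      exact Nat.zero_le _
  rw [mem_iff hΔ hl hx] at h1
  exact h1

private lemma al_ex (Δ : Finset (Fin n →₀ ℕ)) (l : Fin n) : ∃ i, al Δ l i = 0 := by
  refine ⟨Δ.sup (fun s => s l) + 1, ?_⟩
  rw [al, card_eq_zero, eq_empty_iff_forall_notMem]
  intro s hs
  rw [mem_filter] at hs
  have h1 : s l ≤ Δ.sup (fun s => s l) := Finset.le_sup (f := fun s : Fin n →₀ ℕ => s l) hs.1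
  omega

private lemma count_le (hΔ : Stable Δ) {l x : Fin n} (hl : (l : ℕ) = 1) (hx : (x : ℕ) = 0)
    {q : ℕ} (hq : 1 ≤ q) (hc : Dn n q ≤ Δ.card) :
    Dn n q ≤ (Δ.filter (fun u => al Δ l (u l) ≤ q)).card := by
  classical
  by_cases h0 : al Δ l 0 ≤ q
  · rw [filter_true_of_mem]
    · exact hc
    · intro u _
      exact (al_anti hΔ hl hx (Nat.zero_le _)).trans h0
  · have hex : ∃ i, al Δ l i ≤ q := by
      obtain ⟨i, hi⟩ := al_ex Δ l
      exact ⟨i, by omega⟩
    have h1 := Nat.find_spec hex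
    have h2 : Nat.find hex ≠ 0 := by
      intro h
      rw [h] at h1
      exact h0 h1
    obtain ⟨p, hp⟩ := Nat.exists_eq_succ_of_ne_zero h2
    have h3 := Nat.find_min hex (m := p) (by omega)
    rw [hp] at h1
    have h4 := al_succ hΔ hl hx p
    have h5 : q - 1 < al Δ l (p + 1) := by omega
    have h6 := (mem_iff hΔ hl hx (p + 1) (q - 1)).2 h5
    have h7 : ((Finset.range q).biUnion (Dset n)).card = Dn n q := by
      rw [card_biUnion n q hq, Dn]
      congr 1
      have := l.isLt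
      omega
    rw [← h7]
    apply card_le_card_of_injOn (fun v => v + Finsupp.single l (p + 1))
    · intro v hv
      rw [mem_coe, mem_biUnion] at hv
      obtain ⟨m, hm, hv⟩ := hv
      rw [mem_range] at hm
      rw [mem_Dset] at hv
      rw [mem_coe, mem_filter]
      refine ⟨move_le hΔ x hx (by omega) h6, ?_⟩
      refine (al_anti hΔ hl hx (i := p + 1) ?_).trans h1
      rw [Finsupp.add_apply, Finsupp.single_eq_same]
      omega
    · intro v _ v' _ h
      exact add_right_cancel h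

private lemma Theta_lower {n r d : ℕ} (hn : 1 ≤ n) :
    (r + 1) * d ≤ Theta n 0 d + ∑ q ∈ Ico 1 (r + 1), Dn n q := by
  have h1 : ∀ s, r + 1 ≤ wt n 0 s + ((Ico 1 (r + 1)).filter (fun q => s < Dn n q)).card := by
    intro s
    obtain ⟨p, hp1, hp2⟩ := exists_level hn s
    rw [wt_eq hn 0 hp1 hp2]
    simp only [zero_add, Nat.choose_one_right]
    have h2 : Ico (p + 1) (r + 1) ⊆ (Ico 1 (r + 1)).filter (fun q => s < Dn n q) := by
      intro q hq
      rw [mem_Ico] at hq
      rw [mem_filter, mem_Ico]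
      refine ⟨⟨by omega, by omega⟩, hp2.trans_le ((Dn_mono hn).monotone hq.1)⟩
    have h3 := card_le_card h2
    rw [Nat.card_Ico] at h3
    omega
  have h2 : ∑ s ∈ range d, ((Ico 1 (r + 1)).filter (fun q => s < Dn n q)).card =
      ∑ q ∈ Ico 1 (r + 1), ((range d).filter (fun s => s < Dn n q)).card := by
    simp only [card_filter]
    rw [sum_comm]
  have h3 : ∑ q ∈ Ico 1 (r + 1), ((range d).filter (fun s => s < Dn n q)).card ≤
      ∑ q ∈ Ico 1 (r + 1), Dn n q := by
    apply sum_le_sum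
    intro q _
    have : (range d).filter (fun s => s < Dn n q) ⊆ range (Dn n q) := by
      intro s hs
      rw [mem_filter] at hs
      rw [mem_range]
      exact hs.2
    have := card_le_card this
    rwa [card_range] at this
  have h4 : ∑ s ∈ range d, (r + 1) ≤ ∑ s ∈ range d, (wt n 0 s +
      ((Ico 1 (r + 1)).filter (fun q => s < Dn n q)).card) := sum_le_sum fun s _ => h1 s
  rw [sum_const, card_range, smul_eq_mul, sum_add_distrib, h2] at h4
  rw [mul_comm, Theta]
  omega

theorem plane_le (hn : 3 ≤ n) (hΔ : Stable Δ) (hr : 2 ≤ r) (hc : Δ.card = Dn n r + e)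
    (hnf : ¬ Full r Δ) (l : Fin n) (hl : (l : ℕ) = 1) :
    (∑ u ∈ Δ, (Δ.filter (fun s => s l = u l ∧ ∀ m, l < m → s m = 0)).card) +
      n.multichoose (r - 1) + 2 * e ≤ Theta n 0 Δ.card := by
  classical
  obtain ⟨r, rfl⟩ : ∃ r', r = r' + 2 := ⟨r - 2, by omega⟩
  let x : Fin n := ⟨0, by omega⟩
  have hx : (x : ℕ) = 0 := rfl
  have hn1 : 1 ≤ n := by omega
  -- (a)
  have ha : al Δ l 0 ≤ r + 1 := by
    by_contra hcc
    push Not at hcc
    apply hnf
    intro v hv
    have h1 := (mem_iff hΔ hl hx 0 (r + 1)).2 hcc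
    have h2 := move_le hΔ x hx (v := v) (by omega) h1
    rwa [Finsupp.single_zero, add_zero] at h2
  have hale : ∀ i, al Δ l i ≤ r + 1 := fun i => (al_anti hΔ hl hx (Nat.zero_le _)).trans ha
  -- (d)
  have hd : ∀ u ∈ Δ, al Δ l (u l) + ((Ico 1 (r + 1)).filter (fun q => al Δ l (u l) ≤ q)).card =
      r + 1 := by
    intro u hu
    have h1 := al_pos hΔ hl hx hu
    have h2 := hale (u l)
    have h3 : (Ico 1 (r + 1)).filter (fun q => al Δ l (u l) ≤ q) = Ico (al Δ l (u l)) (r + 1) := by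
      ext q
      rw [mem_filter, mem_Ico, mem_Ico]
      omega
    rw [h3, Nat.card_Ico]
    omega
  have hsum : ∑ u ∈ Δ, al Δ l (u l) + ∑ q ∈ Ico 1 (r + 1),
      (Δ.filter (fun u => al Δ l (u l) ≤ q)).card = (r + 1) * Δ.card := by
    have h1 : ∑ u ∈ Δ, (al Δ l (u l) + ((Ico 1 (r + 1)).filter
        (fun q => al Δ l (u l) ≤ q)).card) = ∑ u ∈ Δ, (r + 1) := sum_congr rfl hd
    rw [sum_add_distrib, sum_const, smul_eq_mul, mul_comm] at h1
    rw [← h1]
    congr 1
    simp only [card_filter]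
    rw [sum_comm]
  have hcnt : ∑ q ∈ Ico 1 (r + 1), Dn n q ≤ ∑ q ∈ Ico 1 (r + 1),
      (Δ.filter (fun u => al Δ l (u l) ≤ q)).card := by
    apply sum_le_sum
    intro q hq
    rw [mem_Ico] at hq
    apply count_le hΔ hl hx hq.1
    rw [hc]
    have := (Dn_mono hn1).monotone (show q ≤ r + 2 by omega)
    omega
  have hTh := Theta_lower (r := r + 2) (d := Δ.card) hn1
  have hs2 : ∑ q ∈ Ico 1 (r + 2 + 1), Dn n q = ∑ q ∈ Ico 1 (r + 1), Dn n q + Dn n (r + 1) +
      Dn n (r + 2) := by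
    rw [sum_Ico_succ_top (by omega), sum_Ico_succ_top (by omega)]
  rw [hs2] at hTh
  have hmc : n.multichoose (r + 2 - 1) + Dn n (r + 1) = Dn n (r + 2) := by
    rw [Dn_succ hn1 (r + 1), Nat.multichoose_eq, add_comm]
    congr 1
    rw [show r + 2 - 1 = r + 1 by omega, show n + (r + 1) - 1 = n - 1 + (r + 1) by omega]
    exact Nat.choose_symm_add.symm
  have hgoal : ∑ u ∈ Δ, (Δ.filter (fun s => s l = u l ∧ ∀ m, l < m → s m = 0)).card =
      ∑ u ∈ Δ, al Δ l (u l) := rfl
  rw [hgoal]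
  have e1 : (r + 2 + 1) * Δ.card = (r + 1) * Δ.card + 2 * Δ.card := by ring
  rw [e1] at hTh
  omega

end Pool.Agent.Helper87.TE
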