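import Pool.Agent.Helper87.TE.Defs

/-!
TE-Tr. The transform `tr z r Δ = {α ∈ Δ : α + (r - yd z α) e_z ∈ Δ}`. PROOFS.
`tr_low`: let `α + e_i ∈ tr`. If `i = z`: `yd z (α + e_z) = yd z α`, lower set. If `i ≠ z`:
`yd z (α+e_i) = yd z α + 1 < r` by `hy`, `α + e_i + (r - yd z α - 1) e_z ∈ Δ`, so by `hΔ`
(replace `e_i` by `e_z`, `i < z`) `α + (r - yd z α) e_z ∈ Δ`; `α ∈ Δ` since `Δ` is a lower set.
`card_tr`: the map `α ↦ α + (r - yd z α) e_z` is a bijection of `tr z r Δ` onto the elements of
`Δ` of degree at least `r` (`degree = yd + value at z`; inverse `δ ↦ δ - (r - yd z δ) e_z`, note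
`yd z` does not see the coordinate `z` and `yd z < r` on `Δ` by `hy`); the others are all
exponents of degree `< r` (`hf`): `card_biUnion` (Helper61/HilbPow.lean) gives
`(n + r - 1).choose n = Dn n r`.
`yd_tr`: a lower set `D` with `α ∈ D`, has at least `yd z α + 1` elements: e.g. remove the
coordinates other than `z` one unit at a time (a chain), induction on `yd z α` by strong
induction on the set of lower elements, or: the exponents `α - γ`, `γ` on a chain; any proof.
`NY_of_card`: let `α ∈ Δ`, `yd z α ≥ r`; as `Δ` is a lower set we may assume `α z = 0` and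
`yd z α = r` (remove units one at a time). Choose a chain `0 = σ_0 < σ_1 < .. < σ_r = α` with
`σ_{j+1} = σ_j + e_{i_j}`; the elements `σ_j + (r - j) e_z`, `0 ≤ j ≤ r`, are in `Δ` (start from
`σ_r = α`, replace one `e_{i_j}` by `e_z` each time, `hΔ`), have degree `r` and are distinct; so
`Δ.card ≥ Dn n r + (r + 1)`.
-/

open Module Finset

namespace Pool.Agent.Helper87.TE

open Pool.Agent.Hilb61 Pool.Agent.Helper87.HQ

variable {n r : ℕ} {Δ : Finset (Fin n →₀ ℕ)} {z : Fin n}

private lemma tr_yd_add_z (α : Fin n →₀ ℕ) (t : ℕ) : yd z (α + Finsupp.single z t) = yd z α := by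
  unfold yd
  refine sum_congr rfl fun i hi => ?_
  rw [Finsupp.add_apply, Finsupp.single_eq_of_ne (ne_of_mem_erase hi), add_zero]

private lemma tr_yd_add_ne (α : Fin n →₀ ℕ) {i : Fin n} (hi : i ≠ z) :
    yd z (α + Finsupp.single i 1) = yd z α + 1 := by
  unfold yd
  simp only [Finsupp.add_apply]
  rw [sum_add_distrib]
  congr 1
  rw [sum_eq_single i]
  · simp
  · intro b _ hb
    rw [Finsupp.single_eq_of_ne hb]
  · intro h
    exact absurd (mem_erase.2 ⟨hi, mem_univ i⟩) h

private lemma tr_degree (α : Fin n →₀ ℕ) : α.degree = yd z α + α z := by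
  rw [Finsupp.degree_eq_sum, yd, sum_erase_add _ _ (mem_univ z)]

private lemma tr_low_of_stable (hΔ : Stable Δ) : Low Δ := fun b i h => (hΔ b i h).1

private lemma tr_low_z {D : Finset (Fin n →₀ ℕ)} (hD : Low D) (α : Fin n →₀ ℕ) (t : ℕ)
    (h : α + Finsupp.single z t ∈ D) : α ∈ D := by
  induction t with
  | zero => rwa [Finsupp.single_zero, add_zero] at h
  | succ t ih =>
    apply ih
    apply hD _ z
    rwa [add_assoc, ← Finsupp.single_add]

/-- An element with positive `yd` has a positive coordinate other than `z`. -/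
private lemma tr_exists_pos {α : Fin n →₀ ℕ} (h : 0 < yd z α) : ∃ i, i ≠ z ∧ 1 ≤ α i := by
  by_contra hcon
  push Not at hcon
  have : yd z α = 0 := by
    unfold yd
    refine sum_eq_zero fun i hi => ?_
    have := hcon i (ne_of_mem_erase hi)
    omega
  omega

private lemma tr_chain {D : Finset (Fin n →₀ ℕ)} (hD : Low D) {α : Fin n →₀ ℕ} (hα : α ∈ D)
    (k : ℕ) (hk : k ≤ yd z α) : ∃ γ ∈ D, yd z γ = yd z α - k ∧ γ z = α z := by
  induction k with
  | zero => exact ⟨α, hα, by omega, rfl⟩
  | succ k ih =>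
    obtain ⟨γ, hγ, h1, h2⟩ := ih (by omega)
    obtain ⟨i, hi, h3⟩ := tr_exists_pos (z := z) (α := γ) (by omega)
    have h4 := sub_add_single (s := γ) (i := i) h3
    refine ⟨γ - Finsupp.single i 1, hD _ i (by rw [h4]; exact hγ), ?_, ?_⟩
    · have h5 := tr_yd_add_ne (z := z) (γ - Finsupp.single i 1) hi
      rw [h4] at h5
      omega
    · rw [Finsupp.tsub_apply, Finsupp.single_eq_of_ne (Ne.symm hi), h2, Nat.sub_zero]

theorem tr_low (hΔ : Stable Δ) (hz : ∀ i, i ≤ z) (hy : NY z r Δ) : Low (tr z r Δ) := by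
  intro b i h
  rw [mem_tr] at h ⊢
  obtain ⟨h1, h2⟩ := h
  refine ⟨(hΔ b i h1).1, ?_⟩
  by_cases hi : i = z
  · subst hi
    rw [tr_yd_add_z] at h2
    apply (hΔ _ i (?_ : b + Finsupp.single i (r - yd i b) + Finsupp.single i 1 ∈ Δ)).1
    rwa [add_right_comm]
  · have h3 := hy _ h1
    rw [tr_yd_add_ne b hi] at h3 h2
    have h4 : b + Finsupp.single z (r - (yd z b + 1)) + Finsupp.single i 1 ∈ Δ := by
      rwa [add_right_comm]
    have h5 := (hΔ _ i h4).2 z (lt_of_le_of_ne (hz i) hi)
    rw [add_assoc, ← Finsupp.single_add] at h5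
    have h6 : r - (yd z b + 1) + 1 = r - yd z b := by omega
    rwa [h6] at h5

private lemma tr_card_low (hr : 1 ≤ r) (hf : Full r Δ) (z : Fin n) :
    (Δ.filter (fun δ => δ.degree < r)).card = Dn n r := by
  have h1 : Δ.filter (fun δ => δ.degree < r) = (range r).biUnion (Dset n) := by
    ext δ
    rw [mem_filter, mem_biUnion]
    constructor
    · rintro ⟨_, h⟩
      exact ⟨δ.degree, mem_range.2 h, mem_Dset.2 rfl⟩
    · rintro ⟨i, hi, h⟩
      rw [mem_Dset] at h
      have h2 : δ.degree < r := by rw [h]; exact mem_range.1 hi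
      exact ⟨hf δ h2, h2⟩
  rw [h1, card_biUnion n r hr, Dn]
  have := z.pos
  congr 1
  omega

theorem card_tr (hΔ : Stable Δ) (hr : 1 ≤ r) (hf : Full r Δ) (hy : NY z r Δ) :
    (tr z r Δ).card + Dn n r = Δ.card := by
  have hlow := tr_low_of_stable hΔ
  have h1 : (tr z r Δ).card = (Δ.filter (fun δ => ¬ δ.degree < r)).card := by
    refine card_bij (fun α _ => α + Finsupp.single z (r - yd z α)) ?_ ?_ ?_
    · intro α hα
      rw [mem_tr] at hα
      have h2 := hy _ hα.1
      rw [mem_filter]
      refine ⟨hα.2, ?_⟩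
      rw [tr_degree (z := z), tr_yd_add_z, Finsupp.add_apply, Finsupp.single_eq_same]
      omega
    · intro α _ β _ h
      have h2 : yd z α = yd z β := by
        have := congrArg (yd z) h
        simpa only [tr_yd_add_z] using this
      simp only [h2] at h
      exact add_right_cancel h
    · intro δ hδ
      rw [mem_filter] at hδ
      have h2 := hy _ hδ.1
      have h3 := tr_degree (z := z) δ
      have h4 : δ - Finsupp.single z (r - yd z δ) + Finsupp.single z (r - yd z δ) = δ := by
        apply tsub_add_cancel_of_le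
        intro m
        by_cases hm : m = z
        · subst hm
          rw [Finsupp.single_eq_same]
          omega
        · rw [Finsupp.single_eq_of_ne hm]
          exact Nat.zero_le _
      have h5 : yd z (δ - Finsupp.single z (r - yd z δ)) = yd z δ := by
        have := tr_yd_add_z (z := z) (δ - Finsupp.single z (r - yd z δ)) (r - yd z δ)
        rw [h4] at this
        exact this.symm
      refine ⟨δ - Finsupp.single z (r - yd z δ), ?_, ?_⟩
      · rw [mem_tr, h5, h4]
        exact ⟨tr_low_z hlow _ _ (by rw [h4]; exact hδ.1), hδ.1⟩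
      · rw [h5, h4]
  rw [h1, ← tr_card_low hr hf z, add_comm, card_filter_add_card_filter_not]

theorem yd_tr {D : Finset (Fin n →₀ ℕ)} (hD : Low D) {α : Fin n →₀ ℕ} (hα : α ∈ D) :
    yd z α + 1 ≤ D.card := by
  have h1 : ∀ k : ℕ, ∃ γ : Fin n →₀ ℕ, k ≤ yd z α → γ ∈ D ∧ yd z γ = yd z α - k := by
    intro k
    by_cases hk : k ≤ yd z α
    · obtain ⟨γ, h1, h2, _⟩ := tr_chain hD hα k hk
      exact ⟨γ, fun _ => ⟨h1, h2⟩⟩
    · exact ⟨0, fun h => absurd h hk⟩
  choose g hg using h1
  have h2 : (range (yd z α + 1)).card ≤ D.card := by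
    apply card_le_card_of_injOn g
    · intro k hk
      have hk' : k < yd z α + 1 := by simpa using hk
      exact (hg k (by omega)).1
    · intro k hk k' hk' h
      have hk1 : k < yd z α + 1 := by simpa using hk
      have hk2 : k' < yd z α + 1 := by simpa using hk'
      have h3 := (hg k (by omega)).2
      have h4 := (hg k' (by omega)).2
      have h' : g k = g k' := h
      rw [h'] at h3
      omega
  rwa [card_range] at h2

private lemma tr_chain_r (hΔ : Stable Δ) (hz : ∀ i, i ≤ z) {γ : Fin n →₀ ℕ} (hγ : γ ∈ Δ)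
    (hγr : γ.degree = r) (k : ℕ) (hk : k ≤ yd z γ) :
    ∃ τ ∈ Δ, yd z τ = yd z γ - k ∧ τ.degree = r := by
  induction k with
  | zero => exact ⟨γ, hγ, by omega, hγr⟩
  | succ k ih =>
    obtain ⟨τ, hτ, h1, h2⟩ := ih (by omega)
    obtain ⟨i, hi, h3⟩ := tr_exists_pos (z := z) (α := τ) (by omega)
    have h4 := sub_add_single (s := τ) (i := i) h3
    refine ⟨τ - Finsupp.single i 1 + Finsupp.single z 1,
      (hΔ _ i (by rw [h4]; exact hτ)).2 z (lt_of_le_of_ne (hz i) hi), ?_, ?_⟩
    · have h5 := tr_yd_add_ne (z := z) (τ - Finsupp.single i 1) hi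
      rw [h4] at h5
      rw [tr_yd_add_z]
      omega
    · have h5 := degree_add_single (τ - Finsupp.single i 1) i
      rw [h4] at h5
      rw [degree_add_single]
      omega

theorem NY_of_card (hΔ : Stable Δ) (hz : ∀ i, i ≤ z) (hr : 1 ≤ r) (hf : Full r Δ)
    (hc : Δ.card ≤ Dn n r + r) : NY z r Δ := by
  classical
  intro α hα
  by_contra hcon
  push Not at hcon
  have hlow := tr_low_of_stable hΔ
  have h1 : α - Finsupp.single z (α z) + Finsupp.single z (α z) = α := by
    apply tsub_add_cancel_of_le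
    intro m
    by_cases hm : m = z
    · subst hm; simp
    · rw [Finsupp.single_eq_of_ne hm]; exact Nat.zero_le _
  have h2 : α - Finsupp.single z (α z) ∈ Δ := tr_low_z hlow _ _ (by rw [h1]; exact hα)
  have h3 : yd z (α - Finsupp.single z (α z)) = yd z α := by
    have := tr_yd_add_z (z := z) (α - Finsupp.single z (α z)) (α z)
    rw [h1] at this
    exact this.symm
  have h4 : (α - Finsupp.single z (α z)) z = 0 := by
    rw [Finsupp.tsub_apply, Finsupp.single_eq_same, Nat.sub_self]
  obtain ⟨γ, hγ, h5, h6⟩ := tr_chain (z := z) hlow h2 (yd z α - r) (by omega)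
  rw [h3] at h5
  rw [h4] at h6
  have h7 : yd z γ = r := by omega
  have h8 : γ.degree = r := by rw [tr_degree (z := z), h7, h6, add_zero]
  have h9 : ∀ k : ℕ, ∃ τ : Fin n →₀ ℕ, k ≤ r → τ ∈ Δ ∧ yd z τ = r - k ∧ τ.degree = r := by
    intro k
    by_cases hk : k ≤ r
    · obtain ⟨τ, ha, hb, hc'⟩ := tr_chain_r hΔ hz hγ h8 k (by omega)
      exact ⟨τ, fun _ => ⟨ha, by rw [hb, h7], hc'⟩⟩
    · exact ⟨0, fun h => absurd h hk⟩
  choose g hg using h9
  have h10 : (range (r + 1)).card ≤ (Δ.filter (fun δ => ¬ δ.degree < r)).card := by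
    apply card_le_card_of_injOn g
    · intro k hk
      have hk' : k < r + 1 := by simpa using hk
      have h11 := hg k (by omega)
      have : g k ∈ Δ.filter (fun δ => ¬ δ.degree < r) :=
        mem_filter.2 ⟨h11.1, by rw [h11.2.2]; omega⟩
      exact this
    · intro k hk k' hk' h
      have hk1 : k < r + 1 := by simpa using hk
      have hk2 : k' < r + 1 := by simpa using hk'
      have h11 := (hg k (by omega)).2.1
      have h12 := (hg k' (by omega)).2.1
      have h' : g k = g k' := h
      rw [h'] at h11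
      omega
  have h13 := card_filter_add_card_filter_not (s := Δ) (fun δ : Fin n →₀ ℕ => δ.degree < r)
  rw [tr_card_low hr hf z] at h13
  rw [card_range] at h10
  omega

end Pool.Agent.Helper87.TE
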