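import Pool.Agent.Helper87.TE.Deep
import Pool.Agent.Helper87.TE.Tr

/-!
TE-Psi. `psi z r f α β = f (α + (r - yd z α) e_z) (β + (r - 1 - yd z β) e_z)` satisfies the
relations of `Hm` for `tr z r Δ` as long as `yd z α + 1 ≤ r`. PROOF. Write
`Tα = α + (r - yd z α) e_z`, `Uβ = β + (r - 1 - yd z β) e_z`. `α ∉ tr` implies `Tα ∉ Δ`
(otherwise `α ∈ Δ` too, `Δ` is a lower set, and `α ∈ tr`). For `β ∈ tr`: `yd z β < r` (`hy`) and
`Uβ + e_z = β + (r - yd z β) e_z ∈ Δ`.
`i ≠ z`: `T(α+e_i) = α + e_i + (r - yd z α - 1) e_z`, so `T(α+e_i) + e_z = Tα + e_i`, and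
`T(α+e_i) ∉ Δ` (otherwise `Tα ∈ Δ` by `hΔ`). For `β' ∈ tr` (`β' = β + e_i`, resp. `β' = β` with
`β i = 0`): `Uβ' + e_z ∈ Δ`, so by the third condition of `Hm` for `e_z`:
`f (T(α+e_i)) (Uβ') = f (T(α+e_i) + e_z) (Uβ' + e_z) = f (Tα + e_i) (Uβ' + e_z)`. If `β' i = 0`
this is `0` by the fourth condition. If `β' = β + e_i`: `Uβ' + e_z = Uβ + e_i` (because
`yd z β' = yd z β + 1 < r`), so it is `f (Tα) (Uβ)` by the third condition.
`i = z`: `T(α+e_z) = Tα + e_z`. `psi_step`: `U(β+e_z) = Uβ + e_z ∈ Δ`, third condition.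
`psi_zero` (`β z = 0`): if `r - 1 - yd z β = 0` then `(Uβ) z = 0`: fourth condition. Otherwise
`Uβ = γ + e_z` with `γ.degree = r - 2` (`β.degree = yd z β + β z`), so
`f (Tα + e_z) (γ + e_z) = f (Tα) γ = 0` by `deep` (`yd z (Tα) = yd z α ≤ r`).
-/

open Module Finset

namespace Pool.Agent.Helper87.TE

open Pool.Agent.Hilb61 Pool.Agent.Helper87.HQ

variable {k : Type*} [Field k] {n r : ℕ} {Δ : Finset (Fin n →₀ ℕ)} {z : Fin n}

private lemma psi_yd_add_z (α : Fin n →₀ ℕ) (t : ℕ) :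
    yd z (α + Finsupp.single z t) = yd z α := by
  unfold yd
  refine sum_congr rfl fun i hi => ?_
  rw [Finsupp.add_apply, Finsupp.single_eq_of_ne (ne_of_mem_erase hi), add_zero]

private lemma psi_yd_add_ne (α : Fin n →₀ ℕ) {i : Fin n} (hi : i ≠ z) :
    yd z (α + Finsupp.single i 1) = yd z α + 1 := by
  unfold yd
  simp only [Finsupp.add_apply]
  rw [sum_add_distrib]
  congr 1
  rw [sum_eq_single i]
  · simp
  · intro b _ hb
    rw [Finsupp.single_eq_of_ne hb]
  · intro h
    exact absurd (mem_erase.2 ⟨hi, mem_univ i⟩) h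

private lemma psi_degree (α : Fin n →₀ ℕ) : α.degree = yd z α + α z := by
  rw [Finsupp.degree_eq_sum, yd, sum_erase_add _ _ (mem_univ z)]

private lemma psi_low_z (hΔ : Stable Δ) (α : Fin n →₀ ℕ) (t : ℕ)
    (h : α + Finsupp.single z t ∈ Δ) : α ∈ Δ := by
  induction t with
  | zero => rwa [Finsupp.single_zero, add_zero] at h
  | succ t ih =>
    apply ih
    apply (hΔ _ z _).1
    rwa [add_assoc, ← Finsupp.single_add]

private lemma psi_T_notMem (hΔ : Stable Δ) {α : Fin n →₀ ℕ} (hα : α ∉ tr z r Δ) :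
    α + Finsupp.single z (r - yd z α) ∉ Δ := fun h =>
  hα (mem_tr.2 ⟨psi_low_z hΔ _ _ h, h⟩)

private lemma psi_U_mem (hy : NY z r Δ) {β : Fin n →₀ ℕ} (hβ : β ∈ tr z r Δ) :
    β + Finsupp.single z (r - 1 - yd z β) + Finsupp.single z 1 ∈ Δ := by
  obtain ⟨h1, h2⟩ := mem_tr.1 hβ
  have h3 := hy _ h1
  rw [add_assoc, ← Finsupp.single_add]
  have h4 : r - 1 - yd z β + 1 = r - yd z β := by omega
  rwa [h4]

/-- the two facts on `T (α + e_i)` for `i ≠ z` -/
private lemma psi_T_ne (hΔ : Stable Δ) (hz : ∀ i, i ≤ z) {α : Fin n →₀ ℕ} {i : Fin n}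
    (hα : α ∉ tr z r Δ) (hyα : yd z α + 1 ≤ r) (hi : i ≠ z) :
    α + Finsupp.single i 1 + Finsupp.single z (r - yd z (α + Finsupp.single i 1)) ∉ Δ ∧
    α + Finsupp.single i 1 + Finsupp.single z (r - yd z (α + Finsupp.single i 1)) +
      Finsupp.single z 1 = α + Finsupp.single z (r - yd z α) + Finsupp.single i 1 := by
  rw [psi_yd_add_ne α hi]
  have h1 : r - (yd z α + 1) + 1 = r - yd z α := by omega
  constructor
  · intro h
    have h2 : α + Finsupp.single z (r - (yd z α + 1)) + Finsupp.single i 1 ∈ Δ := by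
      rwa [add_right_comm]
    have h3 := (hΔ _ i h2).2 z (lt_of_le_of_ne (hz i) hi)
    rw [add_assoc, ← Finsupp.single_add, h1] at h3
    exact psi_T_notMem hΔ hα h3
  · rw [add_assoc (α + Finsupp.single i 1), ← Finsupp.single_add, h1, add_right_comm]

theorem psi_step (hΔ : Stable Δ) (hz : ∀ i, i ≤ z) (hy : NY z r Δ)
    {f : (Fin n →₀ ℕ) → (Fin n →₀ ℕ) → k} (h : f ∈ Hm k Δ) (α β : Fin n →₀ ℕ) (i : Fin n)
    (hα : α ∉ tr z r Δ) (hyα : yd z α + 1 ≤ r) (hβ : β + Finsupp.single i 1 ∈ tr z r Δ) :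
    psi z r f (α + Finsupp.single i 1) (β + Finsupp.single i 1) = psi z r f α β := by
  obtain ⟨_, _, h3, _⟩ := h
  have hT := psi_T_notMem hΔ hα
  have hU := psi_U_mem hy hβ
  unfold psi
  by_cases hi : i = z
  · subst hi
    rw [psi_yd_add_z] at hU ⊢
    rw [psi_yd_add_z]
    rw [add_right_comm α, add_right_comm β]
    apply h3 _ _ i hT
    rw [add_right_comm β] at hU
    exact (hΔ _ i hU).1
  · obtain ⟨hTi, hTe⟩ := psi_T_ne hΔ hz hα hyα hi
    have hyβ : yd z β + 1 < r := by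
      have := hy _ (mem_tr.1 hβ).1
      rwa [psi_yd_add_ne β hi] at this
    have hUe : β + Finsupp.single i 1 + Finsupp.single z (r - 1 - yd z (β + Finsupp.single i 1)) +
        Finsupp.single z 1 = β + Finsupp.single z (r - 1 - yd z β) + Finsupp.single i 1 := by
      rw [psi_yd_add_ne β hi]
      have h1 : r - 1 - (yd z β + 1) + 1 = r - 1 - yd z β := by omega
      rw [add_assoc (β + Finsupp.single i 1), ← Finsupp.single_add, h1, add_right_comm]
    rw [← h3 _ _ z hTi hU, hTe, hUe]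
    rw [hUe] at hU
    exact h3 _ _ i hT hU

theorem psi_zero (hn : 3 ≤ n) (hΔ : Stable Δ) (hz : ∀ i, i ≤ z) (hf : Full r Δ) (hy : NY z r Δ)
    {f : (Fin n →₀ ℕ) → (Fin n →₀ ℕ) → k} (h : f ∈ Hm k Δ) (α β : Fin n →₀ ℕ) (i : Fin n)
    (hα : α ∉ tr z r Δ) (hyα : yd z α + 1 ≤ r) (hβ : β ∈ tr z r Δ) (hi : β i = 0) :
    psi z r f (α + Finsupp.single i 1) β = 0 := by
  have hdeep := deep hn hΔ hz hf hy h
  obtain ⟨_, _, h3, h4⟩ := h
  have hT := psi_T_notMem hΔ hα
  have hU := psi_U_mem hy hβ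
  unfold psi
  by_cases hiz : i = z
  · subst hiz
    rw [psi_yd_add_z, add_right_comm α]
    by_cases hr : r - 1 - yd i β = 0
    · apply h4 _ _ i hT
      rw [hr, Finsupp.single_zero, add_zero, hi]
    · have h5 : β + Finsupp.single i (r - 1 - yd i β) =
          β + Finsupp.single i (r - 1 - yd i β - 1) + Finsupp.single i 1 := by
        rw [add_assoc, ← Finsupp.single_add]
        congr 2
        omega
      have hU1 := (hΔ _ i hU).1
      rw [h5] at hU1 ⊢
      rw [h3 _ _ i hT hU1]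
      apply hdeep _ _ hT
      · rw [psi_yd_add_z]; omega
      · rw [psi_degree (z := i), psi_yd_add_z, Finsupp.add_apply, Finsupp.single_eq_same, hi]
        omega
  · obtain ⟨hTi, hTe⟩ := psi_T_ne hΔ hz hα hyα hiz
    rw [← h3 _ _ z hTi hU, hTe]
    apply h4 _ _ i hT
    simp only [Finsupp.add_apply, hi, Finsupp.single_eq_of_ne hiz, add_zero]

/-- The coefficients in the chart, one degree higher. -/
noncomputable def psi2 (z : Fin n) (r : ℕ) (f : (Fin n →₀ ℕ) → (Fin n →₀ ℕ) → k)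
    (α β : Fin n →₀ ℕ) : k :=
  f (α + Finsupp.single z (r - yd z α))
    (β + Finsupp.single z (r - 1 - yd z β + (yd z α - r)))

omit [Field k] in
lemma psi2_eq {f : (Fin n →₀ ℕ) → (Fin n →₀ ℕ) → k} {α : Fin n →₀ ℕ} (h : yd z α ≤ r)
    (β : Fin n →₀ ℕ) : psi2 z r f α β = psi z r f α β := by
  rw [psi2, psi, show yd z α - r = 0 by omega, add_zero]

theorem psi2_step (hΔ : Stable Δ) (hz : ∀ i, i ≤ z) (hy : NY z r Δ)
    {f : (Fin n →₀ ℕ) → (Fin n →₀ ℕ) → k} (h : f ∈ Hm k Δ) (α β : Fin n →₀ ℕ) (i : Fin n)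
    (hα : α ∉ tr z r Δ) (hyα : yd z α ≤ r) (hβ : β + Finsupp.single i 1 ∈ tr z r Δ) :
    psi2 z r f (α + Finsupp.single i 1) (β + Finsupp.single i 1) = psi z r f α β := by
  rcases Nat.lt_or_ge (yd z α) r with hlt | hge
  · rw [psi2_eq]
    · exact psi_step hΔ hz hy h α β i hα hlt hβ
    · by_cases hi : i = z
      · subst hi
        rw [psi_yd_add_z]
        omega
      · rw [psi_yd_add_ne α hi]
        omega
  · have hT := psi_T_notMem hΔ hα
    have hU := psi_U_mem hy hβ
    obtain ⟨_, _, h3, _⟩ := h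
    by_cases hi : i = z
    · subst hi
      rw [psi2_eq (by rw [psi_yd_add_z]; omega)]
      unfold psi
      rw [psi_yd_add_z] at hU ⊢
      rw [psi_yd_add_z]
      rw [add_right_comm α, add_right_comm β]
      apply h3 _ _ i hT
      rw [add_right_comm β] at hU
      exact (hΔ _ i hU).1
    · have hyβ : yd z β + 1 < r := by
        have := hy _ (mem_tr.1 hβ).1
        rwa [psi_yd_add_ne β hi] at this
      have e1 : r - yd z (α + Finsupp.single i 1) = r - yd z α := by
        rw [psi_yd_add_ne α hi]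
        omega
      have e2 : r - 1 - yd z (β + Finsupp.single i 1) + (yd z (α + Finsupp.single i 1) - r) =
          r - 1 - yd z β := by
        rw [psi_yd_add_ne α hi, psi_yd_add_ne β hi]
        omega
      have e3 : β + Finsupp.single i 1 + Finsupp.single z (r - 1 - yd z (β + Finsupp.single i 1)) +
          Finsupp.single z 1 = β + Finsupp.single z (r - 1 - yd z β) + Finsupp.single i 1 := by
        rw [psi_yd_add_ne β hi, add_assoc (β + Finsupp.single i 1), ← Finsupp.single_add,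
          show r - 1 - (yd z β + 1) + 1 = r - 1 - yd z β by omega, add_right_comm]
      rw [psi2, psi, e1, e2, add_right_comm α, add_right_comm β]
      rw [e3] at hU
      exact h3 _ _ i hT hU

theorem psi2_zero (hn : 3 ≤ n) (hΔ : Stable Δ) (hz : ∀ i, i ≤ z) (hf : Full r Δ)
    (hy : NY z r Δ) {f : (Fin n →₀ ℕ) → (Fin n →₀ ℕ) → k} (h : f ∈ Hm k Δ)
    (α β : Fin n →₀ ℕ) (i : Fin n) (hα : α ∉ tr z r Δ) (hyα : yd z α ≤ r)
    (hβ : β ∈ tr z r Δ) (hi : β i = 0) :
    psi2 z r f (α + Finsupp.single i 1) β = 0 := by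
  rcases Nat.lt_or_ge (yd z α) r with hlt | hge
  · rw [psi2_eq]
    · exact psi_zero hn hΔ hz hf hy h α β i hα hlt hβ hi
    · by_cases hi : i = z
      · subst hi
        rw [psi_yd_add_z]
        omega
      · rw [psi_yd_add_ne α hi]
        omega
  · have hT := psi_T_notMem hΔ hα
    have hU := psi_U_mem hy hβ
    have hdeep := deep hn hΔ hz hf hy h
    obtain ⟨_, _, h3, h4⟩ := h
    by_cases hiz : i = z
    · subst hiz
      rw [psi2_eq (by rw [psi_yd_add_z]; omega)]
      unfold psi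
      rw [psi_yd_add_z, add_right_comm α]
      by_cases hr : r - 1 - yd i β = 0
      · apply h4 _ _ i hT
        rw [hr, Finsupp.single_zero, add_zero, hi]
      · have h5 : β + Finsupp.single i (r - 1 - yd i β) =
            β + Finsupp.single i (r - 1 - yd i β - 1) + Finsupp.single i 1 := by
          rw [add_assoc, ← Finsupp.single_add]
          congr 2
          omega
        have hU1 := (hΔ _ i hU).1
        rw [h5] at hU1 ⊢
        rw [h3 _ _ i hT hU1]
        apply hdeep _ _ hT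
        · rw [psi_yd_add_z]; omega
        · rw [psi_degree (z := i), psi_yd_add_z, Finsupp.add_apply, Finsupp.single_eq_same, hi]
          omega
    · have e1 : r - yd z (α + Finsupp.single i 1) = r - yd z α := by
        rw [psi_yd_add_ne α hiz]
        omega
      rw [psi2, e1, add_right_comm α]
      apply h4 _ _ i hT
      simp only [Finsupp.add_apply, hi, Finsupp.single_eq_of_ne hiz, add_zero]

end Pool.Agent.Helper87.TE
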