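import Pool.Agent.Helper87.TE.Psi

/-!
TE-PsiZC. The deformation of the transform. PROOF. Let `D = tr z r Δ = Dlt mon'`, a lower set
(`tr_low`). Use `HChar.ZC0_iff h'` (or `HChar.ZC_iff`). For `α' = mon' s + e_j ∉ D`:
`yd z (mon' s) + 1 ≤ e` (`yd_tr`, `IsOrd.card_Dlt`), so `yd z α' ≤ e ≤ r`, and
`psi2_step`, `psi2_zero` apply to `α'`. `vanish`: by definition. `both`: both sides are the entry
`psi (mon' s + e_i + e_j) (mon' u)`, or `0` if that exponent is in `D`. `one` (`mon' s + e_i ∈ D`,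
`mon' s + e_j ∉ D`): the right side is `psi (mon' s + e_i + e_j) (mon' u)`, the left side is
`psi (mon' s + e_j) (mon' t)` if `mon' u = mon' t + e_i` (`psi_step`) and `0` if `mon' u` has no
`e_i` (`psi_zero`; `(mon' u) i = 0` because otherwise `mon' u - e_i` is some `mon' t`).
`neither`: both sides are `psi (mon' s + e_i + e_j) (mon' u)` in the same way.
-/

open Module Finset

namespace Pool.Agent.Helper87.TE

open Pool.Agent.Hilb61 Pool.Agent.Helper87.HQ

variable {k : Type*} [Field k] {n r e : ℕ} {Δ : Finset (Fin n →₀ ℕ)} {z : Fin n}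

open Classical in
/-- The deformation of the transform. -/
noncomputable def toZC (z : Fin n) (r : ℕ) (f : (Fin n →₀ ℕ) → (Fin n →₀ ℕ) → k)
    (mon' : Fin e → (Fin n →₀ ℕ)) : Fin n → Matrix (Fin e) (Fin e) k :=
  fun j => Matrix.of fun u s => if ∃ t, mon' t = mon' s + Finsupp.single j 1 then 0
    else psi z r f (mon' s + Finsupp.single j 1) (mon' u)

private lemma yd_add_single_le (z : Fin n) (α : Fin n →₀ ℕ) (j : Fin n) :
    yd z (α + Finsupp.single j 1) ≤ yd z α + 1 := by
  unfold yd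
  simp only [Finsupp.add_apply]
  rw [sum_add_distrib]
  have h1 : ∑ i ∈ univ.erase z, (Finsupp.single j 1 : Fin n →₀ ℕ) i ≤
      ∑ i, (Finsupp.single j 1 : Fin n →₀ ℕ) i :=
    sum_le_sum_of_subset (erase_subset _ _)
  have h2 : ∑ i, (Finsupp.single j 1 : Fin n →₀ ℕ) i = 1 := by
    simp [Finsupp.single_apply]
  omega

private lemma toZC_of_not {f : (Fin n →₀ ℕ) → (Fin n →₀ ℕ) → k} {mon' : Fin e → (Fin n →₀ ℕ)}
    {j : Fin n} {u s : Fin e} (h : ¬ ∃ t, mon' t = mon' s + Finsupp.single j 1) :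
    toZC z r f mon' j u s = psi z r f (mon' s + Finsupp.single j 1) (mon' u) := by
  classical
  simp only [toZC, Matrix.of_apply]
  rw [if_neg h]

private lemma toZC_of_in {f : (Fin n →₀ ℕ) → (Fin n →₀ ℕ) → k} {mon' : Fin e → (Fin n →₀ ℕ)}
    {j : Fin n} {u s : Fin e} (h : ∃ t, mon' t = mon' s + Finsupp.single j 1) :
    toZC z r f mon' j u s = 0 := by
  classical
  simp only [toZC, Matrix.of_apply]
  rw [if_pos h]

theorem toZC_mem (hn : 3 ≤ n) (hΔ : Stable Δ) (hz : ∀ i, i ≤ z) (hf : Full r Δ) (hy : NY z r Δ)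
    {f : (Fin n →₀ ℕ) → (Fin n →₀ ℕ) → k} (h : f ∈ Hm k Δ) {mon' : Fin e → (Fin n →₀ ℕ)}
    (h' : IsOrd mon') (hD : Dlt mon' = tr z r Δ) (he : e ≤ r) :
    toZC z r f mon' ∈ HChar.ZC0 mon' k := by
  have hmem : ∀ s, mon' s ∈ tr z r Δ := fun s => by
    rw [← hD, mem_Dlt]
    exact ⟨s, rfl⟩
  have hlow := tr_low hΔ hz hy
  have hyd : ∀ s j, yd z (mon' s + Finsupp.single j 1) ≤ r := by
    intro s j
    have h1 := yd_add_single_le z (mon' s) j
    have h2 := yd_tr (z := z) hlow (hmem s)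
    rw [← hD, h'.card_Dlt] at h2
    omega
  have hnot : ∀ {s : Fin e} {j : Fin n}, ¬ HChar.In mon' s j →
      mon' s + Finsupp.single j 1 ∉ tr z r Δ := by
    intro s j hj hx
    rw [← hD, mem_Dlt] at hx
    exact hj hx
  have key : ∀ (i j : Fin n) (u s : Fin e), ¬ HChar.In mon' s j →
      HChar.ent (toZC z r f mon') (HChar.L1 mon' i j u s) =
        psi2 z r f (mon' s + Finsupp.single j 1 + Finsupp.single i 1) (mon' u) := by
    intro i j u s hj
    rw [← HChar.ent_L1 h']
    by_cases hx : ∃ t, mon' u = mon' t + Finsupp.single i 1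
    · obtain ⟨t, ht⟩ := hx
      rw [Amon_mul h' _ i u s t ht, toZC_of_not hj, ht]
      refine (psi2_step hΔ hz hy h _ _ i (hnot hj) (hyd s j) ?_).symm
      rw [← ht]
      exact hmem u
    · push Not at hx
      rw [Amon_mul_zero _ i u s hx]
      refine (psi2_zero hn hΔ hz hf hy h _ _ i (hnot hj) (hyd s j) (hmem u) ?_).symm
      by_contra h0
      have h1 : mon' u - Finsupp.single i 1 + Finsupp.single i 1 = mon' u := by
        apply tsub_add_cancel_of_le
        rw [Finsupp.single_le_iff]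
        omega
      obtain ⟨t, ht⟩ := h'.low u i _ h1
      exact hx t (by rw [ht, h1])
  rw [HChar.ZC0_iff h']
  intro a b hab
  cases hab with
  | vanish j u s hs => exact toZC_of_in hs
  | both i j u s hi hj =>
    obtain ⟨t, ht⟩ := hj
    obtain ⟨t', ht'⟩ := hi
    rw [← HChar.ent_R1 h', ← HChar.ent_R1 h', mul_Amon h' _ j u s t ht,
      mul_Amon h' _ i u s t' ht']
    have hcomm : mon' t + Finsupp.single i 1 = mon' t' + Finsupp.single j 1 := by
      rw [ht, ht', add_right_comm]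
    by_cases hx : ∃ v, mon' v = mon' t + Finsupp.single i 1
    · rw [toZC_of_in hx, toZC_of_in (by rw [← hcomm]; exact hx)]
    · rw [toZC_of_not hx, toZC_of_not (by rw [← hcomm]; exact hx), hcomm]
  | one i j u s hi hj =>
    obtain ⟨t, ht⟩ := hi
    rw [key i j u s hj, ← HChar.ent_R1 h', mul_Amon h' _ i u s t ht, toZC_of_not,
      ← psi2_eq (hyd t j), ht, add_right_comm]
    rintro ⟨v, hv⟩
    rw [ht, add_right_comm] at hv
    obtain ⟨w, hw⟩ := h'.low v i _ hv.symm
    exact hj ⟨w, hw⟩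
  | neither i j u s hi hj =>
    rw [key i j u s hj, key j i u s hi, add_right_comm]

end Pool.Agent.Helper87.TE
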