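import Pool.Agent.Helper87.TE.HmZC
import Pool.Agent.Helper87.TE.Count
import Pool.Agent.Helper87.TE.NonFull
import Pool.Agent.Helper87.TE.NonFull3
import Pool.Agent.Helper87.TE.Num

/-!
TE-Upper. The upper bound. PROOF. `exists_stable_of_cyclic` gives `mon`, `Stable (Dlt mon)`,
`finrank k (ZC A) ≤ finrank ℚ (ZC (Amon ℚ mon))`. Case `Full r (Dlt mon)`: `finrank_Hm_le`,
`finrank_ZC0_eq`, `HChar.finrank_ZC_add`. Case not `Full`: `finrank_nonfull`,
`TB_add_of_level`, `TB_Dn`, `num_ineq` (for `n = 3` also `finrank_nonfull3`).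
-/

open Module Finset

namespace Pool.Agent.Helper87.TE

open Pool.Agent.Hilb61 Pool.Agent.Helper87.HQ

variable {n r e : ℕ}

/-- The range of `e`. -/
def Near (n r e : ℕ) : Prop :=
  (n - 1) * (2 * r + n) * e ≤ r * (r + 1) ∨ (n = 3 ∧ e ≤ r ∧ 2 * r * e ≤ r * (r + 1) + 4 * e)

lemma Near.le (hn : 3 ≤ n) (hr : 1 ≤ r) (h : Near n r e) : e ≤ r := by
  rcases h with h | h
  · have := num_lt hn hr h
    omega
  · exact h.2.1

theorem finrank_ZC_le_near {k : Type*} [Field k] [Infinite k] (hn : 3 ≤ n) (hr : 1 ≤ r)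
    (he : 1 ≤ e) (hre : Near n r e) {V : ℕ}
    (hV : ∀ mon' : Fin e → (Fin n →₀ ℕ), IsOrd mon' →
      finrank ℚ (ZC (Amon ℚ mon')) + e ≤ V + e ^ 2) (hV' : n * e ≤ V)
    {A : Fin n → Matrix (Fin (Dn n r + e)) (Fin (Dn n r + e)) k}
    (hA : ∀ i j, A i * A j = A j * A i) {v : Fin (Dn n r + e) → k} (hv : Cyclic A v) :
    finrank k (ZC A) + (Dn n r + e) ≤
      n.multichoose r * n.multichoose (r - 1) + V + (Dn n r + e) ^ 2 := by
  obtain ⟨mon, h1, h2, h3⟩ := exists_stable_of_cyclic (by omega) hA hv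
  have hlt := hre.le hn hr
  by_cases hf : Full r (Dlt mon)
  · obtain ⟨mon', h4, h5⟩ := finrank_Hm_le ℚ hn h2 hr hf h1.card_Dlt he hlt
    rw [← finrank_ZC0_eq (k := ℚ) h1 (by omega)] at h5
    have h6 := HChar.finrank_ZC_add (k := ℚ) h1 (by omega)
    have h7 := HChar.finrank_ZC_add (k := ℚ) h4 he
    have h8 := hV mon' h4
    have e1 : (Dn n r + e) ^ 2 = (Dn n r + e) * (Dn n r + e) := sq _
    have e2 : e ^ 2 = e * e := sq _
    rw [e1]
    rw [e2] at h8
    omega
  · have hr2 : 2 ≤ r := by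
      by_contra hlt2
      have hr1 : r = 1 := by omega
      apply hf
      intro α hα
      rw [hr1, Nat.lt_one_iff, Finsupp.degree_eq_zero_iff] at hα
      obtain ⟨z0, hz0⟩ := HChar.exists_zero h1 ⟨0, by omega⟩
      rw [mem_Dlt]
      exact ⟨z0, by rw [hz0, hα]⟩
    have h5 : e ≤ (n - 1 + r).choose (n - 1) := by
      have h6 : r ≤ (n - 1 + r).choose (n - 1) := by
        obtain ⟨N, rfl⟩ : ∃ N, n = N + 2 := ⟨n - 2, by omega⟩
        rw [show N + 2 - 1 = N + 1 by omega]
        have h7 : (N + 1 + r).choose (N + 1) = (N + 1 + r).choose r := by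
          rw [← Nat.choose_symm_of_eq_add (show N + 1 + r = (N + 1) + r by omega)]
        have h8 : (r + 1).choose r ≤ (N + 1 + r).choose r :=
          Nat.choose_le_choose r (by omega)
        rw [Nat.choose_succ_self_right] at h8
        omega
      omega
    have h6 := TB_add_of_level hn r e h5
    rw [TB_Dn hn] at h6
    have e3 : (n + r - 1).choose (n - 1) = n.multichoose r := by
      rw [Nat.multichoose_eq, ← Nat.choose_symm_of_eq_add (show n + r - 1 = (n - 1) + r by omega)]
    have e4 : (n + r - 2).choose (n - 1) = n.multichoose (r - 1) := by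
      rw [Nat.multichoose_eq, show n + (r - 1) - 1 = n + r - 2 by omega,
        ← Nat.choose_symm_of_eq_add (show n + r - 2 = (n - 1) + (r - 1) by omega)]
    rw [e3, e4] at h6
    rcases hre with hre | ⟨rfl, -, hre⟩
    · have hnum := num_ineq hn hr hre
      have h4 := finrank_nonfull ℚ hn h1 h2 hr2 rfl hf
      omega
    · have h4 := finrank_nonfull3 ℚ h1 h2 hr2 rfl hf
      have h7 : (3 + r - 1).choose (3 - 2) + (3 + r - 2).choose (3 - 2) = 2 * r + 3 := by
        rw [show 3 - 2 = 1 by rfl, Nat.choose_one_right, Nat.choose_one_right]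
        omega
      have h8 : 2 * Nat.multichoose 3 (r - 1) = r * (r + 1) := by
        rw [← e4, show 3 + r - 2 = r + 1 by omega, show 3 - 1 = 2 by rfl, Nat.choose_two_right,
          Nat.add_sub_cancel]
        rw [mul_comm 2, Nat.div_mul_cancel, mul_comm]
        rw [mul_comm]
        exact (Nat.even_mul_succ_self r).two_dvd
      have h9 : e * (2 * r + 3) ≤ r * (r + 1) + 7 * e := by
        have h10 : e * (2 * r + 3) = 2 * r * e + 3 * e := by ring
        omega
      rw [h7] at h6
      omega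

end Pool.Agent.Helper87.TE
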